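import Mathlib

/-!
Pure estimates for the kernel.
-/

set_option autoImplicit false

namespace Pool.Agent.Lib.MP_40a019_an

lemma near_one {κ : ℝ} (hκ1 : κ ≤ 1 / 100000) {a : ℂ} (ha : ‖a - 1‖ ≤ κ) :
    a ≠ 0 ∧ ‖a‖ ≤ 1 + κ ∧ 1 - κ ≤ ‖a‖ := by
  have h1 : ‖a‖ ≤ 1 + κ := by
    calc ‖a‖ = ‖(a - 1) + 1‖ := by rw [sub_add_cancel]
      _ ≤ ‖a - 1‖ + ‖(1:ℂ)‖ := norm_add_le _ _
      _ ≤ _ := by rw [norm_one]; linarith
  have h2 : 1 - κ ≤ ‖a‖ := by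
    have h3 : ‖(1:ℂ)‖ ≤ ‖a‖ + ‖a - 1‖ := by
      calc ‖(1:ℂ)‖ = ‖a - (a - 1)‖ := by rw [sub_sub_cancel]
        _ ≤ _ := norm_sub_le _ _
    rw [norm_one] at h3
    linarith
  exact ⟨norm_pos_iff.mp (by linarith), h1, h2⟩

lemma rho_bounds {κ : ℝ} (hκ0 : 0 ≤ κ) (hκ1 : κ ≤ 1 / 100000) {a b : ℂ} (ha : ‖a - 1‖ ≤ κ)
    (hb : ‖b - 1‖ ≤ κ) : ‖a ^ 2 / b - 1‖ ≤ 4 * κ ∧ ‖a ^ 2 / b - a‖ ≤ 11 / 10 * ‖a - b‖ := by
  obtain ⟨ha0, ha1, ha2⟩ := near_one hκ1 ha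
  obtain ⟨hb0, hb1, hb2⟩ := near_one hκ1 hb
  constructor
  · have h1 : a ^ 2 / b - 1 = ((a - 1) * (a + 1) - (b - 1)) / b := by
      field_simp
      ring
    have h2 : ‖a + 1‖ ≤ 2 + κ := by
      calc ‖a + 1‖ ≤ ‖a‖ + ‖(1:ℂ)‖ := norm_add_le _ _
        _ ≤ _ := by rw [norm_one]; linarith
    rw [h1, norm_div, div_le_iff₀ (by linarith)]
    calc ‖(a - 1) * (a + 1) - (b - 1)‖ ≤ ‖(a - 1) * (a + 1)‖ + ‖b - 1‖ := norm_sub_le _ _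
      _ = ‖a - 1‖ * ‖a + 1‖ + ‖b - 1‖ := by rw [norm_mul]
      _ ≤ κ * (2 + κ) + κ := by gcongr
      _ ≤ 4 * κ * (1 - κ) := by nlinarith
      _ ≤ 4 * κ * ‖b‖ := by gcongr
  · have h1 : a ^ 2 / b - a = a * (a - b) / b := by
      field_simp
    rw [h1, norm_div, norm_mul, div_le_iff₀ (by linarith)]
    have h3 := norm_nonneg (a - b)
    calc ‖a‖ * ‖a - b‖ ≤ (1 + κ) * ‖a - b‖ := by gcongr
      _ ≤ 11 / 10 * ‖a - b‖ * (1 - κ) := by nlinarith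
      _ ≤ 11 / 10 * ‖a - b‖ * ‖b‖ := by gcongr

lemma inv_diff {x y : ℂ} (hx : x ≠ 0) (hy : y ≠ 0) : ‖1 / x - 1 / y‖ = ‖x - y‖ / (‖x‖ * ‖y‖) := by
  have : 1 / x - 1 / y = (y - x) / (x * y) := by field_simp
  rw [this, norm_div, norm_mul, norm_sub_rev]

/-- The kernel estimate. -/
lemma K_bound {κ N : ℝ} (hκ0 : 0 ≤ κ) (hκ1 : κ ≤ 1 / 100000) {a b u u' u₀ T : ℂ}
    (ha : ‖a - 1‖ ≤ κ) (hb : ‖b - 1‖ ≤ κ) (hu : u ≠ 0) (h1 : ‖u' - u‖ ≤ κ * ‖u‖)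
    (h2 : ‖u' - u‖ ≤ 2 * κ) (hT : ‖T‖ = 20) (h3 : 19 ≤ ‖u - T‖) (h4 : 19 ≤ ‖u₀ - T‖)
    (h5 : ‖u - u₀‖ ≤ 1) (hN : 20 ≤ N) (hN1 : N ≤ ‖u - T‖ + 2) (hN2 : N ≤ ‖u₀ - T‖ + 2)
    (hN3 : N ≤ ‖u‖ + 23)
    (hnear : ‖u‖ ≤ 2 → ‖a - b‖ ≤ κ * ‖u‖ ∧ ‖u' - a * u‖ ≤ κ * ‖u‖ ^ 2) :
    ‖a ^ 2 / b * (1 / u' - 1 / (u' - T)) - (1 / u - 1 / (u₀ - T))‖ ≤ 5 / 4 / N ^ 2 := by
  obtain ⟨hρ1, hρ2⟩ := rho_bounds hκ0 hκ1 ha hb
  set ρ := a ^ 2 / b with hρ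
  have hu0 : 0 < ‖u‖ := norm_pos_iff.mpr hu
  have hu1 : 9 / 10 * ‖u‖ ≤ ‖u'‖ := by
    have : ‖u‖ ≤ ‖u'‖ + ‖u' - u‖ := by
      calc ‖u‖ = ‖u' - (u' - u)‖ := by rw [sub_sub_cancel]
        _ ≤ _ := norm_sub_le _ _
    nlinarith
  have hu'0 : u' ≠ 0 := norm_pos_iff.mp (by nlinarith)
  have huT0 : u - T ≠ 0 := norm_pos_iff.mp (by linarith)
  have huT0' : u₀ - T ≠ 0 := norm_pos_iff.mp (by linarith)
  have hu'T : 9 / 10 * ‖u - T‖ ≤ ‖u' - T‖ := by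
    have h6 : ‖u - T‖ ≤ ‖u' - T‖ + ‖u' - u‖ := by
      calc ‖u - T‖ = ‖(u' - T) - (u' - u)‖ := by congr 1; ring
        _ ≤ _ := norm_sub_le _ _
    nlinarith
  have hu'T0 : u' - T ≠ 0 := norm_pos_iff.mp (by nlinarith)
  -- comparison with `N`
  have hNT : N ≤ 21 / 19 * ‖u - T‖ := by linarith
  have hNT' : N ≤ 21 / 19 * ‖u₀ - T‖ := by linarith
  have hNpos : 0 < N := by linarith
  have hinvT : 1 / ‖u - T‖ ≤ 21 / 19 / N := by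
    rw [div_le_div_iff₀ (by linarith) hNpos]
    linarith
  have hinvT' : 1 / ‖u₀ - T‖ ≤ 21 / 19 / N := by
    rw [div_le_div_iff₀ (by linarith) hNpos]
    linarith
  -- the term T0
  have hT0 : ‖1 / (u - T) - 1 / (u₀ - T)‖ ≤ 441 / 361 / N ^ 2 := by
    rw [inv_diff huT0 huT0']
    have h6 : u - T - (u₀ - T) = u - u₀ := by ring
    rw [h6]
    calc ‖u - u₀‖ / (‖u - T‖ * ‖u₀ - T‖) ≤ 1 / (‖u - T‖ * ‖u₀ - T‖) := by gcongr
      _ = 1 / ‖u - T‖ * (1 / ‖u₀ - T‖) := by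
        rw [div_mul_div_comm, one_mul]
      _ ≤ 21 / 19 / N * (21 / 19 / N) := by gcongr
      _ = _ := by ring
  have hmain : ‖ρ * (1 / u' - 1 / (u' - T)) - (1 / u - 1 / (u - T))‖ ≤ 2500 * κ / N ^ 2 := by
    have hd1 : ‖1 / u' - 1 / u‖ = ‖u' - u‖ / (‖u'‖ * ‖u‖) := inv_diff hu'0 hu
    have hd2 : ‖1 / (u' - T) - 1 / (u - T)‖ = ‖u' - u‖ / (‖u' - T‖ * ‖u - T‖) := by
      rw [inv_diff hu'T0 huT0]
      congr 2
      ring
    have hd3 : ‖1 / u' - 1 / (u' - T)‖ = 20 / (‖u'‖ * ‖u' - T‖) := by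
      rw [inv_diff hu'0 hu'T0]
      have : u' - (u' - T) = T := by ring
      rw [this, hT]
    by_cases hcase : ‖u‖ ≤ 2
    · obtain ⟨hab, hau⟩ := hnear hcase
      have hN25 : N ≤ 25 := by linarith
      have e1 : ρ * (1 / u' - 1 / (u' - T)) - (1 / u - 1 / (u - T)) =
          (ρ * u - u') / (u' * u) - ((ρ - 1) / (u' - T) + (1 / (u' - T) - 1 / (u - T))) := by
        field_simp
        ring
      have e2 : ρ * u - u' = (ρ - a) * u - (u' - a * u) := by ring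
      have b1 : ‖(ρ * u - u') / (u' * u)‖ ≤ 3 * κ := by
        rw [norm_div, norm_mul, div_le_iff₀ (by positivity), e2]
        calc ‖(ρ - a) * u - (u' - a * u)‖ ≤ ‖(ρ - a) * u‖ + ‖u' - a * u‖ := norm_sub_le _ _
          _ ≤ 11 / 10 * (κ * ‖u‖) * ‖u‖ + κ * ‖u‖ ^ 2 := by
            rw [norm_mul]
            gcongr
            exact hρ2.trans (by gcongr)
          _ ≤ 3 * κ * (9 / 10 * ‖u‖ * ‖u‖) := by nlinarith [mul_nonneg hκ0 (sq_nonneg ‖u‖)]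
          _ ≤ 3 * κ * (‖u'‖ * ‖u‖) := by gcongr
      have b2 : ‖(ρ - 1) / (u' - T)‖ ≤ κ / 2 := by
        rw [norm_div, div_le_iff₀ (by nlinarith)]
        calc ‖ρ - 1‖ ≤ 4 * κ := hρ1
          _ ≤ κ / 2 * (9 / 10 * 19) := by nlinarith
          _ ≤ κ / 2 * ‖u' - T‖ := by gcongr; linarith
      have b3 : ‖1 / (u' - T) - 1 / (u - T)‖ ≤ κ / 2 := by
        rw [hd2, div_le_iff₀ (by nlinarith)]
        have : (17:ℝ) * 19 ≤ ‖u' - T‖ * ‖u - T‖ := by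
          gcongr
          linarith
        nlinarith
      rw [e1]
      calc _ ≤ ‖(ρ * u - u') / (u' * u)‖ + (‖(ρ - 1) / (u' - T)‖ + ‖1 / (u' - T) - 1 / (u - T)‖) :=
            (norm_sub_le _ _).trans (by gcongr; exact norm_add_le _ _)
        _ ≤ 4 * κ := by linarith
        _ ≤ 2500 * κ / N ^ 2 := by
          rw [le_div_iff₀ (by positivity)]
          have : N ^ 2 ≤ 25 ^ 2 := by gcongr
          nlinarith
    · push Not at hcase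
      have hNu : N ≤ 25 / 2 * ‖u‖ := by linarith
      have hinvu : 1 / ‖u‖ ≤ 25 / 2 / N := by
        rw [div_le_div_iff₀ hu0 hNpos]
        linarith
      have e1 : ρ * (1 / u' - 1 / (u' - T)) - (1 / u - 1 / (u - T)) =
          (ρ - 1) * (1 / u' - 1 / (u' - T)) + (1 / u' - 1 / u) - (1 / (u' - T) - 1 / (u - T)) := by
        ring
      have b1 : ‖(ρ - 1) * (1 / u' - 1 / (u' - T))‖ ≤ 1500 * κ / N ^ 2 := by
        rw [norm_mul, hd3]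
        have hlow : 9 / 10 * ‖u‖ * (9 / 10 * ‖u - T‖) ≤ ‖u'‖ * ‖u' - T‖ := by gcongr
        calc ‖ρ - 1‖ * (20 / (‖u'‖ * ‖u' - T‖)) ≤
            4 * κ * (20 / (9 / 10 * ‖u‖ * (9 / 10 * ‖u - T‖))) := by
              gcongr
          _ = 4 * κ * 20 * (100 / 81) * ((1 / ‖u‖) * (1 / ‖u - T‖)) := by
            have : ‖u - T‖ ≠ 0 := by linarith
            field_simp
            ring
          _ ≤ 4 * κ * 20 * (100 / 81) * ((25 / 2 / N) * (21 / 19 / N)) := by gcongr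
          _ ≤ 1500 * κ / N ^ 2 := by
            have : 4 * κ * 20 * (100 / 81) * ((25 / 2 / N) * (21 / 19 / N)) =
              (4 * 20 * (100 / 81) * (25 / 2) * (21 / 19)) * κ / N ^ 2 := by ring
            rw [this]
            gcongr
            norm_num
      have b2 : ‖1 / u' - 1 / u‖ ≤ 500 * κ / N ^ 2 := by
        rw [hd1]
        have hlow : 9 / 10 * ‖u‖ * ‖u‖ ≤ ‖u'‖ * ‖u‖ := by gcongr
        calc ‖u' - u‖ / (‖u'‖ * ‖u‖) ≤ 2 * κ / (9 / 10 * ‖u‖ * ‖u‖) := by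
              gcongr
          _ = 20 / 9 * κ * ((1 / ‖u‖) * (1 / ‖u‖)) := by
            field_simp
            ring
          _ ≤ 20 / 9 * κ * ((25 / 2 / N) * (25 / 2 / N)) := by gcongr
          _ ≤ 500 * κ / N ^ 2 := by
            have : 20 / 9 * κ * ((25 / 2 / N) * (25 / 2 / N)) =
              (20 / 9 * (25 / 2) * (25 / 2)) * κ / N ^ 2 := by ring
            rw [this]
            gcongr
            norm_num
      have b3 : ‖1 / (u' - T) - 1 / (u - T)‖ ≤ 10 * κ / N ^ 2 := by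
        rw [hd2]
        have hlow : 9 / 10 * ‖u - T‖ * ‖u - T‖ ≤ ‖u' - T‖ * ‖u - T‖ := by gcongr
        calc ‖u' - u‖ / (‖u' - T‖ * ‖u - T‖) ≤ 2 * κ / (9 / 10 * ‖u - T‖ * ‖u - T‖) := by
              gcongr
          _ = 20 / 9 * κ * ((1 / ‖u - T‖) * (1 / ‖u - T‖)) := by
            have : ‖u - T‖ ≠ 0 := by linarith
            field_simp
            ring
          _ ≤ 20 / 9 * κ * ((21 / 19 / N) * (21 / 19 / N)) := by gcongr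
          _ ≤ 10 * κ / N ^ 2 := by
            have : 20 / 9 * κ * ((21 / 19 / N) * (21 / 19 / N)) =
              (20 / 9 * (21 / 19) * (21 / 19)) * κ / N ^ 2 := by ring
            rw [this]
            gcongr
            norm_num
      rw [e1]
      calc _ ≤ ‖(ρ - 1) * (1 / u' - 1 / (u' - T))‖ + ‖1 / u' - 1 / u‖ +
            ‖1 / (u' - T) - 1 / (u - T)‖ :=
              (norm_sub_le _ _).trans (by gcongr; exact norm_add_le _ _)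
        _ ≤ 1500 * κ / N ^ 2 + 500 * κ / N ^ 2 + 10 * κ / N ^ 2 := by gcongr
        _ = 2010 * κ / N ^ 2 := by ring
        _ ≤ 2500 * κ / N ^ 2 := by gcongr; norm_num
  have e3 : ρ * (1 / u' - 1 / (u' - T)) - (1 / u - 1 / (u₀ - T)) =
      (ρ * (1 / u' - 1 / (u' - T)) - (1 / u - 1 / (u - T))) - (1 / (u - T) - 1 / (u₀ - T)) := by
    ring
  rw [e3]
  calc _ ≤ 2500 * κ / N ^ 2 + 441 / 361 / N ^ 2 := (norm_sub_le _ _).trans (add_le_add hmain hT0)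
    _ = (2500 * κ + 441 / 361) / N ^ 2 := by ring
    _ ≤ 5 / 4 / N ^ 2 := by
      gcongr
      linarith

end Pool.Agent.Lib.MP_40a019_an
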