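import Mathlib

/-!
Periodic Cauchy formula: for a 1-periodic holomorphic function `y` on a half plane `R < Im z`
which vanishes at `i ∞`, the integral of `y` over a unit horizontal segment against the periodic
Cauchy kernel reproduces `y` above the segment and is `0` below it.
-/

set_option autoImplicit false

namespace Pool.Agent.Lib.MP_40a019_an

open Set Filter Topology Metric Complex
open scoped Real

/-- 1-periodic holomorphic function on `R < Im z`, vanishing at `i ∞`. -/
structure TopPer (R : ℝ) (y : ℂ → ℂ) : Prop where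
  diff : ∀ z : ℂ, R < z.im → DifferentiableAt ℂ y z
  per : ∀ z : ℂ, R < z.im → y (z + 1) = y z
  lim : Tendsto y (comap im atTop) (𝓝 0)

/-- the exponential `exp (2 π i z)`. -/
noncomputable def qq (z : ℂ) : ℂ := Complex.exp (2 * π * I * z)

lemma qq_eq (z : ℂ) : qq z = Function.Periodic.qParam 1 z := by
  simp [qq, Function.Periodic.qParam]

lemma norm_qq (z : ℂ) : ‖qq z‖ = Real.exp (-(2 * π * z.im)) := by
  rw [qq_eq, Function.Periodic.norm_qParam]
  congr 1
  ring

lemma qq_ne (z : ℂ) : qq z ≠ 0 := Complex.exp_ne_zero _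

lemma TopPer.exists_disc {R : ℝ} {y : ℂ → ℂ} (hy : TopPer R y) :
    ∃ Y : ℂ → ℂ, DifferentiableOn ℂ Y (ball 0 (Real.exp (-(2 * π * R)))) ∧ Y 0 = 0 ∧
      ∀ z : ℂ, R < z.im → Y (qq z) = y z := by
  classical
  set f : ℂ → ℂ := fun z => if R < z.im then y z else 0 with hf
  have hfy : ∀ z : ℂ, R < z.im → f z = y z := fun z hz => by simp only [hf]; rw [if_pos hz]
  have hopen : IsOpen {z : ℂ | R < z.im} := isOpen_lt continuous_const continuous_im
  have hfe : ∀ z : ℂ, R < z.im → f =ᶠ[𝓝 z] y := by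
    intro z hz
    filter_upwards [hopen.mem_nhds hz] with w hw using hfy w hw
  have hper : Function.Periodic f ((1 : ℝ) : ℂ) := by
    intro z
    simp only [hf, ofReal_one, add_im, one_im, add_zero]
    by_cases hz : R < z.im
    · rw [if_pos hz, if_pos hz, hy.per z hz]
    · rw [if_neg hz, if_neg hz]
  have hdiff : ∀ z : ℂ, R < z.im → DifferentiableAt ℂ f z :=
    fun z hz => (hy.diff z hz).congr_of_eventuallyEq (hfe z hz)
  have hev : ∀ᶠ z in comap im atTop, R < z.im := tendsto_comap.eventually (eventually_gt_atTop R)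
  have hlim : Tendsto f (comap im atTop) (𝓝 0) := by
    refine hy.lim.congr' ?_
    filter_upwards [hev] with z hz using (hfy z hz).symm
  have hzero : Filter.ZeroAtFilter (comap im atTop) f := hlim
  have hd0 := Function.Periodic.differentiableAt_cuspFunction_zero one_pos hper
    (hev.mono fun z hz => hdiff z hz) hzero.boundedAtFilter
  refine ⟨Function.Periodic.cuspFunction 1 f, ?_, ?_, ?_⟩
  · intro q hq
    by_cases hq0 : q = 0
    · subst hq0; exact hd0.differentiableWithinAt
    · have h1 : Function.Periodic.qParam 1 (Function.Periodic.invQParam 1 q) = q :=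
        Function.Periodic.qParam_right_inv one_ne_zero hq0
      have him : R < (Function.Periodic.invQParam 1 q).im := by
        rw [Function.Periodic.im_invQParam]
        have h2 : ‖q‖ < Real.exp (-(2 * π * R)) := by simpa using hq
        have h3 : Real.log ‖q‖ < -(2 * π * R) := by
          rw [← Real.log_exp (-(2 * π * R))]
          exact Real.log_lt_log (norm_pos_iff.mpr hq0) h2
        have hpi := Real.pi_pos
        have h4 : -1 / (2 * π) * Real.log ‖q‖ = (-Real.log ‖q‖) / (2 * π) := by ring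
        rw [h4, lt_div_iff₀ (by positivity)]
        linarith
      have := Function.Periodic.differentiableAt_cuspFunction one_ne_zero hper (hdiff _ him)
      rw [h1] at this
      exact this.differentiableWithinAt
  · exact Function.Periodic.cuspFunction_zero_of_zero_at_inf one_pos hzero
  · intro z hz
    rw [qq_eq, Function.Periodic.eq_cuspFunction one_ne_zero hper, hfy z hz]

lemma circle_eq (r : ℝ) (g : ℂ → ℂ) :
    (∮ z in C(0, Real.exp (-(2 * π * r))), g z) =
      ∫ x in (0:ℝ)..1, (2 * π * I) * (qq (x + r * I) * g (qq (x + r * I))) := by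
  have h1 : ∀ x : ℝ, circleMap 0 (Real.exp (-(2 * π * r))) (2 * π * x) = qq (x + r * I) := by
    intro x
    rw [circleMap_zero, qq, Complex.ofReal_exp, ← Complex.exp_add]
    congr 1
    push_cast
    linear_combination (-(2 * π * r) : ℂ) * I_sq
  rw [circleIntegral]
  have h2 := intervalIntegral.smul_integral_comp_mul_left (a := (0:ℝ)) (b := 1)
    (fun θ => deriv (circleMap 0 (Real.exp (-(2 * π * r)))) θ • g (circleMap 0 (Real.exp (-(2 * π * r))) θ))
    (2 * π)
  rw [mul_zero, mul_one] at h2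
  rw [← h2, Complex.real_smul, ← intervalIntegral.integral_const_mul]
  refine intervalIntegral.integral_congr fun x _ => ?_
  simp only [deriv_circleMap, h1, smul_eq_mul]
  push_cast
  ring

lemma exp_lt_of_lt {R r : ℝ} (h : R < r) :
    Real.exp (-(2 * π * r)) < Real.exp (-(2 * π * R)) := by
  have := Real.pi_pos
  exact Real.exp_lt_exp.mpr (by nlinarith)

/-- The mean value over a unit segment is `0`. -/
lemma TopPer.mean_zero {R r : ℝ} {y : ℂ → ℂ} (hy : TopPer R y) (hr : R < r) :
    ∫ x in (0:ℝ)..1, y (x + r * I) = 0 := by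
  obtain ⟨Y, hY, hY0, hYy⟩ := hy.exists_disc
  have hball : ball (0:ℂ) (Real.exp (-(2 * π * R))) ∈ 𝓝 (0:ℂ) := ball_mem_nhds _ (Real.exp_pos _)
  have hG : DifferentiableOn ℂ (dslope Y 0) (ball 0 (Real.exp (-(2 * π * R)))) :=
    (Complex.differentiableOn_dslope hball).mpr hY
  have hsub : closedBall (0:ℂ) (Real.exp (-(2 * π * r))) ⊆ ball 0 (Real.exp (-(2 * π * R))) :=
    closedBall_subset_ball (exp_lt_of_lt hr)
  have h0 : (∮ z in C(0, Real.exp (-(2 * π * r))), dslope Y 0 z) = 0 := by
    refine Complex.circleIntegral_eq_zero_of_differentiable_on_off_countable (Real.exp_pos _).le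
      countable_empty (hG.continuousOn.mono hsub) ?_
    intro z hz
    exact (hG.differentiableAt (isOpen_ball.mem_nhds (hsub (ball_subset_closedBall hz.1))))
  rw [circle_eq] at h0
  have h1 : ∀ x : ℝ, (2 * π * I) * (qq (x + r * I) * dslope Y 0 (qq (x + r * I))) =
      (2 * π * I) * y (x + r * I) := by
    intro x
    have h2 : qq (x + r * I) * dslope Y 0 (qq (x + r * I)) = Y (qq (x + r * I)) := by
      have := sub_smul_dslope Y 0 (qq (x + r * I))
      rw [sub_zero, hY0, sub_zero, smul_eq_mul] at this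
      exact this
    rw [h2, hYy]
    simpa using hr
  simp_rw [h1] at h0
  rw [intervalIntegral.integral_const_mul] at h0
  exact (mul_eq_zero.mp h0).resolve_left two_pi_I_ne_zero

lemma pi_cot_eq (ξ η : ℂ) (h : qq ξ ≠ qq η) :
    (π : ℂ) * cot (π * (ξ - η)) = π * I * ((qq ξ + qq η) / (qq ξ - qq η)) := by
  rw [Complex.cot_pi_eq_exp_ratio]
  have h1 : Complex.exp (2 * π * I * (ξ - η)) = qq ξ / qq η := by
    rw [qq, qq, ← Complex.exp_sub]
    congr 1
    ring
  rw [h1]
  have h2 := qq_ne η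
  have h3 : qq ξ - qq η ≠ 0 := sub_ne_zero.mpr h
  have h4 : qq η - qq ξ ≠ 0 := sub_ne_zero.mpr h.symm
  have h5 : 1 - qq ξ / qq η ≠ 0 := by
    rw [one_sub_div h2]
    exact div_ne_zero h4 h2
  field_simp
  linear_combination (qq ξ + qq η) * (qq ξ - qq η) * I_sq

lemma TopPer.cot_integral_eq {R r : ℝ} {y : ℂ → ℂ} (_hy : TopPer R y) (hr : R < r)
    {Y : ℂ → ℂ} (hY0 : Y 0 = 0) (hYy : ∀ z : ℂ, R < z.im → Y (qq z) = y z) {η : ℂ}
    (hη : η.im ≠ r) :
    ∫ x in (0:ℝ)..1, y (x + r * I) * (π * cot (π * (x + r * I - η))) =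
      (1 / 2) * ∮ z in C(0, Real.exp (-(2 * π * r))),
        (z - qq η)⁻¹ • (dslope Y 0 z * (z + qq η)) := by
  rw [circle_eq, ← intervalIntegral.integral_const_mul]
  refine intervalIntegral.integral_congr fun x _ => ?_
  have hne : qq (x + r * I) ≠ qq η := by
    intro h
    have h1 := congrArg norm h
    rw [norm_qq, norm_qq, Real.exp_eq_exp] at h1
    simp at h1
    exact hη h1.symm
  have h2 : qq (x + r * I) * dslope Y 0 (qq (x + r * I)) = Y (qq (x + r * I)) := by
    have := sub_smul_dslope Y 0 (qq (x + r * I))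
    rw [sub_zero, hY0, sub_zero, smul_eq_mul] at this
    exact this
  have h3 : Y (qq (x + r * I)) = y (x + r * I) := hYy _ (by simpa using hr)
  rw [pi_cot_eq _ _ hne, smul_eq_mul, ← h3, ← h2]
  have h4 : qq (x + r * I) - qq η ≠ 0 := sub_ne_zero.mpr hne
  field_simp

/-- Periodic Cauchy formula above the segment. -/
lemma TopPer.cot_above {R r : ℝ} {y : ℂ → ℂ} (hy : TopPer R y) (hr : R < r) {η : ℂ}
    (hη : r < η.im) :
    ∫ x in (0:ℝ)..1, y (x + r * I) * (π * cot (π * (x + r * I - η))) = 2 * π * I * y η := by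
  obtain ⟨Y, hY, hY0, hYy⟩ := hy.exists_disc
  have hball : ball (0:ℂ) (Real.exp (-(2 * π * R))) ∈ 𝓝 (0:ℂ) := ball_mem_nhds _ (Real.exp_pos _)
  have hG : DifferentiableOn ℂ (dslope Y 0) (ball 0 (Real.exp (-(2 * π * R)))) :=
    (Complex.differentiableOn_dslope hball).mpr hY
  have hsub : closedBall (0:ℂ) (Real.exp (-(2 * π * r))) ⊆ ball 0 (Real.exp (-(2 * π * R))) :=
    closedBall_subset_ball (exp_lt_of_lt hr)
  rw [hy.cot_integral_eq hr hY0 hYy hη.ne']
  have hmem : qq η ∈ ball (0:ℂ) (Real.exp (-(2 * π * r))) := by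
    rw [mem_ball_zero_iff, norm_qq]
    exact exp_lt_of_lt hη
  have hd : DifferentiableOn ℂ (fun z => dslope Y 0 z * (z + qq η))
      (closedBall (0:ℂ) (Real.exp (-(2 * π * r)))) :=
    (hG.mono hsub).mul (by fun_prop)
  rw [hd.circleIntegral_sub_inv_smul hmem]
  have h2 : qq η * dslope Y 0 (qq η) = Y (qq η) := by
    have := sub_smul_dslope Y 0 (qq η)
    rw [sub_zero, hY0, sub_zero, smul_eq_mul] at this
    exact this
  rw [smul_eq_mul, ← hYy η (hr.trans hη), ← h2]
  ring

/-- Periodic Cauchy formula below the segment. -/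
lemma TopPer.cot_below {R r : ℝ} {y : ℂ → ℂ} (hy : TopPer R y) (hr : R < r) {η : ℂ}
    (hη : η.im < r) :
    ∫ x in (0:ℝ)..1, y (x + r * I) * (π * cot (π * (x + r * I - η))) = 0 := by
  obtain ⟨Y, hY, hY0, hYy⟩ := hy.exists_disc
  have hball : ball (0:ℂ) (Real.exp (-(2 * π * R))) ∈ 𝓝 (0:ℂ) := ball_mem_nhds _ (Real.exp_pos _)
  have hG : DifferentiableOn ℂ (dslope Y 0) (ball 0 (Real.exp (-(2 * π * R)))) :=
    (Complex.differentiableOn_dslope hball).mpr hY
  have hsub : closedBall (0:ℂ) (Real.exp (-(2 * π * r))) ⊆ ball 0 (Real.exp (-(2 * π * R))) :=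
    closedBall_subset_ball (exp_lt_of_lt hr)
  rw [hy.cot_integral_eq hr hY0 hYy hη.ne]
  have hne : ∀ z ∈ closedBall (0:ℂ) (Real.exp (-(2 * π * r))), z - qq η ≠ 0 := by
    intro z hz h
    rw [sub_eq_zero] at h
    rw [mem_closedBall_zero_iff, h, norm_qq] at hz
    exact absurd (exp_lt_of_lt hη) (not_lt.mpr hz)
  have h0 : (∮ z in C(0, Real.exp (-(2 * π * r))), (z - qq η)⁻¹ • (dslope Y 0 z * (z + qq η))) =
      0 := by
    refine Complex.circleIntegral_eq_zero_of_differentiable_on_off_countable (Real.exp_pos _).le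
      countable_empty ?_ ?_
    · refine ContinuousOn.mul ?_ ?_
      · exact ContinuousOn.inv₀ (by fun_prop) hne
      · exact (hG.continuousOn.mono hsub).mul (by fun_prop)
    · intro z hz
      have hz2 := ball_subset_closedBall hz.1
      refine DifferentiableAt.fun_mul ?_ ?_
      · exact DifferentiableAt.fun_inv (by fun_prop) (hne z hz2)
      · exact (hG.differentiableAt (isOpen_ball.mem_nhds (hsub hz2))).fun_mul (by fun_prop)
  rw [h0, mul_zero]

/-- The two-sided sum giving the cotangent. -/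
lemma hasSum_cot_sub {w w' : ℂ} (hw : w ∈ integerComplement) (hw' : w' ∈ integerComplement) :
    HasSum (fun n : ℤ => 1 / (w - n) - 1 / (w' - n))
      ((π : ℂ) * cot (π * w) - π * cot (π * w')) := by
  set f : ℤ → ℂ := fun n => 1 / (w - n) - 1 / (w' - n) with hf
  have hsum : Summable f := by
    obtain ⟨N, hN⟩ := exists_nat_gt (2 * (‖w‖ + ‖w'‖) + 1)
    have hs : Summable fun n : ℤ => (4 * ‖w' - w‖) * (1 / ((n : ℝ)) ^ 2) :=
      (Real.summable_one_div_int_pow.mpr one_lt_two).mul_left _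
    refine Summable.of_norm_bounded_eventually hs ?_
    have hfin : {n : ℤ | ¬ ((N : ℤ) ≤ |n|)}.Finite := by
      refine (Set.finite_Icc (-(N : ℤ)) N).subset ?_
      intro n hn
      simp only [not_le, mem_ofPred_eq] at hn
      exact ⟨(abs_lt.mp hn).1.le, (abs_lt.mp hn).2.le⟩
    filter_upwards [hfin.compl_mem_cofinite] with n hn
    simp only [not_le, mem_compl_iff, mem_ofPred_eq, not_lt] at hn
    have hn1 : (N : ℝ) ≤ |(n : ℝ)| := by exact_mod_cast hn
    have hnpos : 0 < |(n : ℝ)| := by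
      have : 0 ≤ ‖w‖ + ‖w'‖ := by positivity
      linarith
    have hnn : ‖(n : ℂ)‖ = |(n : ℝ)| := by
      rw [Complex.norm_intCast]
    have h1 : |(n : ℝ)| / 2 ≤ ‖w - n‖ := by
      have := norm_sub_norm_le (n : ℂ) w
      rw [norm_sub_rev] at this
      have h3 : 0 ≤ ‖w'‖ := norm_nonneg _
      linarith
    have h2 : |(n : ℝ)| / 2 ≤ ‖w' - n‖ := by
      have := norm_sub_norm_le (n : ℂ) w'
      rw [norm_sub_rev] at this
      have h3 : 0 ≤ ‖w‖ := norm_nonneg _
      linarith
    have h3 : w - n ≠ 0 := by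
      intro h; rw [h, norm_zero] at h1; linarith
    have h4 : w' - n ≠ 0 := by
      intro h; rw [h, norm_zero] at h2; linarith
    have h5 : f n = (w' - w) / ((w - n) * (w' - n)) := by
      simp only [hf]
      field_simp
      ring
    rw [h5, norm_div, norm_mul]
    have h6 : |(n : ℝ)| / 2 * (|(n : ℝ)| / 2) ≤ ‖w - n‖ * ‖w' - n‖ := by gcongr
    have h7 : |(n : ℝ)| / 2 * (|(n : ℝ)| / 2) = (n : ℝ) ^ 2 / 4 := by
      rw [← sq_abs (n : ℝ)]; ring
    have hn2 : 0 < (n : ℝ) ^ 2 := by rw [← sq_abs]; positivity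
    calc ‖w' - w‖ / (‖w - n‖ * ‖w' - n‖) ≤ ‖w' - w‖ / ((n : ℝ) ^ 2 / 4) := by
          gcongr
          rw [← h7]; exact h6
      _ = 4 * ‖w' - w‖ * (1 / (n : ℝ) ^ 2) := by field_simp
  have h1 : Summable fun n : ℕ => f (n + 1) :=
    hsum.comp_injective (i := fun n : ℕ => (n : ℤ) + 1) (fun a b h => by simpa using h)
  have h2 : Summable fun n : ℕ => f (-(n + 1)) :=
    hsum.comp_injective (i := fun n : ℕ => -((n : ℤ) + 1)) (fun a b h => by simpa using h)
  have h3 := HasSum.of_add_one_of_neg_add_one h1.hasSum h2.hasSum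
  have h4 : ∀ x ∈ integerComplement, HasSum (cotTerm x) (π * cot (π * x) - 1 / x) := by
    intro x hx
    rw [cot_series_rep' hx]
    exact (summable_cotTerm hx).hasSum
  have h5 := (h4 w hw).sub (h4 w' hw')
  have h6 := h1.hasSum.add h2.hasSum
  have h7 : (fun n : ℕ => f (n + 1) + f (-(n + 1))) = fun n => cotTerm w n - cotTerm w' n := by
    funext n
    simp only [hf, cotTerm]
    push_cast
    ring
  rw [h7] at h6
  have h8 := h5.unique h6
  have h9 : (π : ℂ) * cot (π * w) - π * cot (π * w') =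
      (∑' n : ℕ, f (n + 1)) + f 0 + ∑' n : ℕ, f (-(n + 1)) := by
    have h10 : f 0 = 1 / w - 1 / w' := by simp [hf]
    rw [h10]
    linear_combination h8
  rw [h9]
  exact h3

end Pool.Agent.Lib.MP_40a019_an
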