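import Mathlib
import Pool.Agent.Lib.MP_40a019_an.Periodic

/-!
Periodic Cauchy formula as a sum over integer translates.
-/

set_option autoImplicit false

namespace Pool.Agent.Lib.MP_40a019_an

open Set Filter Topology Metric Complex MeasureTheory
open scoped Real

/-- lower bound for the distance to the integers. -/
lemma lower_int {d W : ℝ} {w : ℂ} (hd : 0 < d) (hw : d ≤ ‖w‖) (hwd : ∀ n : ℤ, d ≤ ‖w - n‖)
    (hW : ‖w‖ ≤ W) (n : ℤ) : d / (1 + W + d) * (1 + |(n : ℝ)|) ≤ ‖w - n‖ := by
  have hW0 : 0 < 1 + W + d := by linarith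
  have h1 : |(n : ℝ)| - W ≤ ‖w - n‖ := by
    have h2 := norm_sub_norm_le (n : ℂ) w
    rw [norm_sub_rev, Complex.norm_intCast] at h2
    linarith
  rw [div_mul_eq_mul_div, div_le_iff₀ hW0]
  have h3 := hwd n
  have h4 : 0 ≤ 1 + W := by linarith [norm_nonneg w]
  nlinarith [mul_le_mul_of_nonneg_left h3 h4, mul_le_mul_of_nonneg_left h1 hd.le]

lemma lower_int' {d W : ℝ} {w : ℂ} (hd : 0 < d) (hw : d ≤ |w.im|)
    (hW : ‖w‖ ≤ W) (n : ℤ) : d / (1 + W + d) * (1 + |(n : ℝ)|) ≤ ‖w - n‖ := by
  refine lower_int hd (hw.trans (abs_im_le_norm w)) (fun n => ?_) hW n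
  have : (w - n).im = w.im := by simp
  calc d ≤ |(w - n).im| := by rw [this]; exact hw
    _ ≤ ‖w - n‖ := abs_im_le_norm _

lemma summable_nat_sq : Summable fun n : ℕ => 1 / (1 + (n : ℝ)) ^ 2 := by
  have h := (summable_nat_add_iff 1).mpr (Real.summable_one_div_nat_pow.mpr one_lt_two)
  refine h.congr fun n => ?_
  push_cast
  rw [add_comm]

lemma summable_int_sq : Summable fun n : ℤ => 1 / (1 + |(n : ℝ)|) ^ 2 := by
  refine Summable.of_nat_of_neg ?_ ?_
  · refine summable_nat_sq.congr fun n => ?_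
    simp
  · refine summable_nat_sq.congr fun n => ?_
    simp

lemma integerComplement_of_im {w : ℂ} (h : w.im ≠ 0) : w ∈ integerComplement := by
  rw [mem_integerComplement_iff]
  rintro ⟨n, hn⟩
  rw [← hn] at h
  simp at h

/-- The sum over the integers of the Cauchy integrals is the cotangent integral. -/
lemma TopPer.hasSum_cot {R r : ℝ} {y : ℂ → ℂ} (hy : TopPer R y) (hr : R < r) {η : ℂ}
    (hη : η.im ≠ r) :
    HasSum (fun n : ℤ => ∫ x in (0:ℝ)..1, y (x + r * I) / (x + r * I - (η + n)))
      (∫ x in (0:ℝ)..1, y (x + r * I) * (π * cot (π * (x + r * I - η)))) := by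
  have hcont : Continuous fun x : ℝ => y (x + r * I) := by
    rw [continuous_iff_continuousAt]
    intro x
    have h1 : ContinuousAt y (x + r * I) := (hy.diff _ (by simpa using hr)).continuousAt
    exact ContinuousAt.comp (f := fun x : ℝ => (x : ℂ) + r * I) h1 (by fun_prop)
  have him : ∀ x : ℝ, ((x : ℂ) + r * I - η).im = r - η.im := by intro x; simp
  have hne : ∀ x : ℝ, ∀ n : ℤ, (x : ℂ) + r * I - η - n ≠ 0 := by
    intro x n h
    have := congrArg Complex.im h
    rw [sub_im, him] at this
    simp at this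
    exact hη (by linarith)
  have hI : ∀ n : ℤ, I - (n : ℂ) ≠ 0 := by
    intro n h
    have := congrArg Complex.im h
    simp at this
  -- bound of `y` on the segment
  obtain ⟨A, hA⟩ := (isCompact_Icc (a := (0:ℝ)) (b := 1)).exists_bound_of_continuousOn
    hcont.continuousOn
  have hA0 : 0 ≤ A := (norm_nonneg _).trans (hA 0 (by simp))
  set d := |r - η.im| with hd
  have hd0 : 0 < d := abs_pos.mpr (sub_ne_zero.mpr (Ne.symm hη))
  set W := 1 + |r| + ‖η‖ with hW
  have hW0 : 0 < W := by positivity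
  set c := d / (1 + W + d) with hc
  have hc0 : 0 < c := by positivity
  have hw : ∀ x ∈ Icc (0:ℝ) 1, ‖(x : ℂ) + r * I - η‖ ≤ W := by
    intro x hx
    calc ‖(x : ℂ) + r * I - η‖ ≤ ‖(x : ℂ) + r * I‖ + ‖η‖ := norm_sub_le _ _
      _ ≤ ‖(x : ℂ)‖ + ‖(r : ℂ) * I‖ + ‖η‖ := by gcongr; exact norm_add_le _ _
      _ ≤ W := by
        rw [norm_mul, norm_I, mul_one, Complex.norm_real, Complex.norm_real, Real.norm_eq_abs,
          Real.norm_eq_abs, abs_of_nonneg hx.1, hW]
        linarith [hx.2]
  have hlow : ∀ x ∈ Icc (0:ℝ) 1, ∀ n : ℤ, c * (1 + |(n : ℝ)|) ≤ ‖(x : ℂ) + r * I - η - n‖ := by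
    intro x hx n
    exact lower_int' hd0 (by rw [him]) (hw x hx) n
  have hlowI : ∀ n : ℤ, 1 / 3 * (1 + |(n : ℝ)|) ≤ ‖I - (n : ℂ)‖ := by
    intro n
    have := lower_int' (d := 1) (W := 1) (w := I) one_pos (by simp) (by simp) n
    norm_num at this ⊢
    linarith
  set b : ℤ → ℝ := fun n => A * (W + 1) * (3 / c) * (1 / (1 + |(n : ℝ)|) ^ 2) with hb
  have hbs : Summable b := summable_int_sq.mul_left _
  have hsum := intervalIntegral.hasSum_integral_of_dominated_convergence (μ := volume)
    (a := (0:ℝ)) (b := 1)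
    (F := fun (n : ℤ) (x : ℝ) => y (x + r * I) * (1 / ((x : ℂ) + r * I - η - n) - 1 / (I - n)))
    (f := fun x : ℝ => y (x + r * I) * ((π : ℂ) * cot (π * ((x : ℂ) + r * I - η)) -
      π * cot (π * I)))
    (fun n _ => b n) ?_ ?_ ?_ ?_ ?_
  · have hmean := hy.mean_zero hr
    have hint : ∀ n : ℤ, IntervalIntegrable (fun x : ℝ => y (x + r * I) /
        ((x : ℂ) + r * I - (η + n))) volume 0 1 := by
      intro n
      refine Continuous.intervalIntegrable ?_ _ _
      refine hcont.div (by fun_prop) fun x => ?_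
      rw [← sub_sub]
      exact hne x n
    have hcot : IntervalIntegrable (fun x : ℝ => y (x + r * I) *
        (π * cot (π * ((x : ℂ) + r * I - η)))) volume 0 1 := by
      refine Continuous.intervalIntegrable ?_ _ _
      refine hcont.mul (continuous_const.mul ?_)
      have hsin : ∀ x : ℝ, Complex.sin (π * ((x : ℂ) + r * I - η)) ≠ 0 := by
        intro x
        have h1 : ((x : ℂ) + r * I - η) ∈ integerComplement :=
          integerComplement_of_im (by rw [him]; exact sub_ne_zero.mpr (Ne.symm hη))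
        exact sin_pi_mul_ne_zero h1
      have : (fun x : ℝ => cot (π * ((x : ℂ) + r * I - η))) =
          fun x : ℝ => Complex.cos (π * ((x : ℂ) + r * I - η)) /
            Complex.sin (π * ((x : ℂ) + r * I - η)) := by
        funext x
        rw [Complex.cot_eq_cos_div_sin]
      rw [this]
      exact Continuous.div (by fun_prop) (by fun_prop) hsin
    have e1 : ∀ n : ℤ, (∫ x in (0:ℝ)..1, y (x + r * I) *
        (1 / ((x : ℂ) + r * I - η - n) - 1 / (I - n))) =
        ∫ x in (0:ℝ)..1, y (x + r * I) / (x + r * I - (η + n)) := by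
      intro n
      have : (fun x : ℝ => y (x + r * I) * (1 / ((x : ℂ) + r * I - η - n) - 1 / (I - n))) =
          fun x : ℝ => y (x + r * I) / ((x : ℂ) + r * I - (η + n)) -
            (1 / (I - n)) * y (x + r * I) := by
        funext x
        rw [← sub_sub]
        ring
      rw [this, intervalIntegral.integral_sub (hint n)
        ((hcont.const_mul _).intervalIntegrable _ _), intervalIntegral.integral_const_mul,
        hmean, mul_zero, sub_zero]
    have e2 : (∫ x in (0:ℝ)..1, y (x + r * I) * ((π : ℂ) * cot (π * ((x : ℂ) + r * I - η)) -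
      π * cot (π * I))) = ∫ x in (0:ℝ)..1, y (x + r * I) * (π * cot (π * (x + r * I - η))) := by
      have : (fun x : ℝ => y (x + r * I) * ((π : ℂ) * cot (π * ((x : ℂ) + r * I - η)) -
          π * cot (π * I))) = fun x : ℝ => y (x + r * I) *
            (π * cot (π * ((x : ℂ) + r * I - η))) - (π * cot (π * I)) * y (x + r * I) := by
        funext x
        ring
      rw [this, intervalIntegral.integral_sub hcot
        ((hcont.const_mul _).intervalIntegrable _ _), intervalIntegral.integral_const_mul,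
        hmean, mul_zero, sub_zero]
    rw [e2] at hsum
    simpa only [e1] using hsum
  · intro n
    refine Continuous.aestronglyMeasurable ?_
    refine hcont.mul (Continuous.sub (Continuous.div continuous_const (by fun_prop)
      fun x => hne x n) continuous_const)
  · intro n
    refine Eventually.of_forall fun x hx => ?_
    have hx' : x ∈ Icc (0:ℝ) 1 := by
      rw [uIoc_of_le zero_le_one] at hx
      exact ⟨hx.1.le, hx.2⟩
    have h1 := hlow x hx' n
    have h2 := hlowI n
    have h3 := hne x n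
    have h4 := hI n
    have hn0 : 0 < 1 + |(n : ℝ)| := by positivity
    have h5 : 1 / ((x : ℂ) + r * I - η - n) - 1 / (I - n) =
        (I - ((x : ℂ) + r * I - η)) / (((x : ℂ) + r * I - η - n) * (I - n)) := by
      field_simp
      ring
    rw [norm_mul, h5, norm_div, norm_mul]
    have h6 : ‖I - ((x : ℂ) + r * I - η)‖ ≤ W + 1 := by
      calc _ ≤ ‖I‖ + ‖(x : ℂ) + r * I - η‖ := norm_sub_le _ _
        _ ≤ W + 1 := by rw [norm_I]; linarith [hw x hx']
    have h7 : c * (1 + |(n : ℝ)|) * (1 / 3 * (1 + |(n : ℝ)|)) ≤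
        ‖(x : ℂ) + r * I - η - n‖ * ‖I - (n : ℂ)‖ := by gcongr
    have h8 : 0 < c * (1 + |(n : ℝ)|) * (1 / 3 * (1 + |(n : ℝ)|)) := by positivity
    calc ‖y (x + r * I)‖ * (‖I - ((x : ℂ) + r * I - η)‖ /
          (‖(x : ℂ) + r * I - η - n‖ * ‖I - (n : ℂ)‖))
        ≤ A * ((W + 1) / (c * (1 + |(n : ℝ)|) * (1 / 3 * (1 + |(n : ℝ)|)))) := by
          gcongr
          exact hA x hx'
      _ = b n := by
          simp only [hb]
          field_simp
  · exact Eventually.of_forall fun x _ => hbs
  · exact intervalIntegrable_const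
  · refine Eventually.of_forall fun x _ => ?_
    refine HasSum.mul_left _ ?_
    exact hasSum_cot_sub (integerComplement_of_im (by
      rw [him]; exact sub_ne_zero.mpr (Ne.symm hη))) (integerComplement_of_im (by simp))

/-- Periodic Cauchy formula above the segment. -/
lemma TopPer.hasSum_above {R r : ℝ} {y : ℂ → ℂ} (hy : TopPer R y) (hr : R < r) {η : ℂ}
    (hη : r < η.im) :
    HasSum (fun n : ℤ => ∫ x in (0:ℝ)..1, y (x + r * I) / (x + r * I - (η + n)))
      (2 * π * I * y η) := by
  rw [← hy.cot_above hr hη]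
  exact hy.hasSum_cot hr hη.ne'

/-- Periodic Cauchy formula below the segment. -/
lemma TopPer.hasSum_below {R r : ℝ} {y : ℂ → ℂ} (hy : TopPer R y) (hr : R < r) {η : ℂ}
    (hη : η.im < r) :
    HasSum (fun n : ℤ => ∫ x in (0:ℝ)..1, y (x + r * I) / (x + r * I - (η + n))) 0 := by
  rw [← hy.cot_below hr hη]
  exact hy.hasSum_cot hr hη.ne

end Pool.Agent.Lib.MP_40a019_an
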