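import Mathlib
import Pool.Agent.Lib.MP_40a019_an.CauchyPer

/-!
The domain outside a square, sums over translates, and the solution of the difference equation.
-/

set_option autoImplicit false

namespace Pool.Agent.Lib.MP_40a019_an

open Set Filter Topology Metric Complex MeasureTheory
open scoped Real

/-- complement of the closed square of half side `R`. -/
def Dom (R : ℝ) : Set ℂ := {z | R < |z.re| ∨ R < |z.im|}

lemma mem_Dom {R : ℝ} {z : ℂ} : z ∈ Dom R ↔ R < |z.re| ∨ R < |z.im| := Iff.rfl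

lemma isOpen_Dom (R : ℝ) : IsOpen (Dom R) :=
  (isOpen_lt continuous_const (continuous_abs.comp continuous_re)).union
    (isOpen_lt continuous_const (continuous_abs.comp continuous_im))

lemma Dom_anti {R R' : ℝ} (h : R ≤ R') : Dom R' ⊆ Dom R := by
  rintro z (hz | hz)
  · exact Or.inl (h.trans_lt hz)
  · exact Or.inr (h.trans_lt hz)

lemma lt_norm_of_mem_Dom {R : ℝ} {z : ℂ} (hz : z ∈ Dom R) : R < ‖z‖ := by
  rcases hz with hz | hz
  · exact hz.trans_le (abs_re_le_norm z)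
  · exact hz.trans_le (abs_im_le_norm z)

lemma neg_mem_Dom {R : ℝ} {z : ℂ} (hz : z ∈ Dom R) : -z ∈ Dom R := by
  rw [mem_Dom] at *
  simpa using hz

lemma mem_Dom_of_im {R : ℝ} {z : ℂ} (hz : R < z.im) : z ∈ Dom R :=
  Or.inr (hz.trans_le (le_abs_self _))

lemma mem_Dom_of_near {R δ : ℝ} {z w : ℂ} (hz : z ∈ Dom (R + δ)) (h : ‖w - z‖ ≤ δ) :
    w ∈ Dom R := by
  rcases hz with hz | hz
  · left
    have h1 : |(w - z).re| ≤ δ := (abs_re_le_norm _).trans h
    rw [sub_re] at h1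
    have h2 := abs_sub_abs_le_abs_sub z.re w.re
    rw [abs_sub_comm] at h2
    linarith
  · right
    have h1 : |(w - z).im| ≤ δ := (abs_im_le_norm _).trans h
    rw [sub_im] at h1
    have h2 := abs_sub_abs_le_abs_sub z.im w.im
    rw [abs_sub_comm] at h2
    linarith

lemma add_nat_mem_Dom {R : ℝ} (hR : 2 ≤ R) {z : ℂ} (hz : z ∈ Dom R) (hre : -2 < z.re) (n : ℕ) :
    z + n ∈ Dom R := by
  have hn : (0:ℝ) ≤ n := n.cast_nonneg
  rcases hz with hz | hz
  · left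
    have h1 : R < z.re := by
      rcases lt_abs.mp hz with h | h
      · exact h
      · linarith
    simp only [add_re, natCast_re]
    exact lt_abs.mpr (Or.inl (by linarith))
  · right
    simpa using hz

/-- the function `z ↦ h (-z)`. -/
def fneg (h : ℂ → ℂ) : ℂ → ℂ := fun z => h (-z)

/-- `h` is holomorphic on `Dom R` and bounded there by `A / ‖z‖ ^ 2`. -/
structure Dec (R A : ℝ) (h : ℂ → ℂ) : Prop where
  diff : ∀ z ∈ Dom R, DifferentiableAt ℂ h z
  bound : ∀ z ∈ Dom R, ‖h z‖ ≤ A / ‖z‖ ^ 2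

lemma Dec.neg {R A : ℝ} {h : ℂ → ℂ} (hh : Dec R A h) : Dec R A (fneg h) where
  diff := fun z hz => by
    have h1 := hh.diff (-z) (neg_mem_Dom hz)
    exact DifferentiableAt.comp (f := fun z : ℂ => -z) z h1 (by fun_prop)
  bound := fun z hz => by
    have h1 := hh.bound (-z) (neg_mem_Dom hz)
    rwa [norm_neg] at h1

lemma Dec.nonneg {R A : ℝ} {h : ℂ → ℂ} (hh : Dec R A h) : 0 ≤ A := by
  have hz : ((|R| + 1 : ℝ) : ℂ) ∈ Dom R := by
    left
    rw [Complex.ofReal_re]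
    exact lt_abs.mpr (Or.inl (by linarith [le_abs_self R]))
  have h1 := (norm_nonneg _).trans (hh.bound _ hz)
  have h2 : 0 < ‖((|R| + 1 : ℝ) : ℂ)‖ ^ 2 := by
    rw [Complex.norm_real, Real.norm_eq_abs]
    have : 0 < |(|R| + 1)| := abs_pos.mpr (by positivity)
    positivity
  by_contra hA
  push Not at hA
  have := div_neg_of_neg_of_pos hA h2
  linarith

lemma tele {a : ℝ} (ha : 1 < a) :
    Summable (fun n : ℕ => 1 / (a + (n : ℝ)) ^ 2) ∧ ∑' n : ℕ, 1 / (a + (n : ℝ)) ^ 2 ≤ 1 / (a - 1) := by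
  have hpos : ∀ n : ℕ, 0 < a - 1 + n := fun n => by
    have : (0:ℝ) ≤ n := n.cast_nonneg
    linarith
  have h1 : HasSum (fun n : ℕ => 1 / (a - 1 + (n : ℝ)) - 1 / (a - 1 + ((n + 1 : ℕ) : ℝ)))
      (1 / (a - 1)) := by
    rw [hasSum_iff_tendsto_nat_of_nonneg]
    · have h2 : ∀ n : ℕ, ∑ i ∈ Finset.range n, (1 / (a - 1 + (i : ℝ)) -
          1 / (a - 1 + ((i + 1 : ℕ) : ℝ))) = 1 / (a - 1) - 1 / (a - 1 + (n : ℝ)) := by
        intro n
        rw [Finset.sum_range_sub' (fun i : ℕ => 1 / (a - 1 + (i : ℝ)))]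
        simp
      simp_rw [h2]
      have h3 : Tendsto (fun n : ℕ => 1 / (a - 1 + (n : ℝ))) atTop (𝓝 0) := by
        simp_rw [one_div]
        exact (tendsto_atTop_add_const_left _ _ tendsto_natCast_atTop_atTop).inv_tendsto_atTop
      simpa using (tendsto_const_nhds (x := 1 / (a - 1))).sub h3
    · intro i
      have h2 := hpos i
      have h3 := hpos (i + 1)
      rw [sub_nonneg]
      apply one_div_le_one_div_of_le h2
      push_cast
      linarith
  have h2 : ∀ n : ℕ, 1 / (a + (n : ℝ)) ^ 2 ≤ 1 / (a - 1 + (n : ℝ)) - 1 / (a - 1 + ((n + 1 : ℕ) : ℝ)) := by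
    intro n
    have h3 := hpos n
    have h4 := hpos (n + 1)
    push_cast at h4 ⊢
    have h5 : 1 / (a - 1 + (n : ℝ)) - 1 / (a - 1 + ((n : ℝ) + 1)) =
        1 / ((a - 1 + n) * (a + n)) := by
      have h6 : a + (n : ℝ) ≠ 0 := by
        have : (0:ℝ) ≤ n := n.cast_nonneg
        linarith
      have h7 : a - 1 + ((n : ℝ) + 1) = a + n := by ring
      rw [h7]
      field_simp
      ring
    rw [h5]
    have h8 : (0:ℝ) ≤ n := n.cast_nonneg
    apply one_div_le_one_div_of_le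
    · exact mul_pos h3 (by linarith)
    · nlinarith
  have h3 : ∀ n : ℕ, 0 ≤ 1 / (a + (n : ℝ)) ^ 2 := fun n => by positivity
  have h4 : Summable (fun n : ℕ => 1 / (a + (n : ℝ)) ^ 2) := Summable.of_nonneg_of_le h3 h2 h1.summable
  exact ⟨h4, (h4.tsum_le_tsum h2 h1.summable).trans_eq h1.tsum_eq⟩

lemma norm_add_nat_sq {z : ℂ} (hre : -2 < z.re) (hz : 20 ≤ ‖z‖) (n : ℕ) :
    (‖z‖ + n) ^ 2 / 3 ≤ ‖z + n‖ ^ 2 := by
  have hn : (0:ℝ) ≤ n := n.cast_nonneg
  have h1 : ‖z + n‖ ^ 2 = ‖z‖ ^ 2 + 2 * n * z.re + n ^ 2 := by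
    rw [Complex.sq_norm, Complex.sq_norm, normSq_apply, normSq_apply]
    simp
    ring
  rw [h1]
  nlinarith [sq_nonneg (‖z‖ - n), sq_nonneg ((n : ℝ) - 6), mul_nonneg hn (by linarith : 0 ≤ z.re + 2)]

/-- `P h z = ∑ h (z + n)` over the natural numbers. -/
noncomputable def Psum (h : ℂ → ℂ) (z : ℂ) : ℂ := ∑' n : ℕ, h (z + n)

lemma Dec.bound_add {R A : ℝ} (hR : 20 ≤ R) {h : ℂ → ℂ} (hh : Dec R A h) {z : ℂ}
    (hz : z ∈ Dom R) (hre : -2 < z.re) (n : ℕ) :
    ‖h (z + n)‖ ≤ (3 * A) * (1 / (‖z‖ + n) ^ 2) := by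
  have hzn : 20 ≤ ‖z‖ := hR.trans (lt_norm_of_mem_Dom hz).le
  have h1 := hh.bound _ (add_nat_mem_Dom (by linarith) hz hre n)
  have h2 := norm_add_nat_sq hre hzn n
  have hn : (0:ℝ) ≤ n := n.cast_nonneg
  have hA := hh.nonneg
  calc ‖h (z + n)‖ ≤ A / ‖z + n‖ ^ 2 := h1
    _ ≤ A / ((‖z‖ + n) ^ 2 / 3) := by gcongr
    _ = (3 * A) * (1 / (‖z‖ + n) ^ 2) := by field_simp

lemma Dec.summable {R A : ℝ} (hR : 20 ≤ R) {h : ℂ → ℂ} (hh : Dec R A h) {z : ℂ}
    (hz : z ∈ Dom R) (hre : -2 < z.re) : Summable fun n : ℕ => h (z + n) := by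
  have hzn : 20 ≤ ‖z‖ := hR.trans (lt_norm_of_mem_Dom hz).le
  exact Summable.of_norm_bounded ((tele (a := ‖z‖) (by linarith)).1.mul_left _)
    (fun n => hh.bound_add hR hz hre n)

lemma Dec.norm_Psum_le' {R A : ℝ} (hR : 20 ≤ R) {h : ℂ → ℂ} (hh : Dec R A h) {z : ℂ}
    (hz : z ∈ Dom R) (hre : -2 < z.re) : ‖Psum h z‖ ≤ 3 * A / (‖z‖ - 1) := by
  have hzn : 20 ≤ ‖z‖ := hR.trans (lt_norm_of_mem_Dom hz).le
  have ht := tele (a := ‖z‖) (by linarith)
  have hA := hh.nonneg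
  calc ‖Psum h z‖ ≤ ∑' n : ℕ, (3 * A) * (1 / (‖z‖ + n) ^ 2) :=
        tsum_of_norm_bounded (ht.1.mul_left _).hasSum (fun n => hh.bound_add hR hz hre n)
    _ = (3 * A) * ∑' n : ℕ, (1 / (‖z‖ + (n : ℝ)) ^ 2) := tsum_mul_left
    _ ≤ (3 * A) * (1 / (‖z‖ - 1)) := by gcongr; exact ht.2
    _ = _ := by ring

lemma Dec.norm_Psum_le {R A : ℝ} (hR : 20 ≤ R) {h : ℂ → ℂ} (hh : Dec R A h) {z : ℂ}
    (hz : z ∈ Dom R) (hre : -2 < z.re) : ‖Psum h z‖ ≤ 4 * A / ‖z‖ := by
  have hzn : 20 ≤ ‖z‖ := hR.trans (lt_norm_of_mem_Dom hz).le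
  refine (hh.norm_Psum_le' hR hz hre).trans ?_
  have hA := hh.nonneg
  rw [div_le_div_iff₀ (by linarith) (by linarith)]
  nlinarith

lemma isOpen_half (R : ℝ) : IsOpen {z : ℂ | z ∈ Dom R ∧ -2 < z.re} :=
  (isOpen_Dom R).inter (isOpen_lt continuous_const continuous_re)

lemma Dec.diff_Psum {R A : ℝ} (hR : 20 ≤ R) {h : ℂ → ℂ} (hh : Dec R A h) {z : ℂ}
    (hz : z ∈ Dom R) (hre : -2 < z.re) : DifferentiableAt ℂ (Psum h) z := by
  have hA := hh.nonneg
  have h1 : DifferentiableOn ℂ (fun w => ∑' n : ℕ, h (w + n)) {z : ℂ | z ∈ Dom R ∧ -2 < z.re} := by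
    refine differentiableOn_tsum_of_summable_norm (u := fun n : ℕ => 3 * A * (1 / (20 + (n:ℝ)) ^ 2))
      ((tele (a := 20) (by norm_num)).1.mul_left _) ?_ (isOpen_half R) ?_
    · intro n w hw
      have h2 := hh.diff _ (add_nat_mem_Dom (by linarith) hw.1 hw.2 n)
      exact (DifferentiableAt.comp (f := fun w : ℂ => w + n) w h2 (by fun_prop)).differentiableWithinAt
    · intro n w hw
      refine (hh.bound_add hR hw.1 hw.2 n).trans ?_
      have hwn : 20 ≤ ‖w‖ := hR.trans (lt_norm_of_mem_Dom hw.1).le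
      have hn : (0:ℝ) ≤ n := n.cast_nonneg
      gcongr
  exact h1.differentiableAt ((isOpen_half R).mem_nhds ⟨hz, hre⟩)

lemma Dec.Psum_rec {R A : ℝ} (hR : 20 ≤ R) {h : ℂ → ℂ} (hh : Dec R A h) {z : ℂ}
    (hz : z ∈ Dom R) (hre : -2 < z.re) : Psum h z = h z + Psum h (z + 1) := by
  rw [Psum, (hh.summable hR hz hre).tsum_eq_zero_add, Psum]
  simp only [Nat.cast_zero, add_zero, Nat.cast_add, Nat.cast_one]
  congr 1
  refine tsum_congr fun n => ?_
  rw [add_assoc, add_comm (1 : ℂ)]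

/-- The solution of the difference equation. -/
noncomputable def csol (H : ℂ → ℂ) (z : ℂ) : ℂ :=
  if 0 ≤ z.re then -Psum H z else Psum (fneg H) (1 - z)

lemma one_sub_mem_Dom {R : ℝ} (hR : 2 ≤ R) {z : ℂ} (hz : z ∈ Dom R) (hre : z.re < 2) :
    1 - z ∈ Dom R := by
  have h1 : -z ∈ Dom R := neg_mem_Dom hz
  have h2 := add_nat_mem_Dom hR h1 (by simpa using hre) 1
  have h3 : -z + ((1 : ℕ) : ℂ) = 1 - z := by push_cast; ring
  rwa [h3] at h2

/-- sum over the integers in terms of the one sided sums. -/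
lemma Dec.hasSum_int {R A : ℝ} (hR : 20 ≤ R) {h : ℂ → ℂ} (hh : Dec R A h) {z : ℂ}
    (hz : R < |z.im|) (h1 : -2 < z.re) (h2 : z.re < 2) :
    HasSum (fun n : ℤ => h (z + n)) (Psum h z + Psum (fneg h) (1 - z)) := by
  have hzD : z ∈ Dom R := Or.inr hz
  have h3 := (hh.summable hR hzD h1).hasSum
  have hre : -2 < (1 - z).re := by
    rw [sub_re, one_re]
    linarith
  have h4 := (hh.neg.summable hR (one_sub_mem_Dom (by linarith) hzD h2) hre).hasSum
  refine HasSum.of_nat_of_neg_add_one ?_ ?_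
  · simpa [Psum] using h3
  · refine (h4.congr_fun fun n => ?_)
    simp only [fneg]
    congr 1
    push_cast
    ring

/-- Hypotheses for solvability. -/
structure Solv (R A : ℝ) (H : ℂ → ℂ) : Prop extends Dec R A H where
  zero : ∀ z : ℂ, R < |z.im| → HasSum (fun n : ℤ => H (z + n)) 0

lemma Solv.strip {R A : ℝ} (hR : 20 ≤ R) {H : ℂ → ℂ} (hH : Solv R A H) {z : ℂ}
    (hz : R < |z.im|) (h1 : -2 < z.re) (h2 : z.re < 2) :
    Psum (fneg H) (1 - z) = -Psum H z := by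
  have h3 := (hH.toDec.hasSum_int hR hz h1 h2).unique (hH.zero z hz)
  rw [eq_neg_iff_add_eq_zero, add_comm]
  exact h3

lemma Solv.csol_right {R A : ℝ} (hR : 20 ≤ R) {H : ℂ → ℂ} (hH : Solv R A H) {z : ℂ}
    (hz : z ∈ Dom R) (h1 : -2 < z.re) : csol H z = -Psum H z := by
  unfold csol
  split_ifs with h
  · rfl
  · push Not at h
    have him : R < |z.im| := by
      rcases hz with hz | hz
      · rcases lt_abs.mp hz with h' | h' <;> linarith
      · exact hz
    exact hH.strip hR him h1 (by linarith)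

lemma Solv.csol_left {R A : ℝ} (hR : 20 ≤ R) {H : ℂ → ℂ} (hH : Solv R A H) {z : ℂ}
    (hz : 1 - z ∈ Dom R) (h1 : z.re < 2) : csol H z = Psum (fneg H) (1 - z) := by
  unfold csol
  split_ifs with h
  · have him : R < |z.im| := by
      rcases hz with hz | hz
      · rw [sub_re, one_re] at hz
        rcases lt_abs.mp hz with h' | h' <;> linarith
      · simpa using hz
    exact (hH.strip hR him (by linarith) h1).symm
  · rfl

/-- domain of the solution -/
def Cdom (R : ℝ) : Set ℂ := {z | z ∈ Dom R ∨ 1 - z ∈ Dom R}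

lemma mem_Cdom_cases {R : ℝ} (hR : 20 ≤ R) {z : ℂ} (hz : z ∈ Cdom R) :
    (z ∈ Dom R ∧ -1 < z.re) ∨ (1 - z ∈ Dom R ∧ z.re < 1) := by
  rcases hz with hz | hz
  · by_cases h : -1 < z.re
    · exact Or.inl ⟨hz, h⟩
    · push Not at h
      exact Or.inr ⟨one_sub_mem_Dom (by linarith) hz (by linarith), by linarith⟩
  · by_cases h : z.re < 1
    · exact Or.inr ⟨hz, h⟩
    · push Not at h
      have h1 := one_sub_mem_Dom (by linarith) hz (by rw [sub_re, one_re]; linarith)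
      rw [sub_sub_cancel] at h1
      exact Or.inl ⟨h1, by linarith⟩

lemma Solv.csol_diff {R A : ℝ} (hR : 20 ≤ R) {H : ℂ → ℂ} (hH : Solv R A H) {z : ℂ}
    (hz : z ∈ Cdom R) : DifferentiableAt ℂ (csol H) z := by
  rcases mem_Cdom_cases hR hz with ⟨h1, h2⟩ | ⟨h1, h2⟩
  · have h3 := (hH.toDec.diff_Psum hR h1 (by linarith)).neg
    refine h3.congr_of_eventuallyEq ?_
    filter_upwards [(isOpen_half R).mem_nhds ⟨h1, by linarith⟩] with w hw
    exact hH.csol_right hR hw.1 hw.2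
  · have hre : -2 < (1 - z).re := by
      rw [sub_re, one_re]
      linarith
    have h3 := hH.toDec.neg.diff_Psum hR h1 hre
    have h4 : DifferentiableAt ℂ (fun w => Psum (fneg H) (1 - w)) z :=
      DifferentiableAt.comp (f := fun w : ℂ => 1 - w) z h3 (by fun_prop)
    refine h4.congr_of_eventuallyEq ?_
    have h5 : {w : ℂ | 1 - w ∈ Dom R} ∈ 𝓝 z :=
      ((isOpen_Dom R).preimage (by fun_prop : Continuous fun w : ℂ => 1 - w)).mem_nhds h1
    have h6 : {w : ℂ | w.re < 2} ∈ 𝓝 z :=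
      (isOpen_lt continuous_re continuous_const).mem_nhds (by
        show z.re < 2
        linarith)
    filter_upwards [h5, h6] with w hw hw2
    exact hH.csol_left hR hw hw2

lemma Solv.csol_bound {R A : ℝ} (hR : 20 ≤ R) {H : ℂ → ℂ} (hH : Solv R A H) {z : ℂ}
    (hz : z ∈ Dom R) : ‖csol H z‖ ≤ 4 * A / ‖z‖ := by
  have hA := hH.nonneg
  have hzn : 20 ≤ ‖z‖ := hR.trans (lt_norm_of_mem_Dom hz).le
  by_cases h : -2 < z.re
  · rw [hH.csol_right hR hz h, norm_neg]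
    exact hH.toDec.norm_Psum_le hR hz h
  · push Not at h
    have h1 : 1 - z ∈ Dom R := one_sub_mem_Dom (by linarith) hz (by linarith)
    rw [hH.csol_left hR h1 (by linarith)]
    refine (hH.toDec.neg.norm_Psum_le hR h1 (by rw [sub_re, one_re]; linarith)).trans ?_
    have h2 : ‖z‖ ≤ ‖1 - z‖ := by
      rw [← sq_le_sq₀ (norm_nonneg _) (norm_nonneg _), Complex.sq_norm, Complex.sq_norm,
        normSq_apply, normSq_apply]
      simp
      nlinarith
    gcongr

lemma Solv.csol_bound' {R A : ℝ} (hR : 20 ≤ R) {H : ℂ → ℂ} (hH : Solv R A H) {z : ℂ}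
    (hz : z ∈ Dom R) : ‖csol H (z + 1)‖ ≤ 5 * A / ‖z‖ := by
  have hA := hH.nonneg
  have hzn : 20 ≤ ‖z‖ := hR.trans (lt_norm_of_mem_Dom hz).le
  by_cases h : -2 < z.re
  · have h1 : z + 1 ∈ Dom R := by simpa using add_nat_mem_Dom (by linarith) hz h 1
    refine (hH.csol_bound hR h1).trans ?_
    have h2 : ‖z‖ - 1 ≤ ‖z + 1‖ := by
      have := norm_sub_le (z + 1) 1
      rw [add_sub_cancel_right, norm_one] at this
      linarith
    rw [div_le_div_iff₀ (by linarith) (by linarith)]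
    nlinarith
  · push Not at h
    have h1 : 1 - (z + 1) = -z := by ring
    have h3 : 1 - (z + 1) ∈ Dom R := by rw [h1]; exact neg_mem_Dom hz
    rw [hH.csol_left hR h3 (by rw [add_re, one_re]; linarith)]
    refine (hH.toDec.neg.norm_Psum_le hR h3 (by rw [h1, neg_re]; linarith)).trans ?_
    rw [h1, norm_neg]
    gcongr
    linarith

lemma Solv.csol_eq {R A : ℝ} (hR : 20 ≤ R) {H : ℂ → ℂ} (hH : Solv R A H) {z : ℂ}
    (hz : z ∈ Dom R) : csol H (z + 1) - csol H z = H z := by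
  by_cases h : -2 < z.re
  · have h1 : z + 1 ∈ Dom R := by simpa using add_nat_mem_Dom (by linarith) hz h 1
    rw [hH.csol_right hR hz h, hH.csol_right hR h1 (by rw [add_re, one_re]; linarith),
      hH.toDec.Psum_rec hR hz h]
    ring
  · push Not at h
    have h1 : 1 - (z + 1) = -z := by ring
    have h3 : 1 - (z + 1) ∈ Dom R := by rw [h1]; exact neg_mem_Dom hz
    have h4 : 1 - z ∈ Dom R := one_sub_mem_Dom (by linarith) hz (by linarith)
    rw [hH.csol_left hR h3 (by rw [add_re, one_re]; linarith),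
      hH.csol_left hR h4 (by linarith), h1,
      hH.toDec.neg.Psum_rec hR (neg_mem_Dom hz) (by rw [neg_re]; linarith)]
    have h5 : -z + 1 = 1 - z := by ring
    rw [h5]
    simp [fneg]

end Pool.Agent.Lib.MP_40a019_an
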