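import Mathlib
import Pool.Agent.Lib.MP_40a019_an.Dom

/-!
The periodised function, Cauchy integrals over unit segments, and the main part `Mfun`.
-/

set_option autoImplicit false

namespace Pool.Agent.Lib.MP_40a019_an

open Set Filter Topology Metric Complex MeasureTheory
open scoped Real Interval

/-- sum over all integer translates -/
noncomputable def Vsum (h : ℂ → ℂ) (z : ℂ) : ℂ := ∑' n : ℤ, h (z + n)

lemma Dec.int_bound {R A : ℝ} (hR : 20 ≤ R) {h : ℂ → ℂ} (hh : Dec R A h) {z : ℂ}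
    (hz : R < |z.im|) {W : ℝ} (hW : ‖z‖ ≤ W) (n : ℤ) :
    ‖h (z + n)‖ ≤ (A * ((1 + W + 20) / 20) ^ 2) * (1 / (1 + |(n : ℝ)|) ^ 2) := by
  have hA := hh.nonneg
  have h1 := lower_int' (d := 20) (W := W) (w := z) (by norm_num) (by linarith) hW (-n)
  have h2 : z - ((-n : ℤ) : ℂ) = z + n := by push_cast; ring
  have h3 : |(((-n : ℤ)) : ℝ)| = |(n : ℝ)| := by push_cast; rw [abs_neg]
  rw [h2, h3] at h1
  have hW0 : 0 ≤ W := (norm_nonneg _).trans hW
  have hmem : z + n ∈ Dom R := by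
    right
    simpa using hz
  have h4 := hh.bound _ hmem
  have h5 : 0 < 20 / (1 + W + 20) * (1 + |(n : ℝ)|) := by positivity
  calc ‖h (z + n)‖ ≤ A / ‖z + n‖ ^ 2 := h4
    _ ≤ A / (20 / (1 + W + 20) * (1 + |(n : ℝ)|)) ^ 2 := by gcongr
    _ = _ := by field_simp

lemma Dec.summable_int {R A : ℝ} (hR : 20 ≤ R) {h : ℂ → ℂ} (hh : Dec R A h) {z : ℂ}
    (hz : R < |z.im|) : Summable fun n : ℤ => h (z + n) :=
  Summable.of_norm_bounded (summable_int_sq.mul_left _) (fun n => hh.int_bound hR hz le_rfl n)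

lemma Vsum_shift (h : ℂ → ℂ) (z : ℂ) (k : ℤ) : Vsum h (z + k) = Vsum h z := by
  unfold Vsum
  rw [← (Equiv.addRight k).tsum_eq (fun n : ℤ => h (z + n))]
  refine tsum_congr fun n => ?_
  simp only [Equiv.coe_addRight, Int.cast_add]
  congr 1
  ring

lemma Vsum_fneg (h : ℂ → ℂ) (z : ℂ) : Vsum (fneg h) (-z) = Vsum h z := by
  unfold Vsum fneg
  rw [← (Equiv.neg ℤ).tsum_eq (fun n : ℤ => h (z + n))]
  refine tsum_congr fun n => ?_
  simp only [Equiv.neg_apply, Int.cast_neg]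
  congr 1
  ring

lemma Dec.diff_Vsum {R A : ℝ} (hR : 20 ≤ R) {h : ℂ → ℂ} (hh : Dec R A h) {z : ℂ}
    (hz : R < |z.im|) : DifferentiableAt ℂ (Vsum h) z := by
  have hopen : IsOpen ({w : ℂ | R < |w.im|} ∩ ball z 1) :=
    (isOpen_lt continuous_const (continuous_abs.comp continuous_im)).inter isOpen_ball
  have h1 : DifferentiableOn ℂ (fun w => ∑' n : ℤ, h (w + n)) ({w : ℂ | R < |w.im|} ∩ ball z 1) := by
    refine differentiableOn_tsum_of_summable_norm
      (u := fun n : ℤ => (A * ((1 + (‖z‖ + 1) + 20) / 20) ^ 2) * (1 / (1 + |(n : ℝ)|) ^ 2))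
      (summable_int_sq.mul_left _) ?_ hopen ?_
    · intro n w hw
      have hmem : w + n ∈ Dom R := by
        right
        simpa using hw.1
      have h2 := hh.diff _ hmem
      exact (DifferentiableAt.comp (f := fun w : ℂ => w + n) w h2 (by fun_prop)).differentiableWithinAt
    · intro n w hw
      refine hh.int_bound hR hw.1 ?_ n
      have h3 : ‖w - z‖ < 1 := by simpa [dist_eq_norm] using hw.2
      have h4 : ‖w‖ ≤ ‖z‖ + ‖w - z‖ := by
        calc ‖w‖ = ‖z + (w - z)‖ := by rw [add_sub_cancel]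
          _ ≤ _ := norm_add_le _ _
      linarith
  exact h1.differentiableAt (hopen.mem_nhds ⟨hz, mem_ball_self one_pos⟩)

lemma Dec.norm_Vsum_le {R A : ℝ} (hR : 20 ≤ R) {h : ℂ → ℂ} (hh : Dec R A h) {z : ℂ}
    (hz : R < z.im) : ‖Vsum h z‖ ≤ 6 * A / (z.im - 1) := by
  have hA := hh.nonneg
  set k : ℤ := ⌊z.re⌋ with hk
  set z' : ℂ := z + ((-k : ℤ) : ℂ) with hz'
  have h1 : Vsum h z = Vsum h z' := (Vsum_shift h z (-k)).symm
  have him : z'.im = z.im := by simp [hz']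
  have hre : z'.re = z.re - k := by simp [hz', sub_eq_add_neg]
  have hre0 : 0 ≤ z'.re := by rw [hre]; linarith [Int.floor_le z.re]
  have hre1 : z'.re < 1 := by rw [hre]; linarith [Int.lt_floor_add_one z.re]
  have hzi : R < |z'.im| := by rw [him]; exact hz.trans_le (le_abs_self _)
  have h2 := (hh.hasSum_int hR hzi (by linarith) (by linarith)).tsum_eq
  have h3 : Vsum h z' = Psum h z' + Psum (fneg h) (1 - z') := h2
  have hz1 : z' ∈ Dom R := Or.inr hzi
  have hz2 : 1 - z' ∈ Dom R := one_sub_mem_Dom (by linarith) hz1 (by linarith)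
  have h4 := hh.norm_Psum_le' hR hz1 (by linarith)
  have h5 := hh.neg.norm_Psum_le' hR hz2 (by rw [sub_re, one_re]; linarith)
  have hi1 : z.im ≤ ‖z'‖ := by
    rw [← him]
    exact (le_abs_self _).trans (abs_im_le_norm _)
  have hi2 : z.im ≤ ‖1 - z'‖ := by
    have : (1 - z').im = -z.im := by rw [sub_im, one_im, him, zero_sub]
    calc z.im ≤ |(1 - z').im| := by rw [this, abs_neg]; exact le_abs_self _
      _ ≤ _ := abs_im_le_norm _
  have h6 : 3 * A / (‖z'‖ - 1) ≤ 3 * A / (z.im - 1) := by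
    gcongr
    linarith
  have h7 : 3 * A / (‖1 - z'‖ - 1) ≤ 3 * A / (z.im - 1) := by
    gcongr
    linarith
  rw [h1, h3]
  calc _ ≤ ‖Psum h z'‖ + ‖Psum (fneg h) (1 - z')‖ := norm_add_le _ _
    _ ≤ 3 * A / (z.im - 1) + 3 * A / (z.im - 1) := by linarith
    _ = _ := by ring

lemma Dec.topPer {R A : ℝ} (hR : 20 ≤ R) {h : ℂ → ℂ} (hh : Dec R A h) : TopPer R (Vsum h) where
  diff := fun z hz => hh.diff_Vsum hR (hz.trans_le (le_abs_self _))
  per := fun z _ => by
    have := Vsum_shift h z 1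
    simpa using this
  lim := by
    have h1 : Tendsto (fun z : ℂ => 6 * A / (z.im - 1)) (comap im atTop) (𝓝 0) := by
      have h2 : Tendsto (fun t : ℝ => 6 * A / (t - 1)) atTop (𝓝 0) :=
        Tendsto.const_div_atTop (tendsto_atTop_add_const_right _ _ tendsto_id) _
      exact h2.comp tendsto_comap
    refine squeeze_zero_norm' ?_ h1
    filter_upwards [tendsto_comap.eventually (eventually_gt_atTop R)] with z hz
    exact hh.norm_Vsum_le hR hz

lemma Dec.norm_Vsum_seg {R A r : ℝ} (hR : 20 ≤ R) {h : ℂ → ℂ} (hh : Dec R A h) (hr : R < r) (x : ℝ) :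
    ‖Vsum h (x + r * I)‖ ≤ A / 3 := by
  have hA := hh.nonneg
  have him : ((x : ℂ) + r * I).im = r := by simp
  have h1 := hh.norm_Vsum_le hR (z := x + r * I) (by rw [him]; exact hr)
  rw [him] at h1
  refine h1.trans ?_
  rw [div_le_div_iff₀ (by linarith) (by norm_num)]
  nlinarith

/-! ### Cauchy type integrals -/

lemma CT_diff {a b : ℝ → ℂ} (ha : ContinuousOn a (Icc 0 1)) (hb : ContinuousOn b (Icc 0 1))
    {w₀ : ℂ} (h : ∀ x ∈ Icc (0:ℝ) 1, b x ≠ w₀) :
    DifferentiableAt ℂ (fun w => ∫ x in (0:ℝ)..1, a x / (b x - w)) w₀ := by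
  obtain ⟨A, hA⟩ := (isCompact_Icc (a := (0:ℝ)) (b := 1)).exists_bound_of_continuousOn ha
  have hA0 : 0 ≤ A := (norm_nonneg _).trans (hA 0 (by simp))
  have hcont : ContinuousOn (fun x => ‖b x - w₀‖) (Icc (0:ℝ) 1) := (hb.sub continuousOn_const).norm
  obtain ⟨x₀, hx₀, hmin⟩ := (isCompact_Icc (a := (0:ℝ)) (b := 1)).exists_isMinOn
    (nonempty_Icc.mpr zero_le_one) hcont
  set d := ‖b x₀ - w₀‖ with hd
  have hd0 : 0 < d := norm_pos_iff.mpr (sub_ne_zero.mpr (h x₀ hx₀))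
  have hdx : ∀ x ∈ Icc (0:ℝ) 1, d ≤ ‖b x - w₀‖ := fun x hx => hmin hx
  have hdw : ∀ x ∈ Icc (0:ℝ) 1, ∀ w ∈ ball w₀ (d / 2), d / 2 ≤ ‖b x - w‖ := by
    intro x hx w hw
    have h1 : ‖w - w₀‖ < d / 2 := by simpa [dist_eq_norm] using hw
    have h2 : ‖b x - w₀‖ ≤ ‖b x - w‖ + ‖w - w₀‖ := by
      calc ‖b x - w₀‖ = ‖(b x - w) + (w - w₀)‖ := by rw [sub_add_sub_cancel]
        _ ≤ _ := norm_add_le _ _
    have h3 := hdx x hx
    linarith
  have hsub : ∀ x ∈ Ι (0:ℝ) 1, x ∈ Icc (0:ℝ) 1 := by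
    intro x hx
    rw [uIoc_of_le zero_le_one] at hx
    exact ⟨hx.1.le, hx.2⟩
  have hmeas : ∀ w ∈ ball w₀ (d / 2), ContinuousOn (fun x => a x / (b x - w)) (Icc (0:ℝ) 1) := by
    intro w hw
    refine ha.div (hb.sub continuousOn_const) fun x hx => ?_
    have := hdw x hx w hw
    exact norm_pos_iff.mp (by linarith)
  have hmeas' : ContinuousOn (fun x => a x / (b x - w₀) ^ 2) (Icc (0:ℝ) 1) := by
    refine ha.div ((hb.sub continuousOn_const).pow 2) fun x hx => ?_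
    exact pow_ne_zero 2 (sub_ne_zero.mpr (h x hx))
  have hsets : Ι (0:ℝ) 1 ⊆ Icc 0 1 := fun x hx => hsub x hx
  have := intervalIntegral.hasDerivAt_integral_of_dominated_loc_of_deriv_le (μ := volume)
    (a := (0:ℝ)) (b := 1)
    (F := fun (w : ℂ) (x : ℝ) => a x / (b x - w)) (F' := fun (w : ℂ) (x : ℝ) => a x / (b x - w) ^ 2)
    (x₀ := w₀) (s := ball w₀ (d / 2)) (bound := fun _ => A / (d / 2) ^ 2)
    (ball_mem_nhds _ (by positivity)) ?_ ?_ ?_ ?_ intervalIntegrable_const ?_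
  · exact this.2.differentiableAt
  · filter_upwards [ball_mem_nhds w₀ (by positivity : 0 < d / 2)] with w hw
    exact ((hmeas w hw).mono hsets).aestronglyMeasurable measurableSet_uIoc
  · have h1 := hmeas w₀ (mem_ball_self (by positivity))
    rw [← uIcc_of_le (zero_le_one (α := ℝ))] at h1
    exact h1.intervalIntegrable
  · exact (hmeas'.mono hsets).aestronglyMeasurable measurableSet_uIoc
  · refine Eventually.of_forall fun x hx w hw => ?_
    have h1 := hdw x (hsub x hx) w hw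
    have h2 := hA x (hsub x hx)
    rw [norm_div, norm_pow]
    gcongr
  · refine Eventually.of_forall fun x hx w hw => ?_
    have h1 := hdw x (hsub x hx) w hw
    have hne : b x - w ≠ 0 := norm_pos_iff.mp (by linarith)
    have h2 : HasDerivAt (fun w => b x - w) (-1) w := by
      simpa using (hasDerivAt_id w).const_sub (b x)
    have h3 := (h2.inv hne).const_mul (a x)
    refine (h3.congr_deriv ?_).congr_of_eventuallyEq ?_
    · simp [div_eq_mul_inv]
    · exact Eventually.of_forall fun w => by simp [div_eq_mul_inv]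

/-- The Cauchy integral over the segment `[i r, 1 + i r]`. -/
noncomputable def mC (r : ℝ) (v : ℂ → ℂ) (η : ℂ) : ℂ :=
  (1 / (2 * π * I)) * ∫ x in (0:ℝ)..1, v (x + r * I) / (x + r * I - η)

lemma norm_two_pi_I_inv : ‖(1 / (2 * π * I) : ℂ)‖ = 1 / (2 * π) := by
  rw [norm_div, norm_one, norm_mul, norm_mul, norm_I, Complex.norm_ofNat, Complex.norm_real,
    Real.norm_eq_abs, abs_of_pos Real.pi_pos, mul_one]

lemma TopPer.hasSum_mC_above {R r : ℝ} {y : ℂ → ℂ} (hy : TopPer R y) (hr : R < r) {η : ℂ}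
    (hη : r < η.im) : HasSum (fun n : ℤ => mC r y (η + n)) (y η) := by
  have h1 := (hy.hasSum_above hr hη).mul_left (1 / (2 * π * I))
  have h2 : (1 / (2 * π * I)) * (2 * π * I * y η) = y η := by
    have := two_pi_I_ne_zero
    field_simp
  rw [h2] at h1
  exact h1

lemma TopPer.hasSum_mC_below {R r : ℝ} {y : ℂ → ℂ} (hy : TopPer R y) (hr : R < r) {η : ℂ}
    (hη : η.im < r) : HasSum (fun n : ℤ => mC r y (η + n)) 0 := by
  have h1 := (hy.hasSum_below hr hη).mul_left (1 / (2 * π * I))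
  rw [mul_zero] at h1
  exact h1

/-- the main part -/
noncomputable def Mfun (r : ℝ) (h : ℂ → ℂ) (η : ℂ) : ℂ :=
  mC r (Vsum h) η + mC r (Vsum (fneg h)) (-η)

lemma Dec.hasSum_Mfun {R A r : ℝ} (hR : 20 ≤ R) {h : ℂ → ℂ} (hh : Dec R A h) (hr : R < r) {η : ℂ}
    (hη : r < |η.im|) : HasSum (fun n : ℤ => Mfun r h (η + n)) (Vsum h η) := by
  rcases lt_abs.mp hη with h1 | h1
  · have h2 := (hh.topPer hR).hasSum_mC_above hr h1
    have h3 := (hh.neg.topPer hR).hasSum_mC_below hr (η := -η) (by rw [neg_im]; linarith)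
    have h4 : HasSum (fun n : ℤ => mC r (Vsum (fneg h)) (-(η + n))) 0 := by
      rw [← (Equiv.neg ℤ).hasSum_iff] at h3
      refine h3.congr_fun fun n => ?_
      simp only [Function.comp_apply, Equiv.neg_apply, Int.cast_neg]
      congr 1
      ring
    have h5 := h2.add h4
    rw [add_zero] at h5
    exact h5
  · have h2 := (hh.topPer hR).hasSum_mC_below hr (η := η) (by linarith)
    have h3 := (hh.neg.topPer hR).hasSum_mC_above hr (η := -η) (by rw [neg_im]; linarith)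
    have h4 : HasSum (fun n : ℤ => mC r (Vsum (fneg h)) (-(η + n))) (Vsum (fneg h) (-η)) := by
      rw [← (Equiv.neg ℤ).hasSum_iff] at h3
      refine h3.congr_fun fun n => ?_
      simp only [Function.comp_apply, Equiv.neg_apply, Int.cast_neg]
      congr 1
      ring
    rw [Vsum_fneg] at h4
    have h5 := h2.add h4
    rw [zero_add] at h5
    exact h5

lemma seg_dist {R δ : ℝ} (hR : 20 ≤ R) (hδ : 0 < δ) {η : ℂ} (hη : η ∈ Dom (R + δ))
    {x : ℝ} (hx : x ∈ Icc (0:ℝ) 1) : δ / 2 ≤ ‖(x : ℂ) + (R + δ / 2 : ℝ) * I - η‖ ∨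
      19 ≤ ‖(x : ℂ) + (R + δ / 2 : ℝ) * I - η‖ := by
  have hre : ((x : ℂ) + (R + δ / 2 : ℝ) * I - η).re = x - η.re := by simp
  have him : ((x : ℂ) + (R + δ / 2 : ℝ) * I - η).im = (R + δ / 2) - η.im := by
    simp [-ofReal_add, -ofReal_div]
  have h1 := abs_re_le_norm ((x : ℂ) + (R + δ / 2 : ℝ) * I - η)
  have h2 := abs_im_le_norm ((x : ℂ) + (R + δ / 2 : ℝ) * I - η)
  rw [hre] at h1
  rw [him] at h2
  rcases hη with h | h
  · right
    rcases lt_abs.mp h with h' | h'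
    · have h3 : η.re - x ≤ |x - η.re| := by rw [abs_sub_comm]; exact le_abs_self _
      linarith [hx.1, hx.2]
    · have h3 : x - η.re ≤ |x - η.re| := le_abs_self _
      linarith [hx.1, hx.2]
  · rcases lt_abs.mp h with h' | h'
    · left
      have h3 : η.im - (R + δ / 2) ≤ |(R + δ / 2) - η.im| := by
        rw [abs_sub_comm]; exact le_abs_self _
      linarith
    · right
      have h3 : (R + δ / 2) - η.im ≤ |(R + δ / 2) - η.im| := le_abs_self _
      linarith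

lemma norm_seg_le {r x : ℝ} (hr0 : 0 ≤ r) (hx : x ∈ Icc (0:ℝ) 1) : ‖(x : ℂ) + r * I‖ ≤ 1 + r := by
  calc ‖(x : ℂ) + r * I‖ ≤ ‖(x : ℂ)‖ + ‖(r : ℂ) * I‖ := norm_add_le _ _
    _ ≤ 1 + r := by
      rw [norm_mul, norm_I, mul_one, Complex.norm_real, Complex.norm_real, Real.norm_eq_abs,
        Real.norm_eq_abs, abs_of_nonneg hx.1, abs_of_nonneg hr0]
      linarith [hx.2]

lemma seg_dist' {R δ : ℝ} (hR : 20 ≤ R) (hR' : R ≤ 22) (hδ : 0 < δ) (hδ1 : δ ≤ 1) {η : ℂ}
    (hη : η ∈ Dom (R + δ)) {x : ℝ} (hx : x ∈ Icc (0:ℝ) 1) :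
    δ / 100 * ‖η‖ ≤ ‖(x : ℂ) + (R + δ / 2 : ℝ) * I - η‖ := by
  have h1 := norm_seg_le (r := R + δ / 2) (by linarith) hx
  have h2 : ‖η‖ - ‖(x : ℂ) + (R + δ / 2 : ℝ) * I‖ ≤ ‖(x : ℂ) + (R + δ / 2 : ℝ) * I - η‖ := by
    rw [norm_sub_rev]
    exact norm_sub_norm_le _ _
  have h3 := norm_nonneg η
  by_cases h : 48 ≤ ‖η‖
  · nlinarith
  · push Not at h
    rcases seg_dist hR hδ hη hx with h4 | h4
    · nlinarith
    · nlinarith

lemma Dec.norm_mC_le {R A δ : ℝ} (hR : 20 ≤ R) (hR' : R ≤ 22) (hδ : 0 < δ) (hδ1 : δ ≤ 1)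
    {h : ℂ → ℂ} (hh : Dec R A h) {η : ℂ} (hη : η ∈ Dom (R + δ)) :
    ‖mC (R + δ / 2) (Vsum h) η‖ ≤ 700 * A / δ ^ 2 / ‖η‖ ^ 2 := by
  have hA := hh.nonneg
  set r := R + δ / 2 with hr
  have hRr : R < r := by linarith
  have hη0 : 0 < ‖η‖ := by linarith [lt_norm_of_mem_Dom hη]
  have hy := hh.topPer hR
  have hmean := hy.mean_zero hRr
  have hcont : Continuous fun x : ℝ => Vsum h (x + r * I) := by
    rw [continuous_iff_continuousAt]
    intro x
    have h1 : ContinuousAt (Vsum h) (x + r * I) := (hy.diff _ (by simpa using hRr)).continuousAt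
    exact ContinuousAt.comp (f := fun x : ℝ => (x : ℂ) + r * I) h1 (by fun_prop)
  have hne : ∀ x ∈ Icc (0:ℝ) 1, (x : ℂ) + r * I - η ≠ 0 := by
    intro x hx
    have h1 := seg_dist' hR hR' hδ hδ1 hη hx
    have h2 : 0 < δ / 100 * ‖η‖ := by positivity
    exact norm_pos_iff.mp (h2.trans_le h1)
  have hint : IntervalIntegrable (fun x : ℝ => Vsum h (x + r * I) / (x + r * I - η)) volume 0 1 := by
    refine ContinuousOn.intervalIntegrable ?_
    rw [uIcc_of_le zero_le_one]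
    exact hcont.continuousOn.div (by fun_prop) hne
  have h0 : (0:ℂ) + r * I - η ≠ 0 := by simpa using hne 0 (by simp)
  have e1 : (∫ x in (0:ℝ)..1, Vsum h (x + r * I) / (x + r * I - η)) =
      ∫ x in (0:ℝ)..1, Vsum h (x + r * I) * (1 / (x + r * I - η) - 1 / (0 + r * I - η)) := by
    have : (fun x : ℝ => Vsum h (x + r * I) * (1 / (x + r * I - η) - 1 / (0 + r * I - η))) =
        fun x : ℝ => Vsum h (x + r * I) / (x + r * I - η) -
          (1 / (0 + r * I - η)) * Vsum h (x + r * I) := by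
      funext x
      ring
    rw [this, intervalIntegral.integral_sub hint ((hcont.const_mul _).intervalIntegrable _ _),
      intervalIntegral.integral_const_mul, hmean, mul_zero, sub_zero]
  have hb : ‖∫ x in (0:ℝ)..1, Vsum h (x + r * I) * (1 / (x + r * I - η) - 1 / (0 + r * I - η))‖ ≤
      (A / 3 * (1 / (δ / 100 * ‖η‖) ^ 2)) * |(1:ℝ) - 0| := by
    refine intervalIntegral.norm_integral_le_of_norm_le_const fun x hx => ?_
    have hx' : x ∈ Icc (0:ℝ) 1 := by
      rw [uIoc_of_le zero_le_one] at hx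
      exact ⟨hx.1.le, hx.2⟩
    have h1 := seg_dist' hR hR' hδ hδ1 hη hx'
    have h2 := seg_dist' hR hR' hδ hδ1 hη (x := 0) (by simp)
    have h3 := hne x hx'
    rw [← hr] at h1 h2
    have h5 : 1 / ((x : ℂ) + r * I - η) - 1 / (0 + r * I - η) =
        (-x) / (((x : ℂ) + r * I - η) * (0 + r * I - η)) := by
      field_simp
      ring
    rw [norm_mul, h5, norm_div, norm_mul]
    have h6 : ‖-(x : ℂ)‖ ≤ 1 := by
      rw [norm_neg, Complex.norm_real, Real.norm_eq_abs, abs_of_nonneg hx'.1]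
      exact hx'.2
    have h7 := hh.norm_Vsum_seg hR hRr x
    have h8 : 0 < δ / 100 * ‖η‖ := by positivity
    have h9 : (δ / 100 * ‖η‖) ^ 2 ≤ ‖(x : ℂ) + r * I - η‖ * ‖(0 : ℂ) + r * I - η‖ := by
      rw [sq]
      simp only [ofReal_zero] at h2
      gcongr
    gcongr
  rw [sub_zero, abs_one, mul_one] at hb
  unfold mC
  rw [norm_mul, norm_two_pi_I_inv, e1]
  have hpi : (3:ℝ) < π := Real.pi_gt_three
  calc 1 / (2 * π) * _ ≤ 1 / (2 * 3) * (A / 3 * (1 / (δ / 100 * ‖η‖) ^ 2)) := by gcongr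
    _ = 10000 / 18 * (A / δ ^ 2 / ‖η‖ ^ 2) := by
      field_simp
      ring
    _ ≤ 700 * (A / δ ^ 2 / ‖η‖ ^ 2) := by
      gcongr
      norm_num
    _ = _ := by ring

lemma TopPer.mC_diff {R r : ℝ} {y : ℂ → ℂ} (hy : TopPer R y) (hRr : R < r) {η : ℂ}
    (hne : ∀ x ∈ Icc (0:ℝ) 1, (x : ℂ) + r * I ≠ η) : DifferentiableAt ℂ (mC r y) η := by
  have hcont : Continuous fun x : ℝ => y (x + r * I) := by
    rw [continuous_iff_continuousAt]
    intro x
    have h1 : ContinuousAt y (x + r * I) := (hy.diff _ (by simpa using hRr)).continuousAt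
    exact ContinuousAt.comp (f := fun x : ℝ => (x : ℂ) + r * I) h1 (by fun_prop)
  exact (CT_diff hcont.continuousOn (by fun_prop) hne).const_mul _

lemma seg_ne {R δ : ℝ} (hR : 20 ≤ R) (hδ : 0 < δ) {η : ℂ} (hη : η ∈ Dom (R + δ))
    {x : ℝ} (hx : x ∈ Icc (0:ℝ) 1) : (x : ℂ) + (R + δ / 2 : ℝ) * I ≠ η := by
  intro h
  have := seg_dist hR hδ hη hx
  rw [h, sub_self, norm_zero] at this
  rcases this with h | h <;> linarith

lemma Dec.Mfun {R A δ : ℝ} (hR : 20 ≤ R) (hR' : R ≤ 22) (hδ : 0 < δ) (hδ1 : δ ≤ 1)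
    {h : ℂ → ℂ} (hh : Dec R A h) :
    Dec (R + δ) (1400 * A / δ ^ 2) (Mfun (R + δ / 2) h) where
  diff := fun η hη => by
    have hRr : R < R + δ / 2 := by linarith
    have h1 := (hh.topPer hR).mC_diff hRr (fun x hx => seg_ne hR hδ hη hx)
    have h2 := (hh.neg.topPer hR).mC_diff hRr (fun x hx => seg_ne hR hδ (neg_mem_Dom hη) hx)
    have h3 : DifferentiableAt ℂ (fun w => mC (R + δ / 2) (Vsum (fneg h)) (-w)) η :=
      DifferentiableAt.comp (f := fun w : ℂ => -w) η h2 (by fun_prop)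
    exact h1.add h3
  bound := fun η hη => by
    have h1 := hh.norm_mC_le hR hR' hδ hδ1 hη
    have h2 := hh.neg.norm_mC_le hR hR' hδ hδ1 (neg_mem_Dom hη)
    rw [norm_neg] at h2
    calc ‖Pool.Agent.Lib.MP_40a019_an.Mfun (R + δ / 2) h η‖ ≤ _ := norm_add_le _ _
      _ ≤ 700 * A / δ ^ 2 / ‖η‖ ^ 2 + 700 * A / δ ^ 2 / ‖η‖ ^ 2 := add_le_add h1 h2
      _ = _ := by ring

/-- the right-hand side of the difference equation is solvable -/
lemma Dec.solv {R A δ : ℝ} (hR : 20 ≤ R) (hR' : R ≤ 22) (hδ : 0 < δ) (hδ1 : δ ≤ 1)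
    {h : ℂ → ℂ} (hh : Dec R A h) :
    Solv (R + δ) (1401 * A / δ ^ 2) (fun z => Pool.Agent.Lib.MP_40a019_an.Mfun (R + δ / 2) h z - h z) where
  diff := fun η hη => ((hh.Mfun hR hR' hδ hδ1).diff η hη).sub
    (hh.diff η (Dom_anti (by linarith) hη))
  bound := fun η hη => by
    have hA := hh.nonneg
    have h1 := (hh.Mfun hR hR' hδ hδ1).bound η hη
    have h2 := hh.bound η (Dom_anti (by linarith) hη)
    have hη0 : 0 < ‖η‖ := by linarith [lt_norm_of_mem_Dom hη]
    refine (norm_sub_le _ _).trans ((add_le_add h1 h2).trans ?_)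
    rw [← add_div]
    gcongr
    have h3 : A ≤ A / δ ^ 2 := by
      rw [le_div_iff₀ (by positivity)]
      have : δ ^ 2 ≤ 1 := pow_le_one₀ hδ.le hδ1
      nlinarith
    have h4 : 1401 * A / δ ^ 2 = 1400 * A / δ ^ 2 + A / δ ^ 2 := by ring
    rw [h4]
    linarith
  zero := fun z hz => by
    have hRr : R < R + δ / 2 := by linarith
    have h1 := hh.hasSum_Mfun hR hRr (η := z) (by linarith)
    have h2 := (hh.summable_int hR (z := z) (by linarith)).hasSum
    have h3 := h1.sub h2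
    have h4 : Vsum h z - ∑' n : ℤ, h (z + n) = 0 := sub_self _
    rw [h4] at h3
    exact h3

end Pool.Agent.Lib.MP_40a019_an
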