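import Mathlib
import Pool.Agent.Lib.MP_40a019_an.Mfun

/-!
Maps close to the identity on `Dom R`.
-/

set_option autoImplicit false

namespace Pool.Agent.Lib.MP_40a019_an

open Set Filter Topology Metric Complex MeasureTheory
open scoped Real Interval

lemma deriv_sub_lin {Θ : ℂ → ℂ} {z : ℂ} (h : DifferentiableAt ℂ Θ z) (a : ℂ) :
    deriv (fun z => Θ z - a * z) z = deriv Θ z - a := by
  have h1 := h.hasDerivAt.sub ((hasDerivAt_id z).const_mul a)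
  rw [mul_one] at h1
  exact h1.deriv

lemma deriv_sub_self {Θ : ℂ → ℂ} {z : ℂ} (h : DifferentiableAt ℂ Θ z) :
    deriv (fun z => Θ z - z) z = deriv Θ z - 1 :=
  (h.hasDerivAt.sub (hasDerivAt_id z)).deriv

/-- `Θ` is `C²`-close to the identity on `Dom R`. -/
structure Near (R κ : ℝ) (Θ : ℂ → ℂ) : Prop where
  diff : ∀ z ∈ Dom R, DifferentiableAt ℂ Θ z
  b0 : ∀ z ∈ Dom R, ‖Θ z - z‖ ≤ κ
  b1 : ∀ z ∈ Dom R, ‖deriv Θ z - 1‖ ≤ κ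
  b2 : ∀ z ∈ Dom R, ‖deriv (deriv Θ) z‖ ≤ κ

/-- conjugation by `z ↦ -z`. -/
def oneg (Θ : ℂ → ℂ) : ℂ → ℂ := fun z => -Θ (-z)

lemma deriv_oneg (Θ : ℂ → ℂ) : deriv (oneg Θ) = fun z => deriv Θ (-z) := by
  funext z
  unfold oneg
  rw [deriv.fun_neg, deriv_comp_neg, neg_neg]

lemma deriv_deriv_oneg (Θ : ℂ → ℂ) (z : ℂ) : deriv (deriv (oneg Θ)) z = -deriv (deriv Θ) (-z) := by
  rw [deriv_oneg, deriv_comp_neg]

lemma Near.neg {R κ : ℝ} {Θ : ℂ → ℂ} (hΘ : Near R κ Θ) : Near R κ (oneg Θ) where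
  diff := fun z hz => by
    have h1 := hΘ.diff (-z) (neg_mem_Dom hz)
    exact (DifferentiableAt.comp (f := fun z : ℂ => -z) z h1 (by fun_prop)).neg
  b0 := fun z hz => by
    have h1 := hΘ.b0 (-z) (neg_mem_Dom hz)
    have h2 : oneg Θ z - z = -(Θ (-z) - -z) := by unfold oneg; ring
    rwa [h2, norm_neg]
  b1 := fun z hz => by
    have h1 := hΘ.b1 (-z) (neg_mem_Dom hz)
    rw [deriv_oneg]
    exact h1
  b2 := fun z hz => by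
    have h1 := hΘ.b2 (-z) (neg_mem_Dom hz)
    rw [deriv_deriv_oneg, norm_neg]
    exact h1

lemma Near.diff_deriv {R κ : ℝ} {Θ : ℂ → ℂ} (hΘ : Near R κ Θ) {z : ℂ} (hz : z ∈ Dom R) :
    DifferentiableAt ℂ (deriv Θ) z := by
  have h1 : DifferentiableOn ℂ Θ (Dom R) := fun w hw => (hΘ.diff w hw).differentiableWithinAt
  exact (h1.deriv (isOpen_Dom R)).differentiableAt ((isOpen_Dom R).mem_nhds hz)

lemma convex_top (R : ℝ) : Convex ℝ {z : ℂ | R < z.im} := convex_halfSpace_im_gt R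

lemma mem_Dom_top {R : ℝ} {z : ℂ} (hz : z ∈ {z : ℂ | R < z.im}) : z ∈ Dom R := mem_Dom_of_im hz

lemma Near.lip_top {R κ : ℝ} {Θ : ℂ → ℂ} (hΘ : Near R κ Θ) {a b : ℂ} (ha : R < a.im)
    (hb : R < b.im) : ‖(Θ b - Θ a) - (b - a)‖ ≤ κ * ‖b - a‖ := by
  have h1 : ∀ z ∈ {z : ℂ | R < z.im}, DifferentiableAt ℂ (fun z => Θ z - z) z := fun z hz =>
    (hΘ.diff z (mem_Dom_top hz)).sub differentiableAt_id
  have h2 : ∀ z ∈ {z : ℂ | R < z.im}, ‖deriv (fun z => Θ z - z) z‖ ≤ κ := fun z hz => by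
    rw [deriv_sub_self (hΘ.diff z (mem_Dom_top hz))]
    exact hΘ.b1 z (mem_Dom_top hz)
  have h3 := (convex_top R).norm_image_sub_le_of_norm_deriv_le h1 h2 ha hb
  have h4 : (Θ b - Θ a) - (b - a) = (Θ b - b) - (Θ a - a) := by ring
  rw [h4]
  exact h3

lemma Near.lip_deriv_top {R κ : ℝ} {Θ : ℂ → ℂ} (hΘ : Near R κ Θ) {a b : ℂ} (ha : R < a.im)
    (hb : R < b.im) : ‖deriv Θ b - deriv Θ a‖ ≤ κ * ‖b - a‖ :=
  (convex_top R).norm_image_sub_le_of_norm_deriv_le (fun _ hz => hΘ.diff_deriv (mem_Dom_top hz))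
    (fun z hz => hΘ.b2 z (mem_Dom_top hz)) ha hb

lemma Near.taylor_top {R κ : ℝ} (hκ : 0 ≤ κ) {Θ : ℂ → ℂ} (hΘ : Near R κ Θ) {a b : ℂ} (ha : R < a.im)
    (hb : R < b.im) : ‖(Θ b - Θ a) - deriv Θ a * (b - a)‖ ≤ κ * ‖b - a‖ ^ 2 := by
  set s : Set ℂ := {z : ℂ | R < z.im} ∩ closedBall a ‖b - a‖ with hs
  have hconv : Convex ℝ s := (convex_top R).inter (convex_closedBall _ _)
  have h1 : ∀ z ∈ s, DifferentiableAt ℂ (fun z => Θ z - deriv Θ a * z) z := fun z hz =>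
    (hΘ.diff z (mem_Dom_top hz.1)).sub (by fun_prop)
  have h2 : ∀ z ∈ s, ‖deriv (fun z => Θ z - deriv Θ a * z) z‖ ≤ κ * ‖b - a‖ := fun z hz => by
    rw [deriv_sub_lin (hΘ.diff z (mem_Dom_top hz.1))]
    refine (hΘ.lip_deriv_top ha hz.1).trans ?_
    have : ‖z - a‖ ≤ ‖b - a‖ := by simpa [dist_eq_norm] using hz.2
    gcongr
  have hsa : a ∈ s := ⟨ha, mem_closedBall_self (norm_nonneg _)⟩
  have hsb : b ∈ s := ⟨hb, by simp [dist_eq_norm]⟩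
  have h3 := hconv.norm_image_sub_le_of_norm_deriv_le h1 h2 hsa hsb
  have h4 : (Θ b - Θ a) - deriv Θ a * (b - a) = (Θ b - deriv Θ a * b) - (Θ a - deriv Θ a * a) := by
    ring
  rw [h4, sq, ← mul_assoc]
  exact h3

/-- MVT on a ball -/
lemma Near.lip_ball {R κ ρ : ℝ} {Θ : ℂ → ℂ} (hΘ : Near R κ Θ) {z₀ a b : ℂ}
    (hρ : z₀ ∈ Dom (R + ρ)) (ha : ‖a - z₀‖ ≤ ρ) (hb : ‖b - z₀‖ ≤ ρ) :
    ‖(Θ b - Θ a) - (b - a)‖ ≤ κ * ‖b - a‖ := by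
  have hD : ∀ z ∈ closedBall z₀ ρ, z ∈ Dom R := fun z hz =>
    mem_Dom_of_near hρ (by simpa [dist_eq_norm] using hz)
  have h1 : ∀ z ∈ closedBall z₀ ρ, DifferentiableAt ℂ (fun z => Θ z - z) z := fun z hz =>
    (hΘ.diff z (hD z hz)).sub differentiableAt_id
  have h2 : ∀ z ∈ closedBall z₀ ρ, ‖deriv (fun z => Θ z - z) z‖ ≤ κ := fun z hz => by
    rw [deriv_sub_self (hΘ.diff z (hD z hz))]
    exact hΘ.b1 z (hD z hz)
  have h3 := (convex_closedBall z₀ ρ).norm_image_sub_le_of_norm_deriv_le h1 h2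
    (by simpa [dist_eq_norm] using ha) (by simpa [dist_eq_norm] using hb)
  have h4 : (Θ b - Θ a) - (b - a) = (Θ b - b) - (Θ a - a) := by ring
  rw [h4]
  exact h3

lemma Near.taylor_ball {R κ ρ : ℝ} (hκ : 0 ≤ κ) {Θ : ℂ → ℂ} (hΘ : Near R κ Θ) {z₀ a b : ℂ}
    (hρ0 : 0 ≤ ρ) (hρ : z₀ ∈ Dom (R + ρ)) (ha : ‖a - z₀‖ ≤ ρ) (hb : ‖b - z₀‖ ≤ ρ) :
    ‖(Θ b - Θ a) - deriv Θ z₀ * (b - a)‖ ≤ κ * ρ * ‖b - a‖ := by
  have hD : ∀ z ∈ closedBall z₀ ρ, z ∈ Dom R := fun z hz =>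
    mem_Dom_of_near hρ (by simpa [dist_eq_norm] using hz)
  have h0 : ∀ z ∈ closedBall z₀ ρ, ‖deriv Θ z - deriv Θ z₀‖ ≤ κ * ‖z - z₀‖ := fun z hz =>
    (convex_closedBall z₀ ρ).norm_image_sub_le_of_norm_deriv_le
      (fun w hw => hΘ.diff_deriv (hD w hw)) (fun w hw => hΘ.b2 w (hD w hw))
      (mem_closedBall_self hρ0) hz
  have h1 : ∀ z ∈ closedBall z₀ ρ, DifferentiableAt ℂ (fun z => Θ z - deriv Θ z₀ * z) z :=
    fun z hz => (hΘ.diff z (hD z hz)).sub (by fun_prop)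
  have h2 : ∀ z ∈ closedBall z₀ ρ, ‖deriv (fun z => Θ z - deriv Θ z₀ * z) z‖ ≤ κ * ρ :=
    fun z hz => by
      rw [deriv_sub_lin (hΘ.diff z (hD z hz))]
      refine (h0 z hz).trans ?_
      have : ‖z - z₀‖ ≤ ρ := by simpa [dist_eq_norm] using hz
      gcongr
  have h3 := (convex_closedBall z₀ ρ).norm_image_sub_le_of_norm_deriv_le h1 h2
    (by simpa [dist_eq_norm] using ha) (by simpa [dist_eq_norm] using hb)
  have h4 : (Θ b - Θ a) - deriv Θ z₀ * (b - a) =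
      (Θ b - deriv Θ z₀ * b) - (Θ a - deriv Θ z₀ * a) := by
    ring
  rw [h4]
  exact h3

end Pool.Agent.Lib.MP_40a019_an
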