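import Mathlib
import Pool.Agent.Lib.MP_40a019_an.Near
import Pool.Agent.Lib.MP_40a019_an.Kernel

/-!
The function `s` and the estimate without loss.
-/

set_option autoImplicit false

namespace Pool.Agent.Lib.MP_40a019_an

open Set Filter Topology Metric Complex MeasureTheory
open scoped Real Interval

/-- one half of the vector field `s` -/
noncomputable def splus (r : ℝ) (Θ v : ℂ → ℂ) (x : ℂ) : ℂ :=
  (1 / (2 * π * I)) * ∫ t in (0:ℝ)..1,
    (v (t + r * I) * (deriv Θ (t + r * I)) ^ 2) / (Θ (t + r * I) - x)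

lemma geo1 {R δ : ℝ} (hR : 20 ≤ R) (hδ : 0 < δ) {η : ℂ} (hη : η ∈ Dom (R + δ))
    {x : ℝ} (hx : x ∈ Icc (0:ℝ) 1) : R + δ < η.im ∨
      19 ≤ ‖(x : ℂ) + (R + δ / 2 : ℝ) * I - η‖ := by
  have hre : ((x : ℂ) + (R + δ / 2 : ℝ) * I - η).re = x - η.re := by simp
  have him : ((x : ℂ) + (R + δ / 2 : ℝ) * I - η).im = (R + δ / 2) - η.im := by
    simp [-ofReal_add, -ofReal_div]
  have h1 := abs_re_le_norm ((x : ℂ) + (R + δ / 2 : ℝ) * I - η)
  have h2 := abs_im_le_norm ((x : ℂ) + (R + δ / 2 : ℝ) * I - η)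
  rw [hre] at h1
  rw [him] at h2
  rcases hη with h | h
  · right
    rcases lt_abs.mp h with h' | h'
    · have h3 : η.re - x ≤ |x - η.re| := by rw [abs_sub_comm]; exact le_abs_self _
      linarith [hx.1, hx.2]
    · have h3 : x - η.re ≤ |x - η.re| := le_abs_self _
      linarith [hx.1, hx.2]
  · rcases lt_abs.mp h with h' | h'
    · left
      exact h'
    · right
      have h3 : (R + δ / 2) - η.im ≤ |(R + δ / 2) - η.im| := le_abs_self _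
      linarith

lemma geo2 {R δ : ℝ} (hR : 20 ≤ R) (hδ : 0 < δ) {η : ℂ} (hη : η ∈ Dom (R + δ))
    {x : ℝ} (hx : x ∈ Icc (0:ℝ) 1) : 19 ≤ ‖(x : ℂ) + (R + δ / 2 : ℝ) * I - η - 20 * I‖ := by
  have hre : ((x : ℂ) + (R + δ / 2 : ℝ) * I - η - 20 * I).re = x - η.re := by simp
  have him : ((x : ℂ) + (R + δ / 2 : ℝ) * I - η - 20 * I).im = (R + δ / 2) - η.im - 20 := by
    simp [-ofReal_add, -ofReal_div]
  have h1 := abs_re_le_norm ((x : ℂ) + (R + δ / 2 : ℝ) * I - η - 20 * I)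
  have h2 := abs_im_le_norm ((x : ℂ) + (R + δ / 2 : ℝ) * I - η - 20 * I)
  rw [hre] at h1
  rw [him] at h2
  rcases hη with h | h
  · rcases lt_abs.mp h with h' | h'
    · have h3 : η.re - x ≤ |x - η.re| := by rw [abs_sub_comm]; exact le_abs_self _
      linarith [hx.1, hx.2]
    · have h3 : x - η.re ≤ |x - η.re| := le_abs_self _
      linarith [hx.1, hx.2]
  · rcases lt_abs.mp h with h' | h'
    · have h3 := neg_le_abs ((R + δ / 2) - η.im - 20)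
      linarith
    · have h3 := le_abs_self ((R + δ / 2) - η.im - 20)
      linarith

lemma geo3 {R δ : ℝ} (hR : 20 ≤ R) (hR' : R ≤ 21) (hδ : 0 < δ) (hδ1 : δ ≤ 1) {η : ℂ}
    {x : ℝ} (hx : x ∈ Icc (0:ℝ) 1) :
    ‖η‖ ≤ ‖(x : ℂ) + (R + δ / 2 : ℝ) * I - η - 20 * I‖ + 2 := by
  have h1 : ‖(x : ℂ) + (R + δ / 2 : ℝ) * I - 20 * I‖ ≤ 2 := by
    rw [← sq_le_sq₀ (norm_nonneg _) (by norm_num), Complex.sq_norm, normSq_apply]
    have hre : ((x : ℂ) + (R + δ / 2 : ℝ) * I - 20 * I).re = x := by simp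
    have him : ((x : ℂ) + (R + δ / 2 : ℝ) * I - 20 * I).im = (R + δ / 2) - 20 := by
      simp [-ofReal_add, -ofReal_div]
    rw [hre, him]
    have h2 : x * x ≤ 1 := by nlinarith [hx.1, hx.2]
    have h3 : ((R + δ / 2) - 20) * ((R + δ / 2) - 20) ≤ 3 / 2 * (3 / 2) := by
      apply mul_self_le_mul_self <;> linarith
    linarith
  have h2 : η = ((x : ℂ) + (R + δ / 2 : ℝ) * I - 20 * I) -
      ((x : ℂ) + (R + δ / 2 : ℝ) * I - η - 20 * I) := by ring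
  calc ‖η‖ = ‖((x : ℂ) + (R + δ / 2 : ℝ) * I - 20 * I) -
      ((x : ℂ) + (R + δ / 2 : ℝ) * I - η - 20 * I)‖ := by rw [← h2]
    _ ≤ ‖(x : ℂ) + (R + δ / 2 : ℝ) * I - 20 * I‖ + ‖(x : ℂ) + (R + δ / 2 : ℝ) * I - η - 20 * I‖ :=
      norm_sub_le _ _
    _ ≤ _ := by linarith

lemma geo4 {R δ : ℝ} (hR : 20 ≤ R) (hR' : R ≤ 21) (hδ : 0 < δ) (hδ1 : δ ≤ 1) {η : ℂ}
    {x : ℝ} (hx : x ∈ Icc (0:ℝ) 1) :
    ‖η‖ ≤ ‖(x : ℂ) + (R + δ / 2 : ℝ) * I - η‖ + 23 := by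
  have h1 := norm_seg_le (r := R + δ / 2) (by linarith) hx
  have h2 : ‖η‖ - ‖(x : ℂ) + (R + δ / 2 : ℝ) * I‖ ≤ ‖(x : ℂ) + (R + δ / 2 : ℝ) * I - η‖ := by
    rw [norm_sub_rev]
    exact norm_sub_norm_le _ _
  linarith

lemma seg_im {R δ : ℝ} (hδ : 0 < δ) (x : ℝ) : R < ((x : ℂ) + (R + δ / 2 : ℝ) * I).im := by
  have him : ((x : ℂ) + (R + δ / 2 : ℝ) * I).im = (R + δ / 2) := by
    simp [-ofReal_add, -ofReal_div]
  rw [him]
  linarith

lemma Near.u_est {R κ δ : ℝ} (hR : 20 ≤ R) (hκ : 0 ≤ κ) (hδ : 0 < δ) {Θ : ℂ → ℂ}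
    (hΘ : Near R κ Θ) {η : ℂ} (hη : η ∈ Dom (R + δ)) {x : ℝ} (hx : x ∈ Icc (0:ℝ) 1) :
    ‖(Θ (x + (R + δ / 2 : ℝ) * I) - Θ η) - (x + (R + δ / 2 : ℝ) * I - η)‖ ≤
      κ * ‖(x : ℂ) + (R + δ / 2 : ℝ) * I - η‖ ∧
    ‖(Θ (x + (R + δ / 2 : ℝ) * I) - Θ η) - (x + (R + δ / 2 : ℝ) * I - η)‖ ≤ 2 * κ := by
  have hseg : R < ((x : ℂ) + (R + δ / 2 : ℝ) * I).im := seg_im hδ x
  have h2 : ‖(Θ (x + (R + δ / 2 : ℝ) * I) - Θ η) - (x + (R + δ / 2 : ℝ) * I - η)‖ ≤ 2 * κ := by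
    have h3 := hΘ.b0 _ (mem_Dom_of_im hseg)
    have h4 := hΘ.b0 η (Dom_anti (by linarith) hη)
    have h5 : (Θ (x + (R + δ / 2 : ℝ) * I) - Θ η) - (x + (R + δ / 2 : ℝ) * I - η) =
      (Θ (x + (R + δ / 2 : ℝ) * I) - (x + (R + δ / 2 : ℝ) * I)) - (Θ η - η) := by ring
    rw [h5]
    refine (norm_sub_le _ _).trans ?_
    linarith
  refine ⟨?_, h2⟩
  rcases geo1 hR hδ hη hx with h | h
  · exact hΘ.lip_top (by linarith) hseg
  · refine h2.trans ?_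
    nlinarith

lemma Near.lower {R κ δ : ℝ} (hR : 20 ≤ R) (hκ : 0 ≤ κ) (hκ1 : κ ≤ 1 / 100000) (hδ : 0 < δ)
    {Θ : ℂ → ℂ}
    (hΘ : Near R κ Θ) {η : ℂ} (hη : η ∈ Dom (R + δ)) {x : ℝ} (hx : x ∈ Icc (0:ℝ) 1) :
    9 / 10 * ‖(x : ℂ) + (R + δ / 2 : ℝ) * I - η‖ ≤ ‖Θ (x + (R + δ / 2 : ℝ) * I) - Θ η‖ ∧
    9 / 10 * ‖(x : ℂ) + (R + δ / 2 : ℝ) * I - η - 20 * I‖ ≤
      ‖Θ (x + (R + δ / 2 : ℝ) * I) - Θ η - 20 * I‖ := by
  obtain ⟨h1, h2⟩ := hΘ.u_est hR hκ hδ hη hx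
  have h3 := geo2 hR hδ hη hx
  set u : ℂ := (x : ℂ) + (R + δ / 2 : ℝ) * I - η with hu
  set u' : ℂ := Θ (x + (R + δ / 2 : ℝ) * I) - Θ η with hu'
  constructor
  · have : ‖u‖ ≤ ‖u'‖ + ‖u' - u‖ := by
      calc ‖u‖ = ‖u' - (u' - u)‖ := by rw [sub_sub_cancel]
        _ ≤ _ := norm_sub_le _ _
    nlinarith [norm_nonneg u]
  · have h6 : ‖u - 20 * I‖ ≤ ‖u' - 20 * I‖ + ‖u' - u‖ := by
      calc ‖u - 20 * I‖ = ‖(u' - 20 * I) - (u' - u)‖ := by congr 1; ring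
        _ ≤ _ := norm_sub_le _ _
    nlinarith

lemma continuousOn_seg {R δ : ℝ} (hδ : 0 < δ) {g : ℂ → ℂ}
    (hg : ∀ z : ℂ, R < z.im → ContinuousAt g z) :
    ContinuousOn (fun x : ℝ => g (x + (R + δ / 2 : ℝ) * I)) (Icc 0 1) := by
  intro x _
  have h1 : ContinuousAt g (x + (R + δ / 2 : ℝ) * I) := hg _ (seg_im hδ x)
  exact (ContinuousAt.comp (f := fun x : ℝ => (x : ℂ) + (R + δ / 2 : ℝ) * I) h1
    (by fun_prop)).continuousWithinAt

/-- The linear estimate without loss. -/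
lemma Near.Z_bound {R κ δ A : ℝ} (hR : 20 ≤ R) (hR' : R ≤ 21) (hκ : 0 ≤ κ) (hκ1 : κ ≤ 1 / 100000)
    (hδ : 0 < δ) (hδ1 : δ ≤ 1) {Θ h : ℂ → ℂ} (hΘ : Near R κ Θ) (hh : Dec R A h) {η : ℂ}
    (hη : η ∈ Dom (R + δ)) :
    ‖(splus (R + δ / 2) Θ (Vsum h) (Θ η) - splus (R + δ / 2) Θ (Vsum h) (Θ η + 20 * I)) /
      deriv Θ η - mC (R + δ / 2) (Vsum h) η‖ ≤ 5 / 72 * A / ‖η‖ ^ 2 := by
  have hA := hh.nonneg
  have hRr : R < R + δ / 2 := by linarith
  have hy := hh.topPer hR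
  have hmean := hy.mean_zero hRr
  have hηD : η ∈ Dom R := Dom_anti (by linarith) hη
  have hηn : 20 ≤ ‖η‖ := by linarith [lt_norm_of_mem_Dom hη]
  have hb1 := hΘ.b1 η hηD
  obtain ⟨hb0, _, _⟩ := near_one hκ1 hb1
  -- continuity facts
  have cv : ContinuousOn (fun x : ℝ => Vsum h (x + (R + δ / 2 : ℝ) * I)) (Icc 0 1) :=
    continuousOn_seg hδ fun z hz => (hy.diff z hz).continuousAt
  have cΘ : ContinuousOn (fun x : ℝ => Θ (x + (R + δ / 2 : ℝ) * I)) (Icc 0 1) :=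
    continuousOn_seg hδ fun z hz => (hΘ.diff z (mem_Dom_of_im hz)).continuousAt
  have cΘ' : ContinuousOn (fun x : ℝ => deriv Θ (x + (R + δ / 2 : ℝ) * I)) (Icc 0 1) :=
    continuousOn_seg hδ fun z hz => (hΘ.diff_deriv (mem_Dom_of_im hz)).continuousAt
  have cξ : ContinuousOn (fun x : ℝ => (x : ℂ) + (R + δ / 2 : ℝ) * I) (Icc 0 1) := by fun_prop
  set r : ℝ := R + δ / 2 with hr
  have hne0 : ∀ x ∈ Icc (0:ℝ) 1, (x : ℂ) + r * I - η ≠ 0 := fun x hx =>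
    sub_ne_zero.mpr (seg_ne hR hδ hη hx)
  have hne1 : ∀ x ∈ Icc (0:ℝ) 1, Θ (x + r * I) - Θ η ≠ 0 := fun x hx => by
    have h1 := (hΘ.lower hR hκ hκ1 hδ hη hx).1
    have h2 : 0 < ‖(x : ℂ) + r * I - η‖ := norm_pos_iff.mpr (hne0 x hx)
    exact norm_pos_iff.mp (by linarith)
  have hne2 : ∀ x ∈ Icc (0:ℝ) 1, Θ (x + r * I) - Θ η - 20 * I ≠ 0 := fun x hx => by
    have h1 := (hΘ.lower hR hκ hκ1 hδ hη hx).2
    have h2 := geo2 hR hδ hη hx
    exact norm_pos_iff.mp (by linarith)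
  have hne3 : (0:ℂ) + r * I - η - 20 * I ≠ 0 := by
    have h2 := geo2 hR hδ hη (x := 0) (by simp)
    rw [ofReal_zero] at h2
    exact norm_pos_iff.mp (by linarith)
  -- integrability
  have I1 : IntervalIntegrable (fun x : ℝ => (Vsum h (x + r * I) * (deriv Θ (x + r * I)) ^ 2) /
      (Θ (x + r * I) - Θ η)) volume 0 1 := by
    refine ContinuousOn.intervalIntegrable ?_
    rw [uIcc_of_le zero_le_one]
    exact (cv.mul (cΘ'.pow 2)).div (cΘ.sub continuousOn_const) hne1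
  have I2 : IntervalIntegrable (fun x : ℝ => (Vsum h (x + r * I) * (deriv Θ (x + r * I)) ^ 2) /
      (Θ (x + r * I) - (Θ η + 20 * I))) volume 0 1 := by
    refine ContinuousOn.intervalIntegrable ?_
    rw [uIcc_of_le zero_le_one]
    refine (cv.mul (cΘ'.pow 2)).div (cΘ.sub continuousOn_const) fun x hx => ?_
    rw [← sub_sub]
    exact hne2 x hx
  have I3 : IntervalIntegrable (fun x : ℝ => Vsum h (x + r * I) / (x + r * I - η)) volume 0 1 := by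
    refine ContinuousOn.intervalIntegrable ?_
    rw [uIcc_of_le zero_le_one]
    exact cv.div (cξ.sub continuousOn_const) hne0
  have I4 : IntervalIntegrable (fun x : ℝ => (1 / (0 + r * I - η - 20 * I)) * Vsum h (x + r * I))
      volume 0 1 := by
    refine ContinuousOn.intervalIntegrable ?_
    rw [uIcc_of_le zero_le_one]
    exact continuousOn_const.mul cv
  have e0 : (∫ x in (0:ℝ)..1, (1 / (0 + r * I - η - 20 * I)) * Vsum h (x + r * I)) = 0 := by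
    rw [intervalIntegral.integral_const_mul, hmean, mul_zero]
  have e1 : (splus r Θ (Vsum h) (Θ η) - splus r Θ (Vsum h) (Θ η + 20 * I)) /
      deriv Θ η - mC r (Vsum h) η = (1 / (2 * π * I)) * ∫ x in (0:ℝ)..1, Vsum h (x + r * I) *
        ((deriv Θ (x + r * I)) ^ 2 / deriv Θ η * (1 / (Θ (x + r * I) - Θ η) -
          1 / (Θ (x + r * I) - Θ η - 20 * I)) -
          (1 / (x + r * I - η) - 1 / (0 + r * I - η - 20 * I))) := by
    have e2 : (fun x : ℝ => Vsum h (x + r * I) *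
        ((deriv Θ (x + r * I)) ^ 2 / deriv Θ η * (1 / (Θ (x + r * I) - Θ η) -
          1 / (Θ (x + r * I) - Θ η - 20 * I)) -
          (1 / (x + r * I - η) - 1 / (0 + r * I - η - 20 * I)))) = fun x : ℝ =>
        (deriv Θ η)⁻¹ * ((Vsum h (x + r * I) * (deriv Θ (x + r * I)) ^ 2) /
          (Θ (x + r * I) - Θ η) - (Vsum h (x + r * I) * (deriv Θ (x + r * I)) ^ 2) /
          (Θ (x + r * I) - (Θ η + 20 * I))) - (Vsum h (x + r * I) / (x + r * I - η) -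
          (1 / (0 + r * I - η - 20 * I)) * Vsum h (x + r * I)) := by
      funext x
      rw [← sub_sub]
      ring
    rw [e2, intervalIntegral.integral_sub ((I1.sub I2).const_mul _) (I3.sub I4),
      intervalIntegral.integral_const_mul, intervalIntegral.integral_sub I1 I2,
      intervalIntegral.integral_sub I3 I4, e0, sub_zero]
    unfold splus mC
    ring
  rw [e1, norm_mul, norm_two_pi_I_inv]
  have hb : ‖∫ x in (0:ℝ)..1, Vsum h (x + r * I) *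
        ((deriv Θ (x + r * I)) ^ 2 / deriv Θ η * (1 / (Θ (x + r * I) - Θ η) -
          1 / (Θ (x + r * I) - Θ η - 20 * I)) -
          (1 / (x + r * I - η) - 1 / (0 + r * I - η - 20 * I)))‖ ≤
      (A / 3 * (5 / 4 / ‖η‖ ^ 2)) * |(1:ℝ) - 0| := by
    refine intervalIntegral.norm_integral_le_of_norm_le_const fun x hx => ?_
    have hx' : x ∈ Icc (0:ℝ) 1 := by
      rw [uIoc_of_le zero_le_one] at hx
      exact ⟨hx.1.le, hx.2⟩
    rw [norm_mul]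
    have h7 := hh.norm_Vsum_seg hR hRr x
    obtain ⟨u1, u2⟩ := hΘ.u_est hR hκ hδ hη hx'
    have hseg : R < ((x : ℂ) + r * I).im := seg_im hδ x
    have hN2 := geo3 hR hR' hδ hδ1 (η := η) (x := 0) (by simp)
    rw [ofReal_zero] at hN2
    have h42 := geo2 hR hδ hη (x := 0) (by simp)
    rw [ofReal_zero] at h42
    have hK := K_bound (κ := κ) (N := ‖η‖) (a := deriv Θ (x + r * I)) (b := deriv Θ η)
      (u := x + r * I - η) (u' := Θ (x + r * I) - Θ η) (u₀ := 0 + r * I - η) (T := 20 * I)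
      hκ hκ1 (hΘ.b1 _ (mem_Dom_of_im hseg)) hb1 (hne0 x hx') u1 u2 (by simp)
      (geo2 hR hδ hη hx') h42
      (by
        have : (x : ℂ) + r * I - η - (0 + r * I - η) = x := by ring
        rw [this, Complex.norm_real, Real.norm_eq_abs, abs_of_nonneg hx'.1]
        exact hx'.2)
      hηn (geo3 hR hR' hδ hδ1 hx') hN2 (geo4 hR hR' hδ hδ1 hx')
      (by
        intro hu2
        have htop : R < η.im := by
          rcases geo1 hR hδ hη hx' with h | h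
          · linarith
          · exfalso
            linarith
        constructor
        · exact hΘ.lip_deriv_top htop hseg
        · have h1 := hΘ.taylor_top hκ hseg htop
          have h2 : (Θ (x + r * I) - Θ η) - deriv Θ (x + r * I) * (x + r * I - η) =
            -((Θ η - Θ (x + r * I)) - deriv Θ (x + r * I) * (η - (x + r * I))) := by ring
          rw [h2, norm_neg]
          have h3 : ‖η - (x + r * I)‖ = ‖(x : ℂ) + r * I - η‖ := norm_sub_rev _ _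
          rw [← h3]
          exact h1)
    gcongr
  rw [sub_zero, abs_one, mul_one] at hb
  have hpi : (3:ℝ) < π := Real.pi_gt_three
  calc 1 / (2 * π) * _ ≤ 1 / (2 * 3) * (A / 3 * (5 / 4 / ‖η‖ ^ 2)) := by gcongr
    _ = _ := by ring

end Pool.Agent.Lib.MP_40a019_an
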