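import Mathlib
import Pool.Agent.Lib.MP_40a019_an.Sfun

/-!
Bounds with loss for the function `s`.
-/

set_option autoImplicit false

namespace Pool.Agent.Lib.MP_40a019_an

open Set Filter Topology Metric Complex MeasureTheory
open scoped Real Interval

/-- the vector field `s` -/
noncomputable def sfun (r : ℝ) (Θ h : ℂ → ℂ) (x : ℂ) : ℂ :=
  splus r Θ (Vsum h) x - splus r (oneg Θ) (Vsum (fneg h)) (20 * I - x)

lemma Near.cont_num {R κ δ A : ℝ} (hR : 20 ≤ R) (hδ : 0 < δ) {Θ h : ℂ → ℂ} (hΘ : Near R κ Θ)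
    (hh : Dec R A h) :
    ContinuousOn (fun x : ℝ => Vsum h (x + (R + δ / 2 : ℝ) * I) *
      (deriv Θ (x + (R + δ / 2 : ℝ) * I)) ^ 2) (Icc 0 1) ∧
    ContinuousOn (fun x : ℝ => Θ (x + (R + δ / 2 : ℝ) * I)) (Icc 0 1) := by
  have hy := hh.topPer hR
  have cv : ContinuousOn (fun x : ℝ => Vsum h (x + (R + δ / 2 : ℝ) * I)) (Icc 0 1) :=
    continuousOn_seg hδ fun z hz => (hy.diff z hz).continuousAt
  have cΘ : ContinuousOn (fun x : ℝ => Θ (x + (R + δ / 2 : ℝ) * I)) (Icc 0 1) :=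
    continuousOn_seg hδ fun z hz => (hΘ.diff z (mem_Dom_of_im hz)).continuousAt
  have cΘ' : ContinuousOn (fun x : ℝ => deriv Θ (x + (R + δ / 2 : ℝ) * I)) (Icc 0 1) :=
    continuousOn_seg hδ fun z hz => (hΘ.diff_deriv (mem_Dom_of_im hz)).continuousAt
  exact ⟨cv.mul (cΘ'.pow 2), cΘ⟩

lemma Near.num_bound {R κ δ A : ℝ} (hR : 20 ≤ R) (hκ : 0 ≤ κ) (hκ1 : κ ≤ 1 / 100000)
    (hδ : 0 < δ) {Θ h : ℂ → ℂ} (hΘ : Near R κ Θ)
    (hh : Dec R A h) (x : ℝ) :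
    ‖Vsum h (x + (R + δ / 2 : ℝ) * I) * (deriv Θ (x + (R + δ / 2 : ℝ) * I)) ^ 2‖ ≤ 3 / 8 * A := by
  have hA := hh.nonneg
  have h7 := hh.norm_Vsum_seg hR (by linarith : R < R + δ / 2) x
  have hb1 := hΘ.b1 _ (mem_Dom_of_im (seg_im (R := R) hδ x))
  obtain ⟨_, hb2, _⟩ := near_one hκ1 hb1
  rw [norm_mul, norm_pow]
  calc _ ≤ A / 3 * (1 + κ) ^ 2 := by gcongr
    _ ≤ 3 / 8 * A := by
      have : (1 + κ) ^ 2 ≤ 9 / 8 := by nlinarith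
      nlinarith

/-- abstract bounds on `splus` from a lower bound of the denominator -/
lemma Near.splus_all {R κ δ A L : ℝ} (hR : 20 ≤ R) (hκ : 0 ≤ κ) (hκ1 : κ ≤ 1 / 100000)
    (hδ : 0 < δ) {Θ h : ℂ → ℂ} (hΘ : Near R κ Θ) (hh : Dec R A h) (hL : 0 < L) {x : ℂ}
    (hx : ∀ t ∈ Icc (0:ℝ) 1, L ≤ ‖Θ (t + (R + δ / 2 : ℝ) * I) - x‖) :
    DifferentiableAt ℂ (splus (R + δ / 2) Θ (Vsum h)) x ∧
    ‖splus (R + δ / 2) Θ (Vsum h) x‖ ≤ A / 16 / L ∧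
    ∀ x' : ℂ, (∀ t ∈ Icc (0:ℝ) 1, L ≤ ‖Θ (t + (R + δ / 2 : ℝ) * I) - x'‖) →
      ‖splus (R + δ / 2) Θ (Vsum h) x - splus (R + δ / 2) Θ (Vsum h) x'‖ ≤
        A / 16 * ‖x - x'‖ / L ^ 2 := by
  have hA := hh.nonneg
  obtain ⟨cn, cΘ⟩ := hΘ.cont_num (δ := δ) hR hδ hh
  have hpi : (3:ℝ) < π := Real.pi_gt_three
  have hne : ∀ y : ℂ, (∀ t ∈ Icc (0:ℝ) 1, L ≤ ‖Θ (t + (R + δ / 2 : ℝ) * I) - y‖) →
      ∀ t ∈ Icc (0:ℝ) 1, Θ (t + (R + δ / 2 : ℝ) * I) - y ≠ 0 := fun y hy t ht =>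
    norm_pos_iff.mp (hL.trans_le (hy t ht))
  have hint : ∀ y : ℂ, (∀ t ∈ Icc (0:ℝ) 1, L ≤ ‖Θ (t + (R + δ / 2 : ℝ) * I) - y‖) →
      IntervalIntegrable (fun t : ℝ => (Vsum h (t + (R + δ / 2 : ℝ) * I) *
      (deriv Θ (t + (R + δ / 2 : ℝ) * I)) ^ 2) / (Θ (t + (R + δ / 2 : ℝ) * I) - y)) volume 0 1 := by
    intro y hy
    refine ContinuousOn.intervalIntegrable ?_
    rw [uIcc_of_le zero_le_one]
    exact cn.div (cΘ.sub continuousOn_const) (hne y hy)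
  have hmem : ∀ t ∈ Ι (0:ℝ) 1, t ∈ Icc (0:ℝ) 1 := by
    intro t ht
    rw [uIoc_of_le zero_le_one] at ht
    exact ⟨ht.1.le, ht.2⟩
  refine ⟨?_, ?_, ?_⟩
  · exact (CT_diff cn cΘ fun t ht => sub_ne_zero.mp (hne x hx t ht)).const_mul _
  · unfold splus
    rw [norm_mul, norm_two_pi_I_inv]
    have hb : ‖∫ t in (0:ℝ)..1, (Vsum h (t + (R + δ / 2 : ℝ) * I) *
      (deriv Θ (t + (R + δ / 2 : ℝ) * I)) ^ 2) / (Θ (t + (R + δ / 2 : ℝ) * I) - x)‖ ≤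
        (3 / 8 * A / L) * |(1:ℝ) - 0| := by
      refine intervalIntegral.norm_integral_le_of_norm_le_const fun t ht => ?_
      rw [norm_div]
      have h1 := hΘ.num_bound hR hκ hκ1 hδ hh t
      have h2 := hx t (hmem t ht)
      gcongr
    rw [sub_zero, abs_one, mul_one] at hb
    calc 1 / (2 * π) * _ ≤ 1 / (2 * 3) * (3 / 8 * A / L) := by gcongr
      _ = _ := by ring
  · intro x' hx'
    unfold splus
    rw [← mul_sub, ← intervalIntegral.integral_sub (hint x hx) (hint x' hx'), norm_mul,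
      norm_two_pi_I_inv]
    have hb : ‖∫ t in (0:ℝ)..1, ((Vsum h (t + (R + δ / 2 : ℝ) * I) *
      (deriv Θ (t + (R + δ / 2 : ℝ) * I)) ^ 2) / (Θ (t + (R + δ / 2 : ℝ) * I) - x) -
      (Vsum h (t + (R + δ / 2 : ℝ) * I) *
      (deriv Θ (t + (R + δ / 2 : ℝ) * I)) ^ 2) / (Θ (t + (R + δ / 2 : ℝ) * I) - x'))‖ ≤
        (3 / 8 * A * (‖x - x'‖ / L ^ 2)) * |(1:ℝ) - 0| := by
      refine intervalIntegral.norm_integral_le_of_norm_le_const fun t ht => ?_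
      have h1 := hΘ.num_bound hR hκ hκ1 hδ hh t
      have h2 := hx t (hmem t ht)
      have h3 := hx' t (hmem t ht)
      have h4 := hne x hx t (hmem t ht)
      have h5 := hne x' hx' t (hmem t ht)
      have h6 : ∀ a b c d : ℂ, b ≠ 0 → c ≠ 0 → d = b - c → a / b - a / c = a * (-d / (b * c)) := by
        intro a b c d hb hc hd
        rw [hd]
        field_simp
        ring
      rw [h6 _ _ _ (x' - x) h4 h5 (by ring), norm_mul, norm_div, norm_neg,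
        norm_mul (Θ (t + (R + δ / 2 : ℝ) * I) - x) _, norm_sub_rev x' x]
      have h7 : L ^ 2 ≤ ‖Θ (t + (R + δ / 2 : ℝ) * I) - x‖ * ‖Θ (t + (R + δ / 2 : ℝ) * I) - x'‖ := by
        rw [sq]
        gcongr
      gcongr
    rw [sub_zero, abs_one, mul_one] at hb
    calc 1 / (2 * π) * _ ≤ 1 / (2 * 3) * (3 / 8 * A * (‖x - x'‖ / L ^ 2)) := by gcongr
      _ = _ := by ring

/-- `x` is close to `Θ η` or `Θ η + 20 i`. -/
def Cl (δ : ℝ) (Θ : ℂ → ℂ) (η x : ℂ) : Prop := ‖x - Θ η‖ ≤ δ / 10 ∨ ‖x - (Θ η + 20 * I)‖ ≤ δ / 10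

lemma Cl.neg {δ : ℝ} {Θ : ℂ → ℂ} {η x : ℂ} (h : Cl δ Θ η x) : Cl δ (oneg Θ) (-η) (20 * I - x) := by
  unfold Cl oneg at *
  rw [neg_neg]
  rcases h with h | h
  · right
    have : 20 * I - x - (-Θ η + 20 * I) = -(x - Θ η) := by ring
    rw [this, norm_neg]
    exact h
  · left
    have : 20 * I - x - -Θ η = -(x - (Θ η + 20 * I)) := by ring
    rw [this, norm_neg]
    exact h

lemma Near.near_lower {R κ δ : ℝ} (hR : 20 ≤ R) (hR' : R ≤ 21) (hκ : 0 ≤ κ) (hκ1 : κ ≤ 1 / 100000)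
    (hδ : 0 < δ) (hδ1 : δ ≤ 1) {Θ : ℂ → ℂ} (hΘ : Near R κ Θ) {η x : ℂ}
    (hη : η ∈ Dom (R + δ)) (hx : Cl δ Θ η x) {t : ℝ} (ht : t ∈ Icc (0:ℝ) 1) :
    δ / 250 * ‖η‖ ≤ ‖Θ (t + (R + δ / 2 : ℝ) * I) - x‖ := by
  obtain ⟨h1, h2⟩ := hΘ.lower hR hκ hκ1 hδ hη ht
  have h3 := seg_dist' hR (by linarith) hδ hδ1 hη ht
  have h4 := geo2 hR hδ hη ht
  have h5 := geo3 hR hR' hδ hδ1 (η := η) ht
  have hηn : 20 ≤ ‖η‖ := by linarith [lt_norm_of_mem_Dom hη]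
  set X := Θ (t + (R + δ / 2 : ℝ) * I) with hX
  set u : ℂ := (t : ℂ) + (R + δ / 2 : ℝ) * I - η with hu
  rcases hx with hx | hx
  · have h6 : ‖X - Θ η‖ ≤ ‖X - x‖ + ‖x - Θ η‖ := by
      calc ‖X - Θ η‖ = ‖(X - x) + (x - Θ η)‖ := by rw [sub_add_sub_cancel]
        _ ≤ _ := norm_add_le _ _
    nlinarith
  · have h6 : ‖X - Θ η - 20 * I‖ ≤ ‖X - x‖ + ‖x - (Θ η + 20 * I)‖ := by
      calc ‖X - Θ η - 20 * I‖ = ‖(X - x) + (x - (Θ η + 20 * I))‖ := by congr 1; ring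
        _ ≤ _ := norm_add_le _ _
    nlinarith [norm_nonneg η]

lemma Near.sfun_close {R κ δ A : ℝ} (hR : 20 ≤ R) (hR' : R ≤ 21) (hκ : 0 ≤ κ)
    (hκ1 : κ ≤ 1 / 100000)
    (hδ : 0 < δ) (hδ1 : δ ≤ 1) {Θ h : ℂ → ℂ} (hΘ : Near R κ Θ) (hh : Dec R A h) {η x : ℂ}
    (hη : η ∈ Dom (R + δ)) (hx : Cl δ Θ η x) :
    DifferentiableAt ℂ (sfun (R + δ / 2) Θ h) x ∧
    ‖sfun (R + δ / 2) Θ h x‖ ≤ 32 * A / (δ * ‖η‖) ∧
    ∀ x' : ℂ, Cl δ Θ η x' →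
      ‖sfun (R + δ / 2) Θ h x - sfun (R + δ / 2) Θ h x'‖ ≤ 8000 * A * ‖x - x'‖ / (δ * ‖η‖) ^ 2 := by
  have hA := hh.nonneg
  have hηn : 20 ≤ ‖η‖ := by linarith [lt_norm_of_mem_Dom hη]
  have hL : 0 < δ / 250 * ‖η‖ := by positivity
  have hA2 : 0 < δ * ‖η‖ := by positivity
  obtain ⟨a1, a2, a3⟩ := hΘ.splus_all hR hκ hκ1 hδ hh hL
    (fun t ht => hΘ.near_lower hR hR' hκ hκ1 hδ hδ1 hη hx ht)
  have hη' := neg_mem_Dom hη
  have key : ∀ y : ℂ, Cl δ Θ η y → ∀ t ∈ Icc (0:ℝ) 1,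
      δ / 250 * ‖η‖ ≤ ‖oneg Θ (t + (R + δ / 2 : ℝ) * I) - (20 * I - y)‖ := fun y hy t ht => by
    have := hΘ.neg.near_lower hR hR' hκ hκ1 hδ hδ1 hη' hy.neg ht
    rwa [norm_neg] at this
  obtain ⟨b1, b2, b3⟩ := hΘ.neg.splus_all hR hκ hκ1 hδ hh.neg hL (key x hx)
  refine ⟨?_, ?_, ?_⟩
  · have h1 : DifferentiableAt ℂ
        (fun y => splus (R + δ / 2) (oneg Θ) (Vsum (fneg h)) (20 * I - y)) x :=
      DifferentiableAt.comp (f := fun y : ℂ => 20 * I - y) x b1 (by fun_prop)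
    exact a1.sub h1
  · calc ‖sfun (R + δ / 2) Θ h x‖ ≤ A / 16 / (δ / 250 * ‖η‖) + A / 16 / (δ / 250 * ‖η‖) :=
          (norm_sub_le _ _).trans (add_le_add a2 b2)
      _ = 250 / 8 * (A / (δ * ‖η‖)) := by
        field_simp
        ring
      _ ≤ 32 * (A / (δ * ‖η‖)) := by gcongr; norm_num
      _ = _ := by ring
  · intro x' hx'
    have h1 := a3 x' (fun t ht => hΘ.near_lower hR hR' hκ hκ1 hδ hδ1 hη hx' ht)
    have h2 := b3 (20 * I - x') (key x' hx')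
    have h3 : 20 * I - x - (20 * I - x') = -(x - x') := by ring
    rw [h3, norm_neg] at h2
    have h4 : sfun (R + δ / 2) Θ h x - sfun (R + δ / 2) Θ h x' =
      (splus (R + δ / 2) Θ (Vsum h) x - splus (R + δ / 2) Θ (Vsum h) x') -
      (splus (R + δ / 2) (oneg Θ) (Vsum (fneg h)) (20 * I - x) -
        splus (R + δ / 2) (oneg Θ) (Vsum (fneg h)) (20 * I - x')) := by
      unfold sfun
      ring
    rw [h4]
    calc _ ≤ A / 16 * ‖x - x'‖ / (δ / 250 * ‖η‖) ^ 2 + A / 16 * ‖x - x'‖ / (δ / 250 * ‖η‖) ^ 2 :=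
          (norm_sub_le _ _).trans (add_le_add h1 h2)
      _ = 62500 / 8 * (A * ‖x - x'‖ / (δ * ‖η‖) ^ 2) := by
        field_simp
        ring
      _ ≤ 8000 * (A * ‖x - x'‖ / (δ * ‖η‖) ^ 2) := by gcongr; norm_num
      _ = _ := by ring

lemma Near.sfun_far {R κ δ A : ℝ} (hR : 20 ≤ R) (hR' : R ≤ 21) (hκ : 0 ≤ κ)
    (hκ1 : κ ≤ 1 / 100000)
    (hδ : 0 < δ) (hδ1 : δ ≤ 1) {Θ h : ℂ → ℂ} (hΘ : Near R κ Θ) (hh : Dec R A h) {x : ℂ}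
    (hx : 50 ≤ ‖x‖) :
    DifferentiableAt ℂ (sfun (R + δ / 2) Θ h) x ∧ ‖sfun (R + δ / 2) Θ h x‖ ≤ A := by
  have hA := hh.nonneg
  have hseg : ∀ t ∈ Icc (0:ℝ) 1, ‖Θ (t + (R + δ / 2 : ℝ) * I)‖ ≤ 24 := by
    intro t ht
    have h1 := norm_seg_le (r := R + δ / 2) (by linarith) ht
    have h2 := hΘ.b0 _ (mem_Dom_of_im (seg_im (R := R) hδ t))
    calc ‖Θ (t + (R + δ / 2 : ℝ) * I)‖ = ‖(Θ (t + (R + δ / 2 : ℝ) * I) -
          (t + (R + δ / 2 : ℝ) * I)) + (t + (R + δ / 2 : ℝ) * I)‖ := by rw [sub_add_cancel]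
      _ ≤ _ := norm_add_le _ _
      _ ≤ 24 := by linarith
  have hseg' : ∀ t ∈ Icc (0:ℝ) 1, ‖oneg Θ (t + (R + δ / 2 : ℝ) * I)‖ ≤ 24 := by
    intro t ht
    have h1 := norm_seg_le (r := R + δ / 2) (by linarith) ht
    have h2 := hΘ.neg.b0 _ (mem_Dom_of_im (seg_im (R := R) hδ t))
    calc ‖oneg Θ (t + (R + δ / 2 : ℝ) * I)‖ = ‖(oneg Θ (t + (R + δ / 2 : ℝ) * I) -
          (t + (R + δ / 2 : ℝ) * I)) + (t + (R + δ / 2 : ℝ) * I)‖ := by rw [sub_add_cancel]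
      _ ≤ _ := norm_add_le _ _
      _ ≤ 24 := by linarith
  obtain ⟨a1, a2, _⟩ := hΘ.splus_all (L := 1) hR hκ hκ1 hδ hh one_pos (x := x)
    (fun t ht => by
      have h1 := hseg t ht
      have h2 := norm_sub_norm_le x (Θ (t + (R + δ / 2 : ℝ) * I))
      rw [norm_sub_rev] at h2
      linarith)
  obtain ⟨b1, b2, _⟩ := hΘ.neg.splus_all (L := 1) hR hκ hκ1 hδ hh.neg one_pos (x := 20 * I - x)
    (fun t ht => by
      have h1 := hseg' t ht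
      have h2 := norm_sub_norm_le (20 * I - x) (oneg Θ (t + (R + δ / 2 : ℝ) * I))
      rw [norm_sub_rev (20 * I - x) (oneg Θ (t + (R + δ / 2 : ℝ) * I))] at h2
      have h3 := norm_sub_norm_le x (20 * I)
      rw [norm_sub_rev x (20 * I)] at h3
      have h4 : ‖20 * I‖ = 20 := by simp
      linarith)
  constructor
  · have h1 : DifferentiableAt ℂ
        (fun y => splus (R + δ / 2) (oneg Θ) (Vsum (fneg h)) (20 * I - y)) x :=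
      DifferentiableAt.comp (f := fun y : ℂ => 20 * I - y) x b1 (by fun_prop)
    exact a1.sub h1
  · calc ‖sfun (R + δ / 2) Θ h x‖ ≤ A / 16 / 1 + A / 16 / 1 :=
          (norm_sub_le _ _).trans (add_le_add a2 b2)
      _ ≤ A := by linarith

/-- The linear estimate. -/
lemma Near.W_bound {R κ δ A : ℝ} (hR : 20 ≤ R) (hR' : R ≤ 21) (hκ : 0 ≤ κ) (hκ1 : κ ≤ 1 / 100000)
    (hδ : 0 < δ) (hδ1 : δ ≤ 1) {Θ h : ℂ → ℂ} (hΘ : Near R κ Θ) (hh : Dec R A h) {η : ℂ}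
    (hη : η ∈ Dom (R + δ)) :
    ‖(sfun (R + δ / 2) Θ h (Θ η) - sfun (R + δ / 2) Θ h (Θ η + 20 * I)) /
      deriv Θ η - Mfun (R + δ / 2) h η‖ ≤ 5 / 36 * A / ‖η‖ ^ 2 := by
  have h1 := hΘ.Z_bound hR hR' hκ hκ1 hδ hδ1 hh hη
  have h2 := hΘ.neg.Z_bound hR hR' hκ hκ1 hδ hδ1 hh.neg (neg_mem_Dom hη)
  rw [norm_neg, deriv_oneg] at h2
  simp only [oneg, neg_neg] at h2
  have h3 : (sfun (R + δ / 2) Θ h (Θ η) - sfun (R + δ / 2) Θ h (Θ η + 20 * I)) /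
      deriv Θ η - Mfun (R + δ / 2) h η =
    ((splus (R + δ / 2) Θ (Vsum h) (Θ η) - splus (R + δ / 2) Θ (Vsum h) (Θ η + 20 * I)) /
      deriv Θ η - mC (R + δ / 2) (Vsum h) η) +
    ((splus (R + δ / 2) (oneg Θ) (Vsum (fneg h)) (-Θ η) -
      splus (R + δ / 2) (oneg Θ) (Vsum (fneg h)) (-Θ η + 20 * I)) / deriv Θ η -
      mC (R + δ / 2) (Vsum (fneg h)) (-η)) := by
    unfold sfun Mfun
    have e1 : 20 * I - Θ η = -Θ η + 20 * I := by ring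
    have e2 : 20 * I - (Θ η + 20 * I) = -Θ η := by ring
    rw [e1, e2]
    ring
  rw [h3]
  calc _ ≤ 5 / 72 * A / ‖η‖ ^ 2 + 5 / 72 * A / ‖η‖ ^ 2 := (norm_add_le _ _).trans (add_le_add h1 h2)
    _ = _ := by ring

end Pool.Agent.Lib.MP_40a019_an
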