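import Mathlib
import Pool.Agent.Lib.MP_40a019_an.Sbound

/-!
One step of the iteration.
-/

set_option autoImplicit false

namespace Pool.Agent.Lib.MP_40a019_an

open Set Filter Topology Metric Complex MeasureTheory
open scoped Real Interval

lemma cauchy_Dom {R δ G : ℝ} (hδ : 0 < δ) {g : ℂ → ℂ} (hg : ∀ z ∈ Dom R, DifferentiableAt ℂ g z)
    (hG : ∀ z ∈ Dom R, ‖g z‖ ≤ G) {z : ℂ} (hz : z ∈ Dom (R + δ)) : ‖deriv g z‖ ≤ G / δ := by
  have hD : closedBall z δ ⊆ Dom R := fun w hw =>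
    mem_Dom_of_near hz (by simpa [dist_eq_norm] using hw)
  refine norm_deriv_le_of_forall_mem_sphere_norm_le hδ ?_ ?_
  · exact DifferentiableOn.diffContOnCl_ball (U := Dom R)
      (fun w hw => (hg w hw).differentiableWithinAt) hD
  · intro w hw
    exact hG w (hD (sphere_subset_closedBall hw))

lemma Near.update {R κ δ G : ℝ} (hδ : 0 < δ) (hδ1 : δ ≤ 1) {Θ Θn : ℂ → ℂ}
    (hΘ : Near R κ Θ) (hd : ∀ z ∈ Dom (R + 2 * δ), DifferentiableAt ℂ Θn z)
    (hG : ∀ z ∈ Dom (R + 2 * δ), ‖Θn z - Θ z‖ ≤ G) :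
    Near (R + 4 * δ) (κ + G / δ ^ 2) Θn := by
  have hG0 : 0 ≤ G := by
    have hz : ((|R + 2 * δ| + 1 : ℝ) : ℂ) ∈ Dom (R + 2 * δ) := by
      left
      rw [Complex.ofReal_re]
      exact lt_abs.mpr (Or.inl (by linarith [le_abs_self (R + 2 * δ)]))
    exact (norm_nonneg _).trans (hG _ hz)
  set g : ℂ → ℂ := fun z => Θn z - Θ z with hg
  have hgd : ∀ z ∈ Dom (R + 2 * δ), DifferentiableAt ℂ g z := fun z hz =>
    (hd z hz).sub (hΘ.diff z (Dom_anti (by linarith) hz))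
  have hgd' : ∀ z ∈ Dom (R + 2 * δ), DifferentiableAt ℂ (deriv g) z := fun z hz => by
    have h1 : DifferentiableOn ℂ g (Dom (R + 2 * δ)) := fun w hw => (hgd w hw).differentiableWithinAt
    exact (h1.deriv (isOpen_Dom _)).differentiableAt ((isOpen_Dom _).mem_nhds hz)
  have h1 : ∀ z ∈ Dom (R + 3 * δ), ‖deriv g z‖ ≤ G / δ := fun z hz =>
    cauchy_Dom hδ hgd hG (by
      have : R + 2 * δ + δ = R + 3 * δ := by ring
      rw [this]
      exact hz)
  have h2 : ∀ z ∈ Dom (R + 4 * δ), ‖deriv (deriv g) z‖ ≤ G / δ / δ := fun z hz =>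
    cauchy_Dom (R := R + 3 * δ) hδ (fun w hw => hgd' w (Dom_anti (by linarith) hw)) h1 (by
      have : R + 3 * δ + δ = R + 4 * δ := by ring
      rw [this]
      exact hz)
  have hder : ∀ z ∈ Dom (R + 2 * δ), deriv Θn z = deriv Θ z + deriv g z := fun z hz => by
    have e : Θn = fun z => Θ z + g z := by
      funext w
      simp only [hg]
      ring
    have h3 := (hΘ.diff z (Dom_anti (by linarith) hz)).hasDerivAt.add (hgd z hz).hasDerivAt
    rw [e]
    exact h3.deriv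
  have hder2 : ∀ z ∈ Dom (R + 2 * δ), deriv (deriv Θn) z = deriv (deriv Θ) z + deriv (deriv g) z :=
    fun z hz => by
      have e : deriv Θn =ᶠ[𝓝 z] fun z => deriv Θ z + deriv g z := by
        filter_upwards [(isOpen_Dom _).mem_nhds hz] with w hw using hder w hw
      rw [e.deriv_eq]
      have h3 := (hΘ.diff_deriv (Dom_anti (by linarith) hz : z ∈ Dom R)).hasDerivAt.add
        (hgd' z hz).hasDerivAt
      exact h3.deriv
  have hGδ : G ≤ G / δ ^ 2 := by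
    rw [le_div_iff₀ (by positivity)]
    have : δ ^ 2 ≤ 1 := pow_le_one₀ hδ.le hδ1
    nlinarith
  have hGδ' : G / δ ≤ G / δ ^ 2 := by
    rw [div_le_div_iff₀ hδ (by positivity)]
    have : δ ^ 2 ≤ δ := by nlinarith
    nlinarith
  have hGδ'' : G / δ / δ = G / δ ^ 2 := by
    rw [div_div, sq]
  refine ⟨?_, ?_, ?_, ?_⟩
  · intro z hz
    exact hd z (Dom_anti (by linarith) hz)
  · intro z hz
    have h3 := hG z (Dom_anti (by linarith) hz)
    have h4 := hΘ.b0 z (Dom_anti (by linarith) hz)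
    have h5 : Θn z - z = (Θ z - z) + (Θn z - Θ z) := by ring
    rw [h5]
    exact (norm_add_le _ _).trans (by linarith)
  · intro z hz
    have h3 := h1 z (Dom_anti (by linarith) hz)
    have h4 := hΘ.b1 z (Dom_anti (by linarith) hz)
    rw [hder z (Dom_anti (by linarith) hz)]
    have h5 : deriv Θ z + deriv g z - 1 = (deriv Θ z - 1) + deriv g z := by ring
    rw [h5]
    exact (norm_add_le _ _).trans (by linarith)
  · intro z hz
    have h3 := h2 z hz
    have h4 := hΘ.b2 z (Dom_anti (by linarith) hz)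
    rw [hder2 z (Dom_anti (by linarith) hz)]
    exact (norm_add_le _ _).trans (by linarith)

lemma Dec.lip {R ε δ : ℝ} (hR : 20 ≤ R) (hδ : 0 < δ) (hδ1 : δ ≤ 1 / 10) {Υ : ℂ → ℂ}
    (hΥ : Dec R ε Υ) {η w : ℂ} (hη : η ∈ Dom (R + 2 * δ)) (hw : ‖w‖ ≤ δ / 2) :
    ‖Υ (η + w) - Υ η‖ ≤ 13 / 10 * ε / (δ * ‖η‖ ^ 2) * ‖w‖ := by
  have hε := hΥ.nonneg
  have hηn : 20 ≤ ‖η‖ := by linarith [lt_norm_of_mem_Dom hη]
  have hD1 : ∀ z ∈ closedBall η (δ / 2), z ∈ Dom (R + δ) := fun z hz =>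
    mem_Dom_of_near (R := R + δ) (δ := δ) (by
      have : R + δ + δ = R + 2 * δ := by ring
      rw [this]; exact hη) (by
      have : ‖z - η‖ ≤ δ / 2 := by simpa [dist_eq_norm] using hz
      linarith)
  have h1 : ∀ z ∈ closedBall η (δ / 2), DifferentiableAt ℂ Υ z := fun z hz =>
    hΥ.diff z (Dom_anti (by linarith) (hD1 z hz))
  have h2 : ∀ z ∈ closedBall η (δ / 2), ‖deriv Υ z‖ ≤ 13 / 10 * ε / (δ * ‖η‖ ^ 2) := by
    intro z hz
    have hz' : ‖z - η‖ ≤ δ / 2 := by simpa [dist_eq_norm] using hz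
    have hD2 : closedBall z δ ⊆ Dom R := fun y hy =>
      mem_Dom_of_near (hD1 z hz) (by simpa [dist_eq_norm] using hy)
    have h3 : ‖deriv Υ z‖ ≤ (13 / 10 * ε / ‖η‖ ^ 2) / δ := by
      refine norm_deriv_le_of_forall_mem_sphere_norm_le hδ ?_ ?_
      · exact DifferentiableOn.diffContOnCl_ball (U := Dom R)
          (fun y hy => (hΥ.diff y hy).differentiableWithinAt) hD2
      · intro y hy
        have hy' : ‖y - z‖ = δ := by simpa [dist_eq_norm] using hy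
        have h4 := hΥ.bound y (hD2 (sphere_subset_closedBall hy))
        have h5 : 9 / 10 * ‖η‖ ≤ ‖y‖ := by
          have : ‖η‖ ≤ ‖y‖ + ‖y - z‖ + ‖z - η‖ := by
            calc ‖η‖ = ‖y - (y - z) - (z - η)‖ := by congr 1; ring
              _ ≤ ‖y - (y - z)‖ + ‖z - η‖ := norm_sub_le _ _
              _ ≤ _ := by gcongr; exact norm_sub_le _ _
          linarith
        have h6 : 0 < 9 / 10 * ‖η‖ := by positivity
        calc ‖Υ y‖ ≤ ε / ‖y‖ ^ 2 := h4
          _ ≤ ε / (9 / 10 * ‖η‖) ^ 2 := by gcongr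
          _ = 100 / 81 * (ε / ‖η‖ ^ 2) := by
            field_simp
            ring
          _ ≤ 13 / 10 * (ε / ‖η‖ ^ 2) :=
            mul_le_mul_of_nonneg_right (by norm_num) (by positivity)
          _ = _ := by ring
    refine h3.trans_eq ?_
    field_simp
  have h3 := (convex_closedBall η (δ / 2)).norm_image_sub_le_of_norm_deriv_le h1 h2
    (mem_closedBall_self (by positivity)) (y := η + w) (by simpa [dist_eq_norm] using hw)
  rwa [add_sub_cancel_left] at h3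

/-- division by `Θ'`. -/
lemma Near.dec_E {R κ ε : ℝ} (hκ1 : κ ≤ 1 / 100000) {Θ Υ : ℂ → ℂ} (hΘ : Near R κ Θ)
    (hΥ : Dec R ε Υ) : Dec R (101 / 100 * ε) (fun z => Υ z / deriv Θ z) where
  diff := fun z hz => by
    obtain ⟨h0, _, _⟩ := near_one hκ1 (hΘ.b1 z hz)
    exact (hΥ.diff z hz).div (hΘ.diff_deriv hz) h0
  bound := fun z hz => by
    obtain ⟨h0, _, h2⟩ := near_one hκ1 (hΘ.b1 z hz)
    have hε := hΥ.nonneg
    have h3 := hΥ.bound z hz
    have h4 : 0 ≤ ε / ‖z‖ ^ 2 := by positivity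
    rw [norm_div, div_le_iff₀ (norm_pos_iff.mpr h0)]
    calc ‖Υ z‖ ≤ ε / ‖z‖ ^ 2 := h3
      _ ≤ 101 / 100 * (ε / ‖z‖ ^ 2) * ‖deriv Θ z‖ := by nlinarith
      _ = _ := by ring

set_option maxHeartbeats 4000000 in
/-- One step of the iteration. -/
theorem step {R κ δ ε : ℝ} (hR : 20 ≤ R) (hR' : R ≤ 21) (hκ : 0 ≤ κ) (hκ1 : κ ≤ 1 / 100000)
    (hδ : 0 < δ) (hδ1 : δ ≤ 1 / 10) (hε : ε ≤ δ ^ 4 / 10 ^ 9) {Θ Υ : ℂ → ℂ} (hΘ : Near R κ Θ)
    (hΥ : Dec R ε Υ) : ∃ c s : ℂ → ℂ,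
    (∀ z ∈ Dom (R + δ), DifferentiableAt ℂ c z ∧ ‖c z‖ ≤ 7100 * ε / δ ^ 2) ∧
    (∀ x : ℂ, 50 ≤ ‖x‖ → DifferentiableAt ℂ s x ∧ ‖s x‖ ≤ 2 * ε) ∧
    Near (R + 4 * δ) (κ + 7100 * ε / δ ^ 4) (fun η => Θ (η + c η) + s (Θ (η + c η))) ∧
    Dec (R + 4 * δ) (ε / 2) (fun η => Θ (η + c (η + 1)) - Θ (η + c η) + Υ (η + c (η + 1)) +
      s (Θ (η + c (η + 1)) + 20 * I + Υ (η + c (η + 1))) - s (Θ (η + c η))) := by
  have hε0 := hΥ.nonneg
  have hδ1' : δ ≤ 1 := by linarith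
  have hR2 : R ≤ 22 := by linarith
  have hRδ : 20 ≤ R + δ := by linarith
  have hE := hΘ.dec_E hκ1 hΥ
  set E : ℂ → ℂ := fun z => Υ z / deriv Θ z with hEdef
  set A : ℝ := 101 / 100 * ε with hA
  have hA0 : 0 ≤ A := by positivity
  have hS := hE.solv hR hR2 hδ hδ1'
  set H : ℂ → ℂ := fun z => Mfun (R + δ / 2) E z - E z with hHdef
  set c : ℂ → ℂ := csol H with hc
  set s : ℂ → ℂ := sfun (R + δ / 2) Θ E with hs
  set γ : ℝ := 7100 * ε / δ ^ 2 with hγ
  have hγ0 : 0 ≤ γ := by positivity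
  -- sizes
  have hδ4 : δ ^ 4 ≤ δ ^ 3 := pow_le_pow_of_le_one hδ.le hδ1' (by norm_num)
  have hδ3 : δ ^ 3 ≤ δ := by
    have := pow_le_pow_of_le_one hδ.le hδ1' (show 1 ≤ 3 by norm_num)
    simpa using this
  have hγ1 : γ ≤ δ / 2 := by
    rw [hγ, div_le_iff₀ (by positivity)]
    have : δ / 2 * δ ^ 2 = δ ^ 3 / 2 := by ring
    rw [this]
    have h9 : δ ^ 4 / 10 ^ 9 ≤ δ ^ 3 / 10 ^ 9 := by gcongr
    linarith [pow_pos hδ 3]
  have hB : 1401 * A / δ ^ 2 ≤ γ / 5 := by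
    rw [hγ, hA]
    have : 7100 * ε / δ ^ 2 / 5 = 1420 * (ε / δ ^ 2) := by ring
    rw [this]
    have h9 : 1401 * (101 / 100 * ε) / δ ^ 2 = 1401 * (101 / 100) * (ε / δ ^ 2) := by ring
    rw [h9]
    have : 0 ≤ ε / δ ^ 2 := by positivity
    gcongr
    norm_num
  have hεγ : ε ≤ γ := by
    rw [hγ, le_div_iff₀ (by positivity)]
    have : δ ^ 2 ≤ 1 := pow_le_one₀ hδ.le hδ1'
    nlinarith
  have hεδ : ε / δ ≤ γ / 7100 := by
    have h9 : γ / 7100 = ε / δ ^ 2 := by rw [hγ]; ring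
    rw [h9, div_le_div_iff₀ hδ (by positivity)]
    have : δ ^ 2 ≤ δ := by nlinarith
    nlinarith
  -- bounds on `c`
  have cb0 : ∀ z ∈ Dom (R + δ), ‖c z‖ ≤ γ / ‖z‖ := fun z hz => by
    refine (hS.csol_bound hRδ hz).trans ?_
    have : 0 < ‖z‖ := by linarith [lt_norm_of_mem_Dom hz]
    gcongr
    linarith
  have cb1 : ∀ z ∈ Dom (R + δ), ‖c (z + 1)‖ ≤ γ / ‖z‖ := fun z hz => by
    refine (hS.csol_bound' hRδ hz).trans ?_
    have : 0 < ‖z‖ := by linarith [lt_norm_of_mem_Dom hz]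
    gcongr
    linarith
  have small : ∀ z ∈ Dom (R + δ), γ / ‖z‖ ≤ γ / 20 := fun z hz => by
    have : 20 ≤ ‖z‖ := by linarith [lt_norm_of_mem_Dom hz]
    gcongr
  have cd0 : ∀ z ∈ Dom (R + δ), DifferentiableAt ℂ c z := fun z hz => hS.csol_diff hRδ (Or.inl hz)
  have cd1 : ∀ z ∈ Dom (R + δ), DifferentiableAt ℂ (fun w => c (w + 1)) z := fun z hz => by
    have h1 : DifferentiableAt ℂ c (z + 1) := hS.csol_diff hRδ (Or.inr (by
      have : 1 - (z + 1) = -z := by ring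
      rw [this]
      exact neg_mem_Dom hz))
    exact DifferentiableAt.comp (f := fun w : ℂ => w + 1) z h1 (by fun_prop)
  have D21 : ∀ z ∈ Dom (R + 2 * δ), z ∈ Dom (R + δ) := fun z hz => Dom_anti (by linarith) hz
  -- moving points
  have mv0 : ∀ z ∈ Dom (R + 2 * δ), ∀ w : ℂ, ‖w‖ ≤ δ → z + w ∈ Dom (R + δ) := fun z hz w hw =>
    mem_Dom_of_near (R := R + δ) (δ := δ) (by
      have : R + δ + δ = R + 2 * δ := by ring
      rw [this]; exact hz) (by simpa using hw)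
  have c0δ : ∀ z ∈ Dom (R + 2 * δ), ‖c z‖ ≤ δ / 40 := fun z hz => by
    have h1 := cb0 z (D21 z hz)
    have h2 := small z (D21 z hz)
    linarith
  have c1δ : ∀ z ∈ Dom (R + 2 * δ), ‖c (z + 1)‖ ≤ δ / 40 := fun z hz => by
    have h1 := cb1 z (D21 z hz)
    have h2 := small z (D21 z hz)
    linarith
  have hεs : ε ≤ δ / 1000 := by
    have h9 : δ ^ 4 / 10 ^ 9 ≤ δ ^ 3 / 10 ^ 9 := by gcongr
    have h10 : δ ^ 3 / 10 ^ 9 ≤ δ / 10 ^ 9 := by gcongr
    have h11 : δ / 10 ^ 9 ≤ δ / 1000 := by gcongr; norm_num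
    linarith
  have Υsmall : ∀ z ∈ Dom R, ‖Υ z‖ ≤ ε / 400 := fun z hz => by
    refine (hΥ.bound z hz).trans ?_
    have : 20 ≤ ‖z‖ := by linarith [lt_norm_of_mem_Dom hz]
    have h400 : (400:ℝ) ≤ ‖z‖ ^ 2 := by nlinarith
    gcongr
  -- Lipschitz bound
  have lipΘ : ∀ z ∈ Dom (R + 2 * δ), ∀ w : ℂ, ‖w‖ ≤ δ → ‖Θ (z + w) - Θ z‖ ≤ 11 / 10 * ‖w‖ := by
    intro z hz w hw
    have h1 := hΘ.lip_ball (ρ := δ) (z₀ := z) (a := z) (b := z + w) (D21 z hz) (by simpa using hδ.le)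
      (by simpa using hw)
    rw [add_sub_cancel_left] at h1
    calc ‖Θ (z + w) - Θ z‖ = ‖(Θ (z + w) - Θ z - w) + w‖ := by rw [sub_add_cancel]
      _ ≤ ‖Θ (z + w) - Θ z - w‖ + ‖w‖ := norm_add_le _ _
      _ ≤ κ * ‖w‖ + ‖w‖ := by gcongr
      _ ≤ _ := by nlinarith [norm_nonneg w]
  have sClose : ∀ z ∈ Dom (R + δ), ∀ x, Cl δ Θ z x → DifferentiableAt ℂ s x ∧
      ‖s x‖ ≤ 32 * A / (δ * ‖z‖) ∧ ∀ x' : ℂ, Cl δ Θ z x' →
      ‖s x - s x'‖ ≤ 8000 * A * ‖x - x'‖ / (δ * ‖z‖) ^ 2 := fun z hz x hx =>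
    hΘ.sfun_close hR hR' hκ hκ1 hδ hδ1' hE hz hx
  have cl0 : ∀ z : ℂ, Cl δ Θ z (Θ z) := fun z => Or.inl (by simpa using by positivity)
  have cl1 : ∀ z : ℂ, Cl δ Θ z (Θ z + 20 * I) := fun z => Or.inr (by simpa using by positivity)
  refine ⟨c, s, ?_, ?_, ?_, ?_⟩
  · intro z hz
    refine ⟨cd0 z hz, (cb0 z hz).trans ?_⟩
    have := small z hz
    linarith
  · intro x hx
    obtain ⟨h1, h2⟩ := hΘ.sfun_far hR hR' hκ hκ1 hδ hδ1' hE hx
    exact ⟨h1, h2.trans (by linarith)⟩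
  · -- new `Θ`
    have h1 : ∀ z ∈ Dom (R + 2 * δ), DifferentiableAt ℂ
        (fun η => Θ (η + c η) + s (Θ (η + c η))) z := by
      intro z hz
      have hz' : z + c z ∈ Dom (R + δ) := mv0 z hz _ (by linarith [c0δ z hz])
      have h2 : DifferentiableAt ℂ (fun η => η + c η) z :=
        differentiableAt_id.add (cd0 z (D21 z hz))
      have h3 : DifferentiableAt ℂ (fun η => Θ (η + c η)) z :=
        DifferentiableAt.comp (f := fun η : ℂ => η + c η) z
          (hΘ.diff _ (Dom_anti (by linarith) hz')) h2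
      have h4 : DifferentiableAt ℂ (fun η => s (Θ (η + c η))) z :=
        DifferentiableAt.comp (f := fun η : ℂ => Θ (η + c η)) z
          (sClose _ hz' _ (cl0 _)).1 h3
      exact h3.add h4
    have h2 : ∀ z ∈ Dom (R + 2 * δ), ‖(Θ (z + c z) + s (Θ (z + c z))) - Θ z‖ ≤ γ := by
      intro z hz
      have hz' : z + c z ∈ Dom (R + δ) := mv0 z hz _ (by linarith [c0δ z hz])
      have h3 := lipΘ z hz (c z) (by linarith [c0δ z hz])
      have h4 := (sClose _ hz' _ (cl0 _)).2.1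
      have h5 : 20 ≤ ‖z + c z‖ := by linarith [lt_norm_of_mem_Dom hz']
      have h6 : 32 * A / (δ * ‖z + c z‖) ≤ 2 * (ε / δ) := by
        have e1 : 2 * (ε / δ) = 40 * ε / (δ * 20) := by ring
        rw [e1]
        exact div_le_div₀ (by positivity) (by rw [hA]; linarith) (by positivity) (by gcongr)
      have h7 := cb0 z (D21 z hz)
      have h8 := small z (D21 z hz)
      have h9 : (Θ (z + c z) + s (Θ (z + c z))) - Θ z = (Θ (z + c z) - Θ z) + s (Θ (z + c z)) := by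
        ring
      rw [h9]
      refine (norm_add_le _ _).trans ?_
      linarith
    have h3 := hΘ.update hδ hδ1' h1 h2
    have h4 : γ / δ ^ 2 = 7100 * ε / δ ^ 4 := by
      rw [hγ]
      field_simp
    rw [h4] at h3
    exact h3
  · constructor
    · intro z hz
      have hz2 : z ∈ Dom (R + 2 * δ) := Dom_anti (by linarith) hz
      have hz0 : z + c z ∈ Dom (R + δ) := mv0 z hz2 _ (by linarith [c0δ z hz2])
      have hz1 : z + c (z + 1) ∈ Dom (R + δ) := mv0 z hz2 _ (by linarith [c1δ z hz2])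
      have hz0R : z + c z ∈ Dom R := Dom_anti (by linarith) hz0
      have hz1R : z + c (z + 1) ∈ Dom R := Dom_anti (by linarith) hz1
      have d0 : DifferentiableAt ℂ (fun η => η + c η) z :=
        differentiableAt_id.add (cd0 z (D21 z hz2))
      have d1 : DifferentiableAt ℂ (fun η => η + c (η + 1)) z :=
        differentiableAt_id.add (cd1 z (D21 z hz2))
      have t0 : DifferentiableAt ℂ (fun η => Θ (η + c η)) z :=
        DifferentiableAt.comp (f := fun η : ℂ => η + c η) z (hΘ.diff _ hz0R) d0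
      have t1 : DifferentiableAt ℂ (fun η => Θ (η + c (η + 1))) z :=
        DifferentiableAt.comp (f := fun η : ℂ => η + c (η + 1)) z (hΘ.diff _ hz1R) d1
      have y1 : DifferentiableAt ℂ (fun η => Υ (η + c (η + 1))) z :=
        DifferentiableAt.comp (f := fun η : ℂ => η + c (η + 1)) z (hΥ.diff _ hz1R) d1
      have a1 : DifferentiableAt ℂ (fun η => Θ (η + c (η + 1)) + 20 * I + Υ (η + c (η + 1))) z :=
        (t1.add (differentiableAt_const _)).add y1
      have cla1 : Cl δ Θ (z + c (z + 1)) (Θ (z + c (z + 1)) + 20 * I + Υ (z + c (z + 1))) := by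
        right
        rw [add_sub_cancel_left]
        have := Υsmall _ hz1R
        linarith
      have s1 : DifferentiableAt ℂ
          (fun η => s (Θ (η + c (η + 1)) + 20 * I + Υ (η + c (η + 1)))) z :=
        DifferentiableAt.comp
          (f := fun η : ℂ => Θ (η + c (η + 1)) + 20 * I + Υ (η + c (η + 1))) z
          (sClose _ hz1 _ cla1).1 a1
      have s0 : DifferentiableAt ℂ (fun η => s (Θ (η + c η))) z :=
        DifferentiableAt.comp (f := fun η : ℂ => Θ (η + c η)) z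
          (sClose _ hz0 _ (cl0 _)).1 t0
      exact (((t1.sub t0).add y1).add s1).sub s0
    · intro z hz
      have hz2 : z ∈ Dom (R + 2 * δ) := Dom_anti (by linarith) hz
      have hzδ : z ∈ Dom (R + δ) := D21 z hz2
      have hzR : z ∈ Dom R := Dom_anti (by linarith) hz
      have hz1 : z + c (z + 1) ∈ Dom (R + δ) := mv0 z hz2 _ (by linarith [c1δ z hz2])
      have hz1R : z + c (z + 1) ∈ Dom R := Dom_anti (by linarith) hz1
      have hzn : 20 ≤ ‖z‖ := by linarith [lt_norm_of_mem_Dom hz]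
      have hzn0 : 0 < ‖z‖ := by linarith
      obtain ⟨hΘ0, hΘ1, _⟩ := near_one hκ1 (hΘ.b1 z hzR)
      set c0 := c z with hc0
      set c1 := c (z + 1) with hc1
      have b0 : ‖c0‖ ≤ γ / 20 := (cb0 z hzδ).trans (small z hzδ)
      have b1 : ‖c1‖ ≤ γ / 20 := (cb1 z hzδ).trans (small z hzδ)
      have b0' : ‖c0‖ ≤ δ / 40 := c0δ z hz2
      have b1' : ‖c1‖ ≤ δ / 40 := c1δ z hz2
      have hce : c1 - c0 = H z := hS.csol_eq hRδ hzδ
      have bd : ‖c1 - c0‖ ≤ γ / ‖z‖ ^ 2 := by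
        rw [hce]
        refine (hS.bound z hzδ).trans ?_
        gcongr
        linarith
      -- the four remainders
      have T1 : ‖(Θ (z + c1) - Θ (z + c0)) - deriv Θ z * (c1 - c0)‖ ≤ γ ^ 2 / ‖z‖ ^ 2 := by
        have h1 := hΘ.taylor_ball (ρ := γ / 20) (z₀ := z) (a := z + c0) (b := z + c1) hκ
          (by positivity) (Dom_anti (by linarith) hz) (by simpa using b0) (by simpa using b1)
        have h2 : z + c1 - (z + c0) = c1 - c0 := by ring
        rw [h2] at h1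
        calc _ ≤ κ * (γ / 20) * ‖c1 - c0‖ := h1
          _ ≤ 1 * (γ / 1) * (γ / ‖z‖ ^ 2) := by
            gcongr
            · linarith
            · norm_num
          _ = _ := by ring
      have T2 : ‖Υ (z + c1) - Υ z‖ ≤ (ε / δ) * γ / ‖z‖ ^ 2 := by
        have h1 := hΥ.lip hR hδ hδ1 hz2 (w := c1) (by linarith)
        calc _ ≤ 13 / 10 * ε / (δ * ‖z‖ ^ 2) * ‖c1‖ := h1
          _ ≤ 13 / 10 * ε / (δ * ‖z‖ ^ 2) * (γ / 20) := by gcongr
          _ = 13 / 200 * ((ε / δ) * γ / ‖z‖ ^ 2) := by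
            field_simp
            ring
          _ ≤ 1 * ((ε / δ) * γ / ‖z‖ ^ 2) := by
            gcongr
            norm_num
          _ = _ := by ring
      have e1 : ‖Θ (z + c1) + 20 * I + Υ (z + c1) - (Θ z + 20 * I)‖ ≤ γ ∧
          ‖Θ (z + c1) + 20 * I + Υ (z + c1) - (Θ z + 20 * I)‖ ≤ δ / 10 := by
        have h1 := lipΘ z hz2 c1 (by linarith)
        have h2 := Υsmall _ hz1R
        have h3 : Θ (z + c1) + 20 * I + Υ (z + c1) - (Θ z + 20 * I) =
          (Θ (z + c1) - Θ z) + Υ (z + c1) := by ring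
        rw [h3]
        have h4 := norm_add_le (Θ (z + c1) - Θ z) (Υ (z + c1))
        constructor <;> linarith
      have e0 : ‖Θ (z + c0) - Θ z‖ ≤ γ ∧ ‖Θ (z + c0) - Θ z‖ ≤ δ / 10 := by
        have h1 := lipΘ z hz2 c0 (by linarith)
        constructor <;> linarith
      have T3 : ‖s (Θ (z + c1) + 20 * I + Υ (z + c1)) - s (Θ z + 20 * I)‖ ≤
          8000 * A * γ / δ ^ 2 / ‖z‖ ^ 2 := by
        have h1 := (sClose z hzδ _ (Or.inr e1.2)).2.2 _ (cl1 z)
        calc _ ≤ 8000 * A * ‖Θ (z + c1) + 20 * I + Υ (z + c1) - (Θ z + 20 * I)‖ /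
              (δ * ‖z‖) ^ 2 := h1
          _ ≤ 8000 * A * γ / (δ * ‖z‖) ^ 2 := by
            gcongr
            exact e1.1
          _ = _ := by
            rw [mul_pow, div_div]
      have T4 : ‖s (Θ (z + c0)) - s (Θ z)‖ ≤ 8000 * A * γ / δ ^ 2 / ‖z‖ ^ 2 := by
        have h1 := (sClose z hzδ _ (Or.inl e0.2)).2.2 _ (cl0 z)
        calc _ ≤ 8000 * A * ‖Θ (z + c0) - Θ z‖ / (δ * ‖z‖) ^ 2 := h1
          _ ≤ 8000 * A * γ / (δ * ‖z‖) ^ 2 := by
            gcongr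
            exact e0.1
          _ = _ := by
            rw [mul_pow, div_div]
      have T5 : ‖deriv Θ z * ((s (Θ z) - s (Θ z + 20 * I)) / deriv Θ z - Mfun (R + δ / 2) E z)‖ ≤
          ε / 4 / ‖z‖ ^ 2 := by
        have h1 := hΘ.W_bound hR hR' hκ hκ1 hδ hδ1' hE hzδ
        rw [norm_mul]
        calc _ ≤ (101 / 100) * (5 / 36 * A / ‖z‖ ^ 2) := by
              gcongr
              linarith
          _ = 101 / 100 * (5 / 36) * (101 / 100) * (ε / ‖z‖ ^ 2) := by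
            rw [hA]
            ring
          _ ≤ 1 / 4 * (ε / ‖z‖ ^ 2) := by
            gcongr
            norm_num
          _ = _ := by ring
      have hid : Θ (z + c1) - Θ (z + c0) + Υ (z + c1) +
          s (Θ (z + c1) + 20 * I + Υ (z + c1)) - s (Θ (z + c0)) =
          ((Θ (z + c1) - Θ (z + c0)) - deriv Θ z * (c1 - c0)) + (Υ (z + c1) - Υ z) +
          (s (Θ (z + c1) + 20 * I + Υ (z + c1)) - s (Θ z + 20 * I)) -
          (s (Θ (z + c0)) - s (Θ z)) -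
          deriv Θ z * ((s (Θ z) - s (Θ z + 20 * I)) / deriv Θ z - Mfun (R + δ / 2) E z) := by
        have h1 : c1 - c0 = Mfun (R + δ / 2) E z - Υ z / deriv Θ z := hce
        rw [h1]
        field_simp
        ring
      rw [hid]
      have hsum : ‖((Θ (z + c1) - Θ (z + c0)) - deriv Θ z * (c1 - c0)) + (Υ (z + c1) - Υ z) +
          (s (Θ (z + c1) + 20 * I + Υ (z + c1)) - s (Θ z + 20 * I)) -
          (s (Θ (z + c0)) - s (Θ z)) -
          deriv Θ z * ((s (Θ z) - s (Θ z + 20 * I)) / deriv Θ z - Mfun (R + δ / 2) E z)‖ ≤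
          γ ^ 2 / ‖z‖ ^ 2 + (ε / δ) * γ / ‖z‖ ^ 2 + 8000 * A * γ / δ ^ 2 / ‖z‖ ^ 2 +
          8000 * A * γ / δ ^ 2 / ‖z‖ ^ 2 + ε / 4 / ‖z‖ ^ 2 := by
        refine (norm_sub_le _ _).trans (add_le_add ?_ T5)
        refine (norm_sub_le _ _).trans (add_le_add ?_ T4)
        refine (norm_add_le _ _).trans (add_le_add ?_ T3)
        exact (norm_add_le _ _).trans (add_le_add T1 T2)
      refine hsum.trans ?_
      have e2 : γ ^ 2 / ‖z‖ ^ 2 + (ε / δ) * γ / ‖z‖ ^ 2 + 8000 * A * γ / δ ^ 2 / ‖z‖ ^ 2 +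
          8000 * A * γ / δ ^ 2 / ‖z‖ ^ 2 + ε / 4 / ‖z‖ ^ 2 =
          (γ ^ 2 + (ε / δ) * γ + 16000 * A * γ / δ ^ 2 + ε / 4) / ‖z‖ ^ 2 := by ring
      rw [e2]
      gcongr
      -- numeric inequality
      have hx : ε / δ ^ 4 ≤ 1 / 10 ^ 9 := by
        rw [div_le_iff₀ (by positivity)]
        linarith
      have n1 : γ ^ 2 = 50410000 * ε * (ε / δ ^ 4) := by
        rw [hγ]
        field_simp
        ring
      have n2 : (ε / δ) * γ ≤ 7100 * ε * (ε / δ ^ 4) := by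
        have : (ε / δ) * γ = 7100 * ε * (ε / δ ^ 4) * δ := by
          rw [hγ]
          field_simp
        rw [this]
        have : 0 ≤ 7100 * ε * (ε / δ ^ 4) := by positivity
        nlinarith
      have n3 : 16000 * A * γ / δ ^ 2 = 114736000 * ε * (ε / δ ^ 4) := by
        rw [hγ, hA]
        field_simp
        ring
      rw [n1, n3]
      have n4 : ε * (ε / δ ^ 4) ≤ ε * (1 / 10 ^ 9) := by gcongr
      nlinarith
end Pool.Agent.Lib.MP_40a019_an
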