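import Mathlib
import Pool.Agent.Lib.MP_40a019_an.Newton

/-!
The iteration and its limit.
-/

set_option autoImplicit false

namespace Pool.Agent.Lib.MP_40a019_an

open Set Filter Topology Metric Complex MeasureTheory
open scoped Real Interval

noncomputable def δk (k : ℕ) : ℝ := 1 / 100 * (9 / 10) ^ k
noncomputable def Rk (k : ℕ) : ℝ := 20 + 2 / 5 * (1 - (9 / 10) ^ k)
noncomputable def κk (k : ℕ) : ℝ := 1 / 100000 * (1 - (4 / 5) ^ k)
noncomputable def εk (k : ℕ) : ℝ := 1 / 10 ^ 18 * (1 / 2) ^ k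
noncomputable def bk (k : ℕ) : ℝ := 1 - (4 / 5) ^ k

lemma δk_pos (k : ℕ) : 0 < δk k := by unfold δk; positivity
lemma εk_pos (k : ℕ) : 0 < εk k := by unfold εk; positivity

lemma εk_le (k : ℕ) : εk k ≤ 1 / 10 ^ 10 * (4 / 5) ^ k * δk k ^ 4 := by
  unfold εk δk
  have h1 : ((1:ℝ) / 2) ^ k ≤ (4 / 5) ^ k * ((9 / 10) ^ k) ^ 4 := by
    rw [← pow_mul, mul_comm k 4, pow_mul, ← mul_pow]
    apply pow_le_pow_left₀ (by norm_num)
    norm_num
  calc 1 / 10 ^ 18 * (1 / 2) ^ k ≤ 1 / 10 ^ 18 * ((4 / 5) ^ k * ((9 / 10 : ℝ) ^ k) ^ 4) := by gcongr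
    _ = _ := by ring

lemma pow45_le_one (k : ℕ) : ((4:ℝ) / 5) ^ k ≤ 1 := pow_le_one₀ (by norm_num) (by norm_num)
lemma pow45_pos (k : ℕ) : 0 < ((4:ℝ) / 5) ^ k := by positivity
lemma pow910_le_one (k : ℕ) : ((9:ℝ) / 10) ^ k ≤ 1 := pow_le_one₀ (by norm_num) (by norm_num)
lemma pow910_pos (k : ℕ) : 0 < ((9:ℝ) / 10) ^ k := by positivity

lemma δk_le (k : ℕ) : δk k ≤ 1 / 100 := by
  unfold δk
  linarith [pow910_le_one k]

lemma εk_le' (k : ℕ) : εk k ≤ δk k ^ 4 / 10 ^ 9 := by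
  refine (εk_le k).trans ?_
  have h1 := pow45_le_one k
  have h2 := pow_pos (δk_pos k) 4
  calc 1 / 10 ^ 10 * (4 / 5) ^ k * δk k ^ 4 ≤ 1 / 10 ^ 10 * 1 * δk k ^ 4 := by gcongr
    _ ≤ _ := by linarith

lemma εδ4 (k : ℕ) : 7100 * εk k / δk k ^ 4 ≤ 1 / 100000 * (1 / 5 * (4 / 5) ^ k) := by
  have h2 := pow_pos (δk_pos k) 4
  rw [div_le_iff₀ h2]
  have h1 := εk_le k
  have h3 : 0 < (4 / 5 : ℝ) ^ k * δk k ^ 4 := by positivity
  nlinarith

lemma εδ2 (k : ℕ) : 7100 * εk k / δk k ^ 2 ≤ 1 / 100000 * (1 / 5 * (4 / 5) ^ k) := by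
  refine le_trans ?_ (εδ4 k)
  have h0 := δk_pos k
  have h1 : δk k ^ 4 ≤ δk k ^ 2 :=
    pow_le_pow_of_le_one h0.le (by linarith [δk_le k]) (by norm_num)
  have h2 := εk_pos k
  gcongr

lemma Rk_succ (k : ℕ) : Rk k + 4 * δk k = Rk (k + 1) := by
  unfold Rk δk
  rw [pow_succ]
  ring

lemma κk_succ (k : ℕ) : κk k + 7100 * εk k / δk k ^ 4 ≤ κk (k + 1) := by
  have h1 := εδ4 k
  have h2 : κk (k + 1) = κk k + 1 / 100000 * (1 / 5 * (4 / 5) ^ k) := by
    unfold κk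
    rw [pow_succ]
    ring
  linarith

lemma bk_succ (k : ℕ) : bk (k + 1) = bk k + 1 / 5 * (4 / 5) ^ k := by
  unfold bk
  rw [pow_succ]
  ring

lemma εk_succ (k : ℕ) : εk k / 2 = εk (k + 1) := by
  unfold εk
  rw [pow_succ]
  ring

lemma εk_small (k : ℕ) : 2 * εk k ≤ 1 / 100000 * (1 / 5 * (4 / 5) ^ k) := by
  have h1 : ((1:ℝ) / 2) ^ k ≤ (4 / 5) ^ k := pow_le_pow_left₀ (by norm_num) (by norm_num) k
  have h2 := pow45_pos k
  unfold εk
  nlinarith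

lemma bk_nonneg (k : ℕ) : 0 ≤ bk k := by
  unfold bk
  linarith [pow45_le_one k]

lemma bk_le (k : ℕ) : bk k ≤ 1 := by
  unfold bk
  linarith [pow45_pos k]

lemma κk_nonneg (k : ℕ) : 0 ≤ κk k := by
  unfold κk
  linarith [pow45_le_one k]

lemma κk_le (k : ℕ) : κk k ≤ 1 / 100000 := by
  unfold κk
  linarith [pow45_pos k]

lemma Rk_ge (k : ℕ) : 20 ≤ Rk k := by
  unfold Rk
  linarith [pow910_le_one k]

lemma Rk_le (k : ℕ) : Rk k ≤ 21 := by
  unfold Rk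
  linarith [pow910_pos k]

lemma Near.mono {R κ κ' : ℝ} {Θ : ℂ → ℂ} (h : Near R κ Θ) (hκ : κ ≤ κ') : Near R κ' Θ where
  diff := h.diff
  b0 := fun z hz => (h.b0 z hz).trans hκ
  b1 := fun z hz => (h.b1 z hz).trans hκ
  b2 := fun z hz => (h.b2 z hz).trans hκ

/-- A state of the iteration -/
structure St where
  Θ : ℂ → ℂ
  Υ : ℂ → ℂ
  φ : ℂ → ℂ
  υ : ℂ → ℂ

/-- The invariant -/
structure Good (F : ℂ → ℂ) (k : ℕ) (S : St) : Prop where
  near : Near (Rk k) (κk k) S.Θ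
  dec : Dec (Rk k) (εk k) S.Υ
  φd : ∀ ζ : ℂ, 100 + bk k < ‖ζ‖ → DifferentiableAt ℂ S.φ ζ ∧ ‖S.φ ζ - ζ‖ ≤ bk k
  υd : ∀ x : ℂ, 60 < ‖x‖ → DifferentiableAt ℂ S.υ x ∧ ‖S.υ x - x‖ ≤ bk k
  rel : ∀ η : ℂ, 102 + bk k < ‖η‖ → S.Θ η = S.υ (S.φ η) ∧
    S.υ (F (S.φ (η + 1))) = S.Θ η + 20 * I + S.Υ η

lemma mem_Dom_of_norm {R : ℝ} {z : ℂ} (h : 2 * R < ‖z‖) : z ∈ Dom R := by
  by_contra hc
  rw [mem_Dom] at hc
  push Not at hc
  have := Complex.norm_le_abs_re_add_abs_im z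
  linarith

lemma good_zero {F : ℂ → ℂ} (hF : ∀ ζ : ℂ, 10 < ‖ζ‖ → DifferentiableAt ℂ F ζ)
    (hb : ∀ ζ : ℂ, 10 < ‖ζ‖ → ‖F ζ - ζ - (-1 + 20 * I)‖ ≤ (1 / (2 * 10 ^ 18)) / ‖ζ‖ ^ 2) :
    Good F 0 ⟨fun z => z, fun z => F (z + 1) - z - 20 * I, fun z => z, fun z => z⟩ where
  near := by
    have h0 : κk 0 = 0 := by simp [κk]
    rw [h0]
    refine ⟨fun z _ => differentiableAt_id, fun z _ => by simp, fun z _ => by simp, fun z _ => ?_⟩
    have : deriv (fun z : ℂ => z) = fun _ => 1 := by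
      funext z
      simp
    simp only [this]
    simp
  dec := by
    have hR : Rk 0 = 20 := by simp [Rk]
    have hE : εk 0 = 1 / 10 ^ 18 := by simp [εk]
    rw [hR, hE]
    have hn : ∀ z ∈ Dom 20, 19 / 20 * ‖z‖ ≤ ‖z + 1‖ ∧ 20 < ‖z‖ := fun z hz => by
      have h1 := lt_norm_of_mem_Dom hz
      have h2 : ‖z‖ - 1 ≤ ‖z + 1‖ := by
        have := norm_sub_le (z + 1) 1
        rw [add_sub_cancel_right, norm_one] at this
        linarith
      exact ⟨by linarith, h1⟩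
    refine ⟨fun z hz => ?_, fun z hz => ?_⟩
    · obtain ⟨h1, h2⟩ := hn z hz
      have h3 : DifferentiableAt ℂ (fun z => F (z + 1)) z :=
        DifferentiableAt.comp (f := fun z : ℂ => z + 1) z (hF _ (by linarith)) (by fun_prop)
      exact (h3.sub differentiableAt_id).sub (differentiableAt_const _)
    · obtain ⟨h1, h2⟩ := hn z hz
      have h3 := hb (z + 1) (by linarith)
      have h4 : F (z + 1) - (z + 1) - (-1 + 20 * I) = F (z + 1) - z - 20 * I := by ring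
      rw [h4] at h3
      have hz0 : 0 < ‖z‖ := by linarith
      calc ‖F (z + 1) - z - 20 * I‖ ≤ (1 / (2 * 10 ^ 18)) / ‖z + 1‖ ^ 2 := h3
        _ ≤ (1 / (2 * 10 ^ 18)) / (19 / 20 * ‖z‖) ^ 2 := by gcongr
        _ = 200 / 361 * (1 / 10 ^ 18 / ‖z‖ ^ 2) := by
          field_simp
          ring
        _ ≤ 1 * (1 / 10 ^ 18 / ‖z‖ ^ 2) :=
          mul_le_mul_of_nonneg_right (by norm_num) (by positivity)
        _ = _ := one_mul _
  φd := fun ζ _ => ⟨differentiableAt_id, by simp [bk]⟩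
  υd := fun ζ _ => ⟨differentiableAt_id, by simp [bk]⟩
  rel := fun η _ => ⟨rfl, by simp only; ring⟩

lemma phi_lip {φ : ℂ → ℂ} (hφ : ∀ ζ : ℂ, 101 < ‖ζ‖ → DifferentiableAt ℂ φ ζ ∧ ‖φ ζ - ζ‖ ≤ 1)
    {ζ w : ℂ} (hζ : 104 < ‖ζ‖) (hw : ‖w‖ ≤ 1) : ‖φ (ζ + w) - φ ζ‖ ≤ 2 * ‖w‖ := by
  have hfar : ∀ z ∈ closedBall ζ 1, 103 < ‖z‖ := fun z hz => by
    have h1 : ‖z - ζ‖ ≤ 1 := by simpa [dist_eq_norm] using hz
    have h2 := norm_sub_norm_le ζ z
    rw [norm_sub_rev] at h2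
    linarith
  have h1 : ∀ z ∈ closedBall ζ 1, DifferentiableAt ℂ (fun z => φ z - z) z := fun z hz =>
    (hφ z (by linarith [hfar z hz])).1.sub differentiableAt_id
  have h2 : ∀ z ∈ closedBall ζ 1, ‖deriv (fun z => φ z - z) z‖ ≤ 1 := by
    intro z hz
    have hD : ∀ y ∈ closedBall z 1, 102 < ‖y‖ := fun y hy => by
      have h1 : ‖y - z‖ ≤ 1 := by simpa [dist_eq_norm] using hy
      have h2 := norm_sub_norm_le z y
      rw [norm_sub_rev] at h2
      linarith [hfar z hz]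
    have h3 : ‖deriv (fun z => φ z - z) z‖ ≤ 1 / 1 := by
      refine norm_deriv_le_of_forall_mem_sphere_norm_le one_pos ?_ ?_
      · exact DifferentiableOn.diffContOnCl_ball (U := closedBall z 1)
          (fun y hy => ((hφ y (by linarith [hD y hy])).1.sub
            differentiableAt_id).differentiableWithinAt) subset_rfl
      · intro y hy
        exact (hφ y (by linarith [hD y (sphere_subset_closedBall hy)])).2
    simpa using h3
  have h3 := (convex_closedBall ζ 1).norm_image_sub_le_of_norm_deriv_le h1 h2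
    (mem_closedBall_self zero_le_one) (y := ζ + w) (by simpa [dist_eq_norm] using hw)
  rw [add_sub_cancel_left, one_mul] at h3
  calc ‖φ (ζ + w) - φ ζ‖ = ‖(φ (ζ + w) - (ζ + w) - (φ ζ - ζ)) + w‖ := by congr 1; ring
    _ ≤ ‖φ (ζ + w) - (ζ + w) - (φ ζ - ζ)‖ + ‖w‖ := norm_add_le _ _
    _ ≤ 2 * ‖w‖ := by linarith

lemma good_succ {F : ℂ → ℂ} {k : ℕ} {S : St} (hS : Good F k S) : ∃ S' : St, Good F (k + 1) S' ∧
      (∀ ζ : ℂ, 104 < ‖ζ‖ → ‖S'.φ ζ - S.φ ζ‖ ≤ (4 / 5) ^ k) ∧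
      (∀ x : ℂ, 60 < ‖x‖ → ‖S'.υ x - S.υ x‖ ≤ (4 / 5) ^ k) := by
  obtain ⟨c, s, hc, hs, hN, hD⟩ := step (Rk_ge k) (Rk_le k) (κk_nonneg k) (κk_le k) (δk_pos k)
    (by linarith [δk_le k]) (εk_le' k) hS.near hS.dec
  have hcs : ∀ z : ℂ, 100 < ‖z‖ → DifferentiableAt ℂ c z ∧
      ‖c z‖ ≤ 1 / 100000 * (1 / 5 * (4 / 5) ^ k) := fun z hz => by
    have h1 : z ∈ Dom (Rk k + δk k) := mem_Dom_of_norm (by linarith [Rk_le k, δk_le k])
    exact ⟨(hc z h1).1, (hc z h1).2.trans (εδ2 k)⟩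
  have hss : ∀ x : ℂ, 50 ≤ ‖x‖ → DifferentiableAt ℂ s x ∧
      ‖s x‖ ≤ 1 / 100000 * (1 / 5 * (4 / 5) ^ k) := fun x hx =>
    ⟨(hs x hx).1, (hs x hx).2.trans (εk_small k)⟩
  have hp := pow45_pos k
  have hp1 := pow45_le_one k
  have hb0 := bk_nonneg k
  have hb1 := bk_le k
  have hbs := bk_succ k
  have hυ50 : ∀ x : ℂ, 60 < ‖x‖ → 50 ≤ ‖S.υ x‖ := fun x hx => by
    have h1 := (hS.υd x hx).2
    have h2 := norm_sub_norm_le x (S.υ x)
    rw [norm_sub_rev] at h2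
    linarith
  refine ⟨⟨fun η => S.Θ (η + c η) + s (S.Θ (η + c η)),
    fun η => S.Θ (η + c (η + 1)) - S.Θ (η + c η) + S.Υ (η + c (η + 1)) +
      s (S.Θ (η + c (η + 1)) + 20 * I + S.Υ (η + c (η + 1))) - s (S.Θ (η + c η)),
    fun η => S.φ (η + c η), fun x => S.υ x + s (S.υ x)⟩, ⟨?_, ?_, ?_, ?_, ?_⟩, ?_, ?_⟩
  · rw [← Rk_succ]
    exact hN.mono (κk_succ k)
  · rw [← Rk_succ, ← εk_succ]
    exact hD
  · intro ζ hζ
    rw [hbs] at hζ ⊢
    obtain ⟨h1, h2⟩ := hcs ζ (by linarith)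
    have h3 : 100 + bk k < ‖ζ + c ζ‖ := by
      have h4 := norm_sub_le (ζ + c ζ) (c ζ)
      rw [add_sub_cancel_right] at h4
      linarith
    obtain ⟨h5, h6⟩ := hS.φd _ h3
    refine ⟨?_, ?_⟩
    · exact DifferentiableAt.comp (f := fun η : ℂ => η + c η) ζ h5 (differentiableAt_id.add h1)
    · have h7 : S.φ (ζ + c ζ) - ζ = (S.φ (ζ + c ζ) - (ζ + c ζ)) + c ζ := by ring
      simp only
      rw [h7]
      refine (norm_add_le _ _).trans ?_
      linarith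
  · intro x hx
    rw [hbs]
    obtain ⟨h1, h2⟩ := hS.υd x hx
    obtain ⟨h3, h4⟩ := hss _ (hυ50 x hx)
    refine ⟨?_, ?_⟩
    · have h5 : DifferentiableAt ℂ (fun x => s (S.υ x)) x :=
        DifferentiableAt.comp (f := S.υ) x h3 h1
      exact h1.add h5
    · have h7 : S.υ x + s (S.υ x) - x = (S.υ x - x) + s (S.υ x) := by ring
      simp only
      rw [h7]
      refine (norm_add_le _ _).trans ?_
      linarith
  · intro η hη
    rw [hbs] at hη
    have h1 := (hcs η (by linarith)).2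
    have hη1 : 101 + bk k < ‖η + 1‖ := by
      have h4 := norm_sub_le (η + 1) 1
      rw [add_sub_cancel_right, norm_one] at h4
      linarith
    have h2 := (hcs (η + 1) (by linarith)).2
    have h3 : 102 + bk k < ‖η + c η‖ := by
      have h4 := norm_sub_le (η + c η) (c η)
      rw [add_sub_cancel_right] at h4
      linarith
    have h4 : 102 + bk k < ‖η + c (η + 1)‖ := by
      have h4 := norm_sub_le (η + c (η + 1)) (c (η + 1))
      rw [add_sub_cancel_right] at h4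
      linarith
    obtain ⟨r1, _⟩ := hS.rel _ h3
    obtain ⟨_, r2⟩ := hS.rel _ h4
    have e1 : η + 1 + c (η + 1) = η + c (η + 1) + 1 := by ring
    refine ⟨?_, ?_⟩
    · simp only
      rw [r1]
    · simp only
      rw [e1, r2]
      ring
  · intro ζ hζ
    have h1 := (hcs ζ (by linarith)).2
    have h2 := phi_lip (φ := S.φ) (fun ζ hζ => ⟨(hS.φd ζ (by linarith)).1,
      ((hS.φd ζ (by linarith)).2).trans hb1⟩) hζ (w := c ζ) (by linarith)
    simp only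
    linarith
  · intro x hx
    have h4 := (hss _ (hυ50 x hx)).2
    simp only [add_sub_cancel_left]
    linarith

/-- the sequence of states -/
lemma exists_seq {F : ℂ → ℂ} (hF : ∀ ζ : ℂ, 10 < ‖ζ‖ → DifferentiableAt ℂ F ζ)
    (hb : ∀ ζ : ℂ, 10 < ‖ζ‖ → ‖F ζ - ζ - (-1 + 20 * I)‖ ≤ (1 / (2 * 10 ^ 18)) / ‖ζ‖ ^ 2) :
    ∃ S : ℕ → St, (∀ k, Good F k (S k)) ∧ ∀ k,
      (∀ ζ : ℂ, 104 < ‖ζ‖ → ‖(S (k + 1)).φ ζ - (S k).φ ζ‖ ≤ (4 / 5) ^ k) ∧
      (∀ x : ℂ, 60 < ‖x‖ → ‖(S (k + 1)).υ x - (S k).υ x‖ ≤ (4 / 5) ^ k) := by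
  classical
  let nxt : ∀ k : ℕ, {S : St // Good F k S} → {S : St // Good F (k + 1) S} := fun k S =>
    ⟨Classical.choose (good_succ S.2), (Classical.choose_spec (good_succ S.2)).1⟩
  let f : ∀ k : ℕ, {S : St // Good F k S} := fun k =>
    Nat.rec ⟨_, good_zero hF hb⟩ (fun k S => nxt k S) k
  refine ⟨fun k => (f k).1, fun k => (f k).2, fun k => ?_⟩
  exact (Classical.choose_spec (good_succ (f k).2)).2

/-- limits of geometrically convergent sequences of holomorphic functions -/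
lemma limit_fun {f : ℕ → ℂ → ℂ} {U : Set ℂ} (hU : IsOpen U)
    (hd : ∀ k, ∀ z ∈ U, DifferentiableAt ℂ (f k) z)
    (hg : ∀ k, ∀ z ∈ U, ‖f (k + 1) z - f k z‖ ≤ (4 / 5) ^ k) :
    ∃ g : ℂ → ℂ, (∀ z ∈ U, DifferentiableAt ℂ g z) ∧ TendstoLocallyUniformlyOn f g atTop U := by
  have hc : ∀ z ∈ U, CauchySeq fun k => f k z := fun z hz => by
    refine cauchySeq_of_le_geometric (4 / 5) 1 (by norm_num) fun k => ?_
    rw [one_mul, dist_comm, dist_eq_norm]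
    exact hg k z hz
  have hc' : ∀ z : ℂ, ∃ l : ℂ, z ∈ U → Tendsto (fun k => f k z) atTop (𝓝 l) := fun z => by
    by_cases hz : z ∈ U
    · obtain ⟨l, hl⟩ := cauchySeq_tendsto_of_complete (hc z hz)
      exact ⟨l, fun _ => hl⟩
    · exact ⟨0, fun h => absurd h hz⟩
  choose g hlim using hc'
  have hrate : ∀ k, ∀ z ∈ U, dist (f k z) (g z) ≤ 1 * (4 / 5) ^ k / (1 - 4 / 5) := fun k z hz => by
    refine dist_le_of_le_geometric_of_tendsto (4 / 5) 1 (by norm_num) (fun k => ?_) (hlim z hz) k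
    rw [one_mul, dist_comm, dist_eq_norm]
    exact hg k z hz
  have hunif : TendstoUniformlyOn f g atTop U := by
    rw [Metric.tendstoUniformlyOn_iff]
    intro ε hε
    have h0 : Tendsto (fun k : ℕ => 1 * ((4:ℝ) / 5) ^ k / (1 - 4 / 5)) atTop (𝓝 (1 * 0 / (1 - 4 / 5))) :=
      ((tendsto_pow_atTop_nhds_zero_of_lt_one (by norm_num) (by norm_num)).const_mul 1).div_const _
    rw [mul_zero, zero_div] at h0
    filter_upwards [h0.eventually (gt_mem_nhds hε)] with k hk z hz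
    rw [dist_comm]
    exact (hrate k z hz).trans_lt hk
  have hloc := hunif.tendstoLocallyUniformlyOn
  refine ⟨g, fun z hz => ?_, hloc⟩
  have h1 := hloc.differentiableOn (Eventually.of_forall fun k z hz =>
    (hd k z hz).differentiableWithinAt) hU
  exact h1.differentiableAt (hU.mem_nhds hz)

/-- **Core theorem**: a map close to the translation by `-1 + 20 i` near infinity is the composition
of a map conjugate to the translation by `20 i` and a map conjugate to the translation by `-1`. -/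
theorem core : ∃ ε₀ : ℝ, 0 < ε₀ ∧ ∀ F : ℂ → ℂ,
    (∀ ζ : ℂ, 10 < ‖ζ‖ → DifferentiableAt ℂ F ζ) →
    (∀ ζ : ℂ, 10 < ‖ζ‖ → ‖F ζ - ζ - (-1 + 20 * I)‖ ≤ ε₀ / ‖ζ‖ ^ 2) →
    ∃ (φ υ : ℂ → ℂ) (R₁ : ℝ),
      (∀ ζ : ℂ, R₁ < ‖ζ‖ → DifferentiableAt ℂ φ ζ ∧ DifferentiableAt ℂ υ ζ ∧
        ‖φ ζ - ζ‖ ≤ 1 ∧ ‖υ ζ - ζ‖ ≤ 1) ∧
      ∀ η : ℂ, R₁ < ‖η‖ → υ (F (φ (η + 1))) = υ (φ η) + 20 * I := by
  refine ⟨1 / (2 * 10 ^ 18), by positivity, fun F hF hb => ?_⟩
  obtain ⟨S, hS, hdS⟩ := exists_seq hF hb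
  set U : Set ℂ := {z : ℂ | 104 < ‖z‖} with hU
  set V : Set ℂ := {z : ℂ | 60 < ‖z‖} with hV
  have hUo : IsOpen U := isOpen_lt continuous_const continuous_norm
  have hVo : IsOpen V := isOpen_lt continuous_const continuous_norm
  obtain ⟨φ, hφd, hφl⟩ := limit_fun (f := fun k => (S k).φ) hUo
    (fun k z hz => ((hS k).φd z (by
      have := bk_le k
      have h2 : 104 < ‖z‖ := hz
      linarith)).1) (fun k z hz => (hdS k).1 z hz)
  obtain ⟨υ, hυd, hυl⟩ := limit_fun (f := fun k => (S k).υ) hVo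
    (fun k z hz => ((hS k).υd z hz).1) (fun k z hz => (hdS k).2 z hz)
  have hφt : ∀ z ∈ U, Tendsto (fun k => (S k).φ z) atTop (𝓝 (φ z)) := fun z hz =>
    hφl.tendsto_at hz
  have hυt : ∀ z ∈ V, Tendsto (fun k => (S k).υ z) atTop (𝓝 (υ z)) := fun z hz =>
    hυl.tendsto_at hz
  have hφb : ∀ z ∈ U, ‖φ z - z‖ ≤ 1 := fun z hz => by
    refine le_of_tendsto ((hφt z hz).sub_const z).norm (Eventually.of_forall fun k => ?_)
    refine ((hS k).φd z (by
      have := bk_le k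
      have h2 : 104 < ‖z‖ := hz
      linarith)).2.trans (bk_le k)
  have hυb : ∀ z ∈ V, ‖υ z - z‖ ≤ 1 := fun z hz => by
    refine le_of_tendsto ((hυt z hz).sub_const z).norm (Eventually.of_forall fun k => ?_)
    exact ((hS k).υd z hz).2.trans (bk_le k)
  have hUV : U ⊆ V := fun z hz => by
    have h2 : 104 < ‖z‖ := hz
    show 60 < ‖z‖
    linarith
  refine ⟨φ, υ, 200, fun ζ hζ => ?_, fun η hη => ?_⟩
  · have h1 : ζ ∈ U := by show 104 < ‖ζ‖; linarith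
    exact ⟨hφd ζ h1, hυd ζ (hUV h1), hφb ζ h1, hυb ζ (hUV h1)⟩
  · have hη1 : 199 < ‖η + 1‖ := by
      have h4 := norm_sub_le (η + 1) 1
      rw [add_sub_cancel_right, norm_one] at h4
      linarith
    have m0 : η ∈ U := by show 104 < ‖η‖; linarith
    have m1 : η + 1 ∈ U := by show 104 < ‖η + 1‖; linarith
    -- the points
    have n0 : 198 < ‖φ η‖ := by
      have h1 := hφb η m0
      have h2 := norm_sub_norm_le η (φ η)
      rw [norm_sub_rev] at h2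
      linarith
    have n1 : 198 ≤ ‖φ (η + 1)‖ := by
      have h1 := hφb _ m1
      have h2 := norm_sub_norm_le (η + 1) (φ (η + 1))
      rw [norm_sub_rev] at h2
      linarith
    have n2 : 100 < ‖F (φ (η + 1))‖ := by
      have h1 := hb (φ (η + 1)) (by linarith)
      have h2 : (1 / (2 * 10 ^ 18)) / ‖φ (η + 1)‖ ^ 2 ≤ 1 := by
        rw [div_le_one (by positivity)]
        have : (1:ℝ) ≤ ‖φ (η + 1)‖ ^ 2 := by nlinarith
        have h9 : (1:ℝ) / (2 * 10 ^ 18) ≤ 1 := by norm_num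
        linarith
      have h3 : ‖(-1 + 20 * I : ℂ)‖ ≤ 21 := by
        refine (norm_add_le _ _).trans ?_
        simp
        norm_num
      have h4 : ‖φ (η + 1)‖ ≤ ‖F (φ (η + 1))‖ + (1 + 21) := by
        have h5 : φ (η + 1) = F (φ (η + 1)) - ((F (φ (η + 1)) - φ (η + 1) - (-1 + 20 * I)) +
          (-1 + 20 * I)) := by ring
        calc ‖φ (η + 1)‖ = ‖F (φ (η + 1)) - ((F (φ (η + 1)) - φ (η + 1) - (-1 + 20 * I)) +
          (-1 + 20 * I))‖ := by rw [← h5]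
          _ ≤ ‖F (φ (η + 1))‖ + ‖(F (φ (η + 1)) - φ (η + 1) - (-1 + 20 * I)) +
            (-1 + 20 * I)‖ := norm_sub_le _ _
          _ ≤ _ := by
            gcongr
            refine (norm_add_le _ _).trans ?_
            linarith
      linarith
    have v0 : φ η ∈ V := by show 60 < ‖φ η‖; linarith
    have v1 : F (φ (η + 1)) ∈ V := by show 60 < ‖F (φ (η + 1))‖; linarith
    have t0 : Tendsto (fun k => (S k).φ η) atTop (𝓝 (φ η)) := hφt η m0
    have t1 : Tendsto (fun k => F ((S k).φ (η + 1))) atTop (𝓝 (F (φ (η + 1)))) :=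
      (hF _ (by linarith)).continuousAt.tendsto.comp (hφt _ m1)
    have t0' : Tendsto (fun k => (S k).φ η) atTop (𝓝[V] (φ η)) :=
      tendsto_nhdsWithin_iff.mpr ⟨t0, t0.eventually (hVo.mem_nhds v0)⟩
    have t1' : Tendsto (fun k => F ((S k).φ (η + 1))) atTop (𝓝[V] (F (φ (η + 1)))) :=
      tendsto_nhdsWithin_iff.mpr ⟨t1, t1.eventually (hVo.mem_nhds v1)⟩
    have l0 : Tendsto (fun k => (S k).υ ((S k).φ η)) atTop (𝓝 (υ (φ η))) :=
      hυl.tendsto_comp (hυd _ v0).continuousAt.continuousWithinAt v0 t0'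
    have l1 : Tendsto (fun k => (S k).υ (F ((S k).φ (η + 1)))) atTop (𝓝 (υ (F (φ (η + 1))))) :=
      hυl.tendsto_comp (hυd _ v1).continuousAt.continuousWithinAt v1 t1'
    have lΥ : Tendsto (fun k => (S k).Υ η) atTop (𝓝 0) := by
      refine squeeze_zero_norm (a := fun k => 1 / 10 ^ 18 * (1 / 2) ^ k) (fun k => ?_) ?_
      · have h1 : η ∈ Dom (Rk k) := mem_Dom_of_norm (by linarith [Rk_le k])
        refine ((hS k).dec.bound η h1).trans ?_
        have h2 : εk k = 1 / 10 ^ 18 * (1 / 2) ^ k := rfl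
        rw [← h2, div_le_iff₀ (by positivity)]
        have h3 := εk_pos k
        have h4 : (1:ℝ) ≤ ‖η‖ ^ 2 := by nlinarith
        nlinarith
      · have := (tendsto_pow_atTop_nhds_zero_of_lt_one (r := (1:ℝ) / 2) (by norm_num)
          (by norm_num)).const_mul (1 / 10 ^ 18)
        simpa using this
    have heq : ∀ k, (S k).υ (F ((S k).φ (η + 1))) = (S k).υ ((S k).φ η) + 20 * I + (S k).Υ η := by
      intro k
      obtain ⟨h1, h2⟩ := (hS k).rel η (by linarith [bk_le k])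
      rw [h2, h1]
    have l2 : Tendsto (fun k => (S k).υ ((S k).φ η) + 20 * I + (S k).Υ η) atTop
        (𝓝 (υ (φ η) + 20 * I + 0)) := (l0.add_const _).add lΥ
    rw [add_zero] at l2
    refine tendsto_nhds_unique l1 ?_
    simpa only [heq] using l2

end Pool.Agent.Lib.MP_40a019_an
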