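import Mathlib

/-!
Invertible holomorphic germs at `0` and products of involutions.
-/

set_option autoImplicit false

namespace Pool.Agent.Lib.MP_40a019_an

open Set Filter Topology

/-- `f` represents an invertible holomorphic germ `(ℂ, 0) → (ℂ, 0)`. -/
structure IsGerm (f : ℂ → ℂ) : Prop where
  an : AnalyticAt ℂ f 0
  zero : f 0 = 0
  der : deriv f 0 ≠ 0

/-- `τ` represents an involutive germ (the identity is allowed). -/
structure IsInvol (τ : ℂ → ℂ) : Prop where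
  germ : IsGerm τ
  inv : ∀ᶠ z in 𝓝 (0 : ℂ), τ (τ z) = z

/-- `ProdInv n f`: near `0`, `f` is a composition of `n` involutive germs. -/
def ProdInv : ℕ → (ℂ → ℂ) → Prop
  | 0, f => ∀ᶠ z in 𝓝 (0 : ℂ), f z = z
  | n + 1, f => ∃ τ g : ℂ → ℂ, IsInvol τ ∧ ProdInv n g ∧ ∀ᶠ z in 𝓝 (0 : ℂ), f z = τ (g z)

lemma IsGerm.tendsto {f : ℂ → ℂ} (hf : IsGerm f) : Tendsto f (𝓝 0) (𝓝 0) := by
  have := hf.an.continuousAt.tendsto
  rwa [hf.zero] at this

lemma IsGerm.congr {f g : ℂ → ℂ} (hf : IsGerm f) (h : ∀ᶠ z in 𝓝 (0 : ℂ), g z = f z) :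
    IsGerm g where
  an := hf.an.congr (h.mono fun _ hz => hz.symm)
  zero := by rw [h.self_of_nhds, hf.zero]
  der := by
    have : g =ᶠ[𝓝 0] f := h
    rw [this.deriv_eq]
    exact hf.der

lemma isGerm_id : IsGerm (fun z => z) := ⟨analyticAt_id, rfl, by simp⟩

lemma IsGerm.deriv_comp {f g : ℂ → ℂ} (hf : IsGerm f) (hg : IsGerm g) :
    deriv (fun z => f (g z)) 0 = deriv f 0 * deriv g 0 := by
  have h1 : HasDerivAt f (deriv f 0) (g 0) := by
    rw [hg.zero]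
    exact hf.an.differentiableAt.hasDerivAt
  exact (h1.comp (0:ℂ) hg.an.differentiableAt.hasDerivAt).deriv

lemma IsGerm.comp {f g : ℂ → ℂ} (hf : IsGerm f) (hg : IsGerm g) : IsGerm (fun z => f (g z)) where
  an := by
    have h1 : AnalyticAt ℂ f (g 0) := by rw [hg.zero]; exact hf.an
    exact h1.fun_comp hg.an
  zero := by rw [hg.zero, hf.zero]
  der := by
    rw [hf.deriv_comp hg]
    exact mul_ne_zero hf.der hg.der

lemma IsGerm.exists_inv {f : ℂ → ℂ} (hf : IsGerm f) : ∃ g : ℂ → ℂ, IsGerm g ∧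
    (∀ᶠ z in 𝓝 (0 : ℂ), f (g z) = z) ∧ (∀ᶠ z in 𝓝 (0 : ℂ), g (f z) = z) := by
  have hs := hf.an.hasStrictDerivAt
  set g := hs.localInverse _ _ _ hf.der with hg
  have h1 : AnalyticAt ℂ g 0 := by
    have := hf.an.analyticAt_localInverse hf.der
    rwa [hf.zero] at this
  have h2 : ∀ᶠ z in 𝓝 (0 : ℂ), g (f z) = z := HasStrictDerivAt.eventually_left_inverse hs hf.der
  have h3 : ∀ᶠ z in 𝓝 (0 : ℂ), f (g z) = z := by
    have := HasStrictDerivAt.eventually_right_inverse hs hf.der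
    rwa [hf.zero] at this
  have h4 : g 0 = 0 := by
    have := h2.self_of_nhds
    rwa [hf.zero] at this
  refine ⟨g, ⟨h1, h4, ?_⟩, h3, h2⟩
  intro h5
  have h6 : HasDerivAt f (deriv f 0) (g 0) := by
    rw [h4]
    exact hf.an.differentiableAt.hasDerivAt
  have h7 := h6.comp (0:ℂ) h1.differentiableAt.hasDerivAt
  rw [h5, mul_zero] at h7
  have h8 : HasDerivAt (fun z : ℂ => z) 0 0 := h7.congr_of_eventuallyEq (h3.mono fun _ hz => hz.symm)
  have h9 := h8.unique (hasDerivAt_id (0:ℂ))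
  exact zero_ne_one h9

lemma isInvol_id : IsInvol (fun z => z) := ⟨isGerm_id, Eventually.of_forall fun _ => rfl⟩

lemma ProdInv.isGerm : ∀ {n : ℕ} {f : ℂ → ℂ}, ProdInv n f → IsGerm f
  | 0, _, h => isGerm_id.congr h
  | _ + 1, _, ⟨_, _, hτ, hg, h⟩ => (hτ.germ.comp hg.isGerm).congr h

lemma ProdInv.congr {n : ℕ} {f g : ℂ → ℂ} (hf : ProdInv n f) (h : ∀ᶠ z in 𝓝 (0 : ℂ), g z = f z) :
    ProdInv n g := by
  cases n with
  | zero =>
    show ∀ᶠ z in 𝓝 (0 : ℂ), g z = z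
    filter_upwards [h, (show ∀ᶠ z in 𝓝 (0 : ℂ), f z = z from hf)] with z h1 h2
    rw [h1, h2]
  | succ n =>
    obtain ⟨τ, k, hτ, hk, hfk⟩ := hf
    refine ⟨τ, k, hτ, hk, ?_⟩
    filter_upwards [h, hfk] with z h1 h2
    rw [h1, h2]

lemma ProdInv.succ {n : ℕ} {f : ℂ → ℂ} (hf : ProdInv n f) : ProdInv (n + 1) f :=
  ⟨fun z => z, f, isInvol_id, hf, Eventually.of_forall fun _ => rfl⟩

lemma ProdInv.mono {m n : ℕ} (h : m ≤ n) {f : ℂ → ℂ} (hf : ProdInv m f) : ProdInv n f := by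
  induction h with
  | refl => exact hf
  | step _ ih => exact ih.succ

lemma IsInvol.prodInv {τ : ℂ → ℂ} (h : IsInvol τ) : ProdInv 1 τ :=
  ⟨τ, fun z => z, h, (Eventually.of_forall fun _ => rfl : ∀ᶠ z in 𝓝 (0 : ℂ), z = z),
    Eventually.of_forall fun _ => rfl⟩

lemma ProdInv.comp : ∀ {m n : ℕ} {f g : ℂ → ℂ}, ProdInv m f → ProdInv n g →
    ProdInv (m + n) (fun z => f (g z))
  | 0, n, f, g, hf, hg => by
    rw [zero_add]
    refine hg.congr ?_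
    exact hg.isGerm.tendsto.eventually (show ∀ᶠ z in 𝓝 (0 : ℂ), f z = z from hf)
  | m + 1, n, f, g, ⟨τ, k, hτ, hk, h⟩, hg => by
    have h1 : m + 1 + n = (m + n) + 1 := by ring
    rw [h1]
    refine ⟨τ, fun z => k (g z), hτ, hk.comp hg, ?_⟩
    exact hg.isGerm.tendsto.eventually h

/-- conjugation: if `h` and `h'` are inverse germs then `h' ∘ f ∘ h` is again a product of `n`
involutions. -/
lemma ProdInv.conj {h h' : ℂ → ℂ} (hh : IsGerm h) (hh' : IsGerm h')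
    (e1 : ∀ᶠ z in 𝓝 (0 : ℂ), h (h' z) = z) (e2 : ∀ᶠ z in 𝓝 (0 : ℂ), h' (h z) = z) :
    ∀ {n : ℕ} {f : ℂ → ℂ}, ProdInv n f → ProdInv n (fun z => h' (f (h z)))
  | 0, f, hf => by
    have h1 : ∀ᶠ z in 𝓝 (0 : ℂ), f (h z) = h z :=
      hh.tendsto.eventually (show ∀ᶠ z in 𝓝 (0 : ℂ), f z = z from hf)
    show ∀ᶠ z in 𝓝 (0 : ℂ), h' (f (h z)) = z
    filter_upwards [h1, e2] with z h2 h3
    rw [h2, h3]
  | n + 1, f, ⟨τ, g, hτ, hg, hf⟩ => by
    refine ⟨fun z => h' (τ (h z)), fun z => h' (g (h z)), ⟨hh'.comp (hτ.germ.comp hh), ?_⟩,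
      hg.conj hh hh' e1 e2, ?_⟩
    · have h1 : ∀ᶠ z in 𝓝 (0 : ℂ), h (h' (τ (h z))) = τ (h z) :=
        (hτ.germ.comp hh).tendsto.eventually e1
      have h2 : ∀ᶠ z in 𝓝 (0 : ℂ), τ (τ (h z)) = h z := hh.tendsto.eventually hτ.inv
      filter_upwards [h1, h2, e2] with z h3 h4 h5
      rw [h3, h4, h5]
    · have h1 : ∀ᶠ z in 𝓝 (0 : ℂ), h (h' (g (h z))) = g (h z) :=
        (hg.isGerm.comp hh).tendsto.eventually e1
      have h2 : ∀ᶠ z in 𝓝 (0 : ℂ), f (h z) = τ (g (h z)) := hh.tendsto.eventually hf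
      filter_upwards [h1, h2] with z h3 h4
      rw [h3, h4]

end Pool.Agent.Lib.MP_40a019_an
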