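import Mathlib
import Pool.Agent.Lib.MP_40a019_an.Germ

/-!
The chart at infinity.
-/

set_option autoImplicit false

namespace Pool.Agent.Lib.MP_40a019_an

open Set Filter Topology

/-- the germ at `0` of a map defined near infinity -/
noncomputable def chart (G : ℂ → ℂ) (z : ℂ) : ℂ := if z = 0 then 0 else (G z⁻¹)⁻¹

lemma chart_zero (G : ℂ → ℂ) : chart G 0 = 0 := by simp [chart]

lemma chart_ne (G : ℂ → ℂ) {z : ℂ} (hz : z ≠ 0) : chart G z = (G z⁻¹)⁻¹ := by simp [chart, hz]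

/-- `G` is holomorphic near infinity and `G ζ = m ζ + O(1)`. -/
structure AtInf (m : ℂ) (G : ℂ → ℂ) : Prop where
  ne : m ≠ 0
  ex : ∃ R C : ℝ, ∀ ζ : ℂ, R < ‖ζ‖ → DifferentiableAt ℂ G ζ ∧ ‖G ζ - m * ζ‖ ≤ C

lemma eventually_inv_large (R : ℝ) : ∀ᶠ z in 𝓝 (0 : ℂ), z ≠ 0 → R < ‖z⁻¹‖ := by
  have h1 : ∀ᶠ z in 𝓝 (0 : ℂ), ‖z‖ < 1 / (|R| + 1) := by
    have : Tendsto (fun z : ℂ => ‖z‖) (𝓝 0) (𝓝 0) := by simpa using tendsto_norm_zero (E := ℂ)
    exact this.eventually (gt_mem_nhds (by positivity))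
  filter_upwards [h1] with z hz hz0
  have h2 : 0 < ‖z‖ := norm_pos_iff.mpr hz0
  rw [norm_inv]
  have h3 : |R| + 1 < ‖z‖⁻¹ := by
    rw [lt_inv_comm₀ (by positivity) h2, ← one_div]
    exact hz
  linarith [le_abs_self R]

/-- A property valid near infinity gives an eventual property at `0`. -/
lemma eventually_of_inf {P : ℂ → Prop} {Q : ℂ → Prop} {R : ℝ} (h : ∀ ζ : ℂ, R < ‖ζ‖ → P ζ)
    (h0 : Q 0) (hPQ : ∀ z : ℂ, z ≠ 0 → P z⁻¹ → Q z) : ∀ᶠ z in 𝓝 (0 : ℂ), Q z := by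
  filter_upwards [eventually_inv_large R] with z hz
  by_cases hz0 : z = 0
  · rw [hz0]; exact h0
  · exact hPQ z hz0 (h _ (hz hz0))

lemma chart_congr {G H : ℂ → ℂ} {R : ℝ} (h : ∀ ζ : ℂ, R < ‖ζ‖ → G ζ = H ζ) :
    ∀ᶠ z in 𝓝 (0 : ℂ), chart G z = chart H z := by
  refine eventually_of_inf h (by rw [chart_zero, chart_zero]) fun z hz hP => ?_
  rw [chart_ne G hz, chart_ne H hz, hP]

lemma AtInf.large {m : ℂ} {G : ℂ → ℂ} (h : AtInf m G) (B : ℝ) :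
    ∃ R : ℝ, ∀ ζ : ℂ, R < ‖ζ‖ → B < ‖G ζ‖ := by
  obtain ⟨R, C, hRC⟩ := h.ex
  have hm : 0 < ‖m‖ := norm_pos_iff.mpr h.ne
  refine ⟨max R ((B + C) / ‖m‖), fun ζ hζ => ?_⟩
  have h1 : R < ‖ζ‖ := (le_max_left _ _).trans_lt hζ
  have h2 : (B + C) / ‖m‖ < ‖ζ‖ := (le_max_right _ _).trans_lt hζ
  have h3 := (hRC ζ h1).2
  rw [div_lt_iff₀ hm] at h2
  have h4 : ‖m * ζ‖ ≤ ‖G ζ‖ + ‖G ζ - m * ζ‖ := by
    calc ‖m * ζ‖ = ‖G ζ - (G ζ - m * ζ)‖ := by rw [sub_sub_cancel]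
      _ ≤ _ := norm_sub_le _ _
  rw [norm_mul] at h4
  nlinarith

lemma chart_comp {m : ℂ} {H : ℂ → ℂ} (G : ℂ → ℂ) (h : AtInf m H) :
    ∀ᶠ z in 𝓝 (0 : ℂ), chart (fun ζ => G (H ζ)) z = chart G (chart H z) := by
  obtain ⟨R, hR⟩ := h.large 0
  refine eventually_of_inf (P := fun ζ => 0 < ‖H ζ‖) hR
    (by rw [chart_zero, chart_zero, chart_zero]) fun z hz hP => ?_
  have h1 : H z⁻¹ ≠ 0 := norm_pos_iff.mp hP
  rw [chart_ne _ hz, chart_ne H hz, chart_ne G (inv_ne_zero h1), inv_inv]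

lemma AtInf.comp {m m' : ℂ} {G H : ℂ → ℂ} (hG : AtInf m G) (hH : AtInf m' H) :
    AtInf (m * m') (fun ζ => G (H ζ)) where
  ne := mul_ne_zero hG.ne hH.ne
  ex := by
    obtain ⟨R, C, hRC⟩ := hG.ex
    obtain ⟨R', C', hRC'⟩ := hH.ex
    obtain ⟨R'', hR''⟩ := hH.large R
    refine ⟨max R' R'', C + ‖m‖ * C', fun ζ hζ => ?_⟩
    have h1 := hRC' ζ ((le_max_left _ _).trans_lt hζ)
    have h2 := hR'' ζ ((le_max_right _ _).trans_lt hζ)
    have h3 := hRC _ h2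
    refine ⟨DifferentiableAt.comp (f := H) ζ h3.1 h1.1, ?_⟩
    have h4 : G (H ζ) - m * m' * ζ = (G (H ζ) - m * H ζ) + m * (H ζ - m' * ζ) := by ring
    rw [h4]
    calc _ ≤ ‖G (H ζ) - m * H ζ‖ + ‖m * (H ζ - m' * ζ)‖ := norm_add_le _ _
      _ ≤ C + ‖m‖ * C' := by
        rw [norm_mul]
        gcongr
        · exact h3.2
        · exact h1.2

lemma atInf_affine {m : ℂ} (hm : m ≠ 0) (c : ℂ) : AtInf m (fun ζ => m * ζ + c) where
  ne := hm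
  ex := ⟨0, ‖c‖, fun ζ _ => ⟨by fun_prop, by simp⟩⟩

lemma AtInf.isGerm {m : ℂ} {G : ℂ → ℂ} (h : AtInf m G) : IsGerm (chart G) := by
  obtain ⟨R, C, hRC⟩ := h.ex
  obtain ⟨R', hR'⟩ := h.large 0
  have hm : 0 < ‖m‖ := norm_pos_iff.mpr h.ne
  -- limit of `z * G z⁻¹`
  have hne : ∀ᶠ z in 𝓝[≠] (0 : ℂ), z ≠ 0 := eventually_mem_nhdsWithin
  have hl1 : Tendsto (fun z : ℂ => z * G z⁻¹) (𝓝[≠] 0) (𝓝 m) := by
    have hC0 : ∀ᶠ z in 𝓝[≠] (0 : ℂ), ‖z * G z⁻¹ - m‖ ≤ ‖z‖ * C := by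
      filter_upwards [hne, (eventually_inv_large R).filter_mono nhdsWithin_le_nhds] with z hz h1
      have h2 := (hRC _ (h1 hz)).2
      have h3 : z * G z⁻¹ - m = z * (G z⁻¹ - m * z⁻¹) := by
        field_simp
      rw [h3, norm_mul]
      gcongr
    rw [tendsto_iff_norm_sub_tendsto_zero]
    refine squeeze_zero' (Eventually.of_forall fun _ => norm_nonneg _) hC0 ?_
    have h4 : Tendsto (fun z : ℂ => ‖z‖ * C) (𝓝 0) (𝓝 (‖(0:ℂ)‖ * C)) := by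
      exact (continuous_norm.tendsto 0).mul_const C
    rw [norm_zero, zero_mul] at h4
    exact h4.mono_left nhdsWithin_le_nhds
  have hl2 : Tendsto (fun z : ℂ => (z * G z⁻¹)⁻¹) (𝓝[≠] 0) (𝓝 m⁻¹) := hl1.inv₀ h.ne
  have hl3 : Tendsto (fun z : ℂ => chart G z) (𝓝[≠] 0) (𝓝 0) := by
    have h5 : Tendsto (fun z : ℂ => z * (z * G z⁻¹)⁻¹) (𝓝[≠] 0) (𝓝 (0 * m⁻¹)) :=
      (tendsto_id.mono_left nhdsWithin_le_nhds).mul hl2
    rw [zero_mul] at h5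
    refine h5.congr' ?_
    filter_upwards [hne] with z hz
    rw [chart_ne G hz, mul_inv, ← mul_assoc, mul_inv_cancel₀ hz, one_mul]
  have hcont : ContinuousAt (chart G) 0 := by
    rw [continuousAt_iff_punctured_nhds, chart_zero]
    exact hl3
  have hd : ∀ᶠ z in 𝓝[≠] (0 : ℂ), DifferentiableAt ℂ (chart G) z := by
    filter_upwards [hne, (eventually_inv_large R).filter_mono nhdsWithin_le_nhds,
      (eventually_inv_large R').filter_mono nhdsWithin_le_nhds] with z hz h1 h2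
    have h3 : DifferentiableAt ℂ (fun z : ℂ => G z⁻¹) z :=
      DifferentiableAt.comp (f := fun z : ℂ => z⁻¹) z (hRC _ (h1 hz)).1 (differentiableAt_inv hz)
    have h4 : G z⁻¹ ≠ 0 := norm_pos_iff.mp (hR' _ (h2 hz))
    refine (h3.inv h4).congr_of_eventuallyEq ?_
    filter_upwards [isOpen_ne.mem_nhds hz] with w hw
    rw [chart_ne G hw]
    rfl
  have han : AnalyticAt ℂ (chart G) 0 :=
    Complex.analyticAt_of_differentiable_on_punctured_nhds_of_continuousAt hd hcont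
  refine ⟨han, chart_zero G, ?_⟩
  have h6 : HasDerivAt (chart G) m⁻¹ 0 := by
    rw [hasDerivAt_iff_tendsto_slope]
    refine hl2.congr' ?_
    filter_upwards [hne] with z hz
    rw [slope_def_field, chart_zero, chart_ne G hz, sub_zero, sub_zero, mul_inv, div_eq_mul_inv,
      mul_comm]
  rw [h6.deriv]
  exact inv_ne_zero h.ne

/-- an involution near infinity gives an involutive germ -/
lemma AtInf.isInvol {m : ℂ} {G : ℂ → ℂ} (h : AtInf m G) {R : ℝ}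
    (hi : ∀ ζ : ℂ, R < ‖ζ‖ → G (G ζ) = ζ) : IsInvol (chart G) := by
  refine ⟨h.isGerm, ?_⟩
  have h1 : ∀ᶠ z in 𝓝 (0 : ℂ), chart (fun ζ => G (G ζ)) z = z :=
    eventually_of_inf hi (chart_zero _) fun z hz hP => by
      rw [chart_ne _ hz, hP, inv_inv]
  filter_upwards [h1, chart_comp G h] with z h2 h3
  rw [← h3, h2]

lemma isInvol_affine (c : ℂ) : IsInvol (chart fun ζ => -1 * ζ + c) :=
  (atInf_affine (neg_ne_zero.mpr one_ne_zero) c).isInvol (R := 0) fun ζ _ => by ring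

lemma prodInv_translation (b : ℂ) : ProdInv 2 (chart fun ζ => 1 * ζ + b) := by
  have h1 := (isInvol_affine b).prodInv.comp (isInvol_affine 0).prodInv
  refine h1.congr ?_
  have h2 := chart_comp (fun ζ => -1 * ζ + b) (atInf_affine (neg_ne_zero.mpr one_ne_zero) (0:ℂ))
  filter_upwards [h2] with z h3
  rw [← h3]
  congr 1
  funext ζ
  ring

end Pool.Agent.Lib.MP_40a019_an
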