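import Mathlib
import Pool.Agent.Lib.MP_40a019_an.Chart

/-!
Third order jets: germs which agree with a Möbius transformation up to `O(z^4)`.
-/

set_option autoImplicit false

namespace Pool.Agent.Lib.MP_40a019_an

open Set Filter Topology Asymptotics

lemma pow_O {m n : ℕ} (h : m ≤ n) : (fun z : ℂ => z ^ n) =O[𝓝 0] fun z => z ^ m := by
  refine IsBigO.of_bound 1 ?_
  have h1 : ∀ᶠ z in 𝓝 (0 : ℂ), ‖z‖ < 1 := by
    have : Tendsto (fun z : ℂ => ‖z‖) (𝓝 0) (𝓝 0) := by simpa using tendsto_norm_zero (E := ℂ)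
    exact this.eventually (gt_mem_nhds one_pos)
  filter_upwards [h1] with z hz
  rw [norm_pow, norm_pow, one_mul]
  exact pow_le_pow_of_le_one (norm_nonneg _) hz.le h

lemma lim_of_O {q : ℂ → ℂ} (hq : Continuous q) {n : ℕ}
    (h : (fun z => z ^ n * q z) =O[𝓝 0] fun z => z ^ (n + 1)) : q 0 = 0 := by
  obtain ⟨C, hC⟩ := h.bound
  have h1 : ∀ᶠ z in 𝓝[≠] (0 : ℂ), ‖q z‖ ≤ C * ‖z‖ := by
    have hne : ∀ᶠ z in 𝓝[≠] (0 : ℂ), z ≠ 0 := eventually_mem_nhdsWithin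
    filter_upwards [hne, hC.filter_mono nhdsWithin_le_nhds] with z hz h2
    rw [norm_mul, pow_succ, norm_mul] at h2
    have h3 : 0 < ‖z ^ n‖ := norm_pos_iff.mpr (pow_ne_zero n hz)
    have h4 : ‖z ^ n‖ * ‖q z‖ ≤ ‖z ^ n‖ * (C * ‖z‖) := by linarith
    exact le_of_mul_le_mul_left h4 h3
  have h2 : Tendsto q (𝓝[≠] (0 : ℂ)) (𝓝 0) := by
    refine squeeze_zero_norm' h1 ?_
    have h4 : Tendsto (fun z : ℂ => C * ‖z‖) (𝓝 0) (𝓝 (C * ‖(0:ℂ)‖)) :=
      (continuous_norm.tendsto 0).const_mul C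
    rw [norm_zero, mul_zero] at h4
    exact h4.mono_left nhdsWithin_le_nhds
  have h3 : Tendsto q (𝓝[≠] (0 : ℂ)) (𝓝 (q 0)) := (hq.tendsto 0).mono_left nhdsWithin_le_nhds
  exact tendsto_nhds_unique h3 h2

lemma poly_O4 {α β γ : ℂ}
    (h : (fun z : ℂ => α * z + β * z ^ 2 + γ * z ^ 3) =O[𝓝 0] fun z => z ^ 4) :
    α = 0 ∧ β = 0 ∧ γ = 0 := by
  have hα : α = 0 := by
    have h1 : (fun z : ℂ => z ^ 1 * (α + β * z + γ * z ^ 2)) =O[𝓝 0] fun z => z ^ (1 + 1) := by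
      refine (h.trans (pow_O (m := 2) (by norm_num))).congr_left fun z => ?_
      ring
    simpa using lim_of_O (by fun_prop) h1
  have hβ : β = 0 := by
    have h1 : (fun z : ℂ => z ^ 2 * (β + γ * z)) =O[𝓝 0] fun z => z ^ (2 + 1) := by
      refine (h.trans (pow_O (m := 3) (by norm_num))).congr_left fun z => ?_
      rw [hα]
      ring
    simpa using lim_of_O (by fun_prop) h1
  have hγ : γ = 0 := by
    have h1 : (fun z : ℂ => z ^ 3 * γ) =O[𝓝 0] fun z => z ^ (3 + 1) := by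
      refine h.congr_left fun z => ?_
      rw [hα, hβ]
      ring
    exact lim_of_O (q := fun _ => γ) continuous_const h1
  exact ⟨hα, hβ, hγ⟩

lemma IsGerm.taylor {f : ℂ → ℂ} (hf : IsGerm f) :
    (fun z => f z - (deriv f 0 * z + iteratedDeriv 2 f 0 / 2 * z ^ 2 +
      iteratedDeriv 3 f 0 / 6 * z ^ 3)) =O[𝓝 0] fun z => z ^ 4 := by
  have h1 := hf.an.hasFPowerSeriesAt.isBigO_sub_partialSum_pow 4
  have h2 : (fun z : ℂ => ‖z‖ ^ 4) =O[𝓝 0] fun z => z ^ 4 := by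
    refine IsBigO.of_bound 1 (Eventually.of_forall fun z => ?_)
    simp
  refine (h1.trans h2).congr_left fun z => ?_
  rw [zero_add]
  congr 1
  simp only [FormalMultilinearSeries.partialSum, Finset.sum_range_succ, Finset.sum_range_zero,
    FormalMultilinearSeries.apply_eq_prod_smul_coeff, FormalMultilinearSeries.coeff_ofScalars,
    Finset.prod_const, Finset.card_univ, Fintype.card_fin, smul_eq_mul, iteratedDeriv_zero,
    iteratedDeriv_one, hf.zero]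
  simp only [Nat.factorial]
  push_cast
  ring

/-- `f` agrees with `z ↦ m z / (1 + c z)` up to `O(z^4)`. -/
def Jet (f : ℂ → ℂ) (m c : ℂ) : Prop :=
  (fun z => f z - m * z / (1 + c * z)) =O[𝓝 0] fun z => z ^ 4

lemma eventually_ne_lin (c : ℂ) : ∀ᶠ z in 𝓝 (0 : ℂ), 1 + c * z ≠ 0 := by
  have h : ContinuousAt (fun z : ℂ => 1 + c * z) 0 := by fun_prop
  refine h.eventually_ne ?_
  simp

lemma bounded_inv (c : ℂ) : (fun z : ℂ => (1 + c * z)⁻¹) =O[𝓝 0] fun _ => (1 : ℂ) := by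
  have h : Tendsto (fun z : ℂ => (1 + c * z)⁻¹) (𝓝 0) (𝓝 (1 + c * 0)⁻¹) := by
    refine Tendsto.inv₀ ?_ (by simp)
    have : Continuous fun z : ℂ => 1 + c * z := by fun_prop
    exact this.tendsto 0
  exact h.isBigO_one ℂ

lemma mob_poly (m c : ℂ) : (fun z : ℂ => m * z / (1 + c * z) -
    (m * z + (-(m * c)) * z ^ 2 + m * c ^ 2 * z ^ 3)) =O[𝓝 0] fun z => z ^ 4 := by
  have h1 : (fun z : ℂ => (-(m * c ^ 3)) * z ^ 4 * (1 + c * z)⁻¹) =O[𝓝 0] fun z => z ^ 4 * 1 :=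
    (isBigO_const_mul_self _ _ _).mul (bounded_inv c)
  simp only [mul_one] at h1
  refine h1.congr' ?_ EventuallyEq.rfl
  filter_upwards [eventually_ne_lin c] with z hz
  field_simp
  ring

lemma IsGerm.jet_coeffs {f : ℂ → ℂ} (hf : IsGerm f) {m c : ℂ} (h : Jet f m c) :
    deriv f 0 = m ∧ iteratedDeriv 2 f 0 / 2 = -(m * c) ∧ iteratedDeriv 3 f 0 / 6 = m * c ^ 2 := by
  have h1 := (h.add (mob_poly m c)).sub hf.taylor
  have h2 := poly_O4 (α := deriv f 0 - m) (β := iteratedDeriv 2 f 0 / 2 + m * c)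
    (γ := iteratedDeriv 3 f 0 / 6 - m * c ^ 2) (h1.congr_left fun z => by ring)
  refine ⟨sub_eq_zero.mp h2.1, ?_, sub_eq_zero.mp h2.2.2⟩
  linear_combination h2.2.1

lemma jet_of_poly {f : ℂ → ℂ} {m c : ℂ}
    (h : (fun z : ℂ => f z - (m * z + (-(m * c)) * z ^ 2 + m * c ^ 2 * z ^ 3)) =O[𝓝 0]
      fun z => z ^ 4) : Jet f m c := by
  refine (h.sub (mob_poly m c)).congr_left fun z => ?_
  ring

lemma IsGerm.jet_iff {f : ℂ → ℂ} (hf : IsGerm f) :
    (∃ c, Jet f (deriv f 0) c) ↔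
      2 * deriv f 0 * iteratedDeriv 3 f 0 = 3 * iteratedDeriv 2 f 0 ^ 2 := by
  constructor
  · rintro ⟨c, hc⟩
    obtain ⟨_, h2, h3⟩ := hf.jet_coeffs hc
    have e2 : iteratedDeriv 2 f 0 = -2 * (deriv f 0 * c) := by linear_combination 2 * h2
    have e3 : iteratedDeriv 3 f 0 = 6 * (deriv f 0 * c ^ 2) := by linear_combination 6 * h3
    rw [e2, e3]
    ring
  · intro h
    have hm := hf.der
    refine ⟨-(iteratedDeriv 2 f 0) / (2 * deriv f 0), jet_of_poly ?_⟩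
    refine hf.taylor.congr_left fun z => ?_
    have e3 : iteratedDeriv 3 f 0 = 3 * iteratedDeriv 2 f 0 ^ 2 / (2 * deriv f 0) := by
      field_simp
      linear_combination h
    rw [e3]
    field_simp
    ring

lemma IsGerm.isBigO_id {g : ℂ → ℂ} (hg : IsGerm g) : g =O[𝓝 0] fun z => z := by
  have h := hg.an.differentiableAt.isBigO_sub
  simpa [hg.zero] using h

lemma mob_alg1 {c m x y A B : ℂ} (hA0 : A ≠ 0) (hB0 : B ≠ 0) (hA : A = 1 + c * x)
    (hB : B = 1 + c * y) : m * x / A - m * y / B = m * (A⁻¹ * B⁻¹) * (x - y) := by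
  have h1 : m * x / A - m * y / B = m * (A⁻¹ * B⁻¹) * (x * B - y * A) := by
    field_simp
  rw [h1]
  have h2 : x * B - y * A = x - y := by rw [hA, hB]; ring
  rw [h2]

lemma mob_alg2 {c m c' m' z A B : ℂ} (hA0 : A ≠ 0) (hB0 : B ≠ 0) (hA : A = 1 + c' * z)
    (hB : B = 1 + (c' + c * m') * z) :
    m * (m' * z / A) / (1 + c * (m' * z / A)) = m * m' * z / B := by
  have e1 : 1 + c * (m' * z / A) = B / A := by
    rw [hB]
    field_simp
    rw [hA]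
    ring
  rw [e1]
  field_simp

lemma mob_alg3 {c m z w A : ℂ} (hA0 : A ≠ 0) (hz : z ≠ 0) (hm : m ≠ 0) (hw : w ≠ 0)
    (hA : A = 1 + c * z) :
    w⁻¹ - (m⁻¹ * z⁻¹ + c / m) = -(w - m * z / A) * A / (w * (m * z)) := by
  have h1 : -(w - m * z / A) * A / (w * (m * z)) = (m * z - w * A) / (w * (m * z)) := by
    field_simp
    ring
  rw [h1, hA]
  field_simp

lemma Jet.comp {f g : ℂ → ℂ} {m c m' c' : ℂ} (hf : Jet f m c) (hg : Jet g m' c')
    (hgg : IsGerm g) : Jet (fun z => f (g z)) (m * m') (c' + c * m') := by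
  have h1 : (fun z => f (g z) - m * g z / (1 + c * g z)) =O[𝓝 0] fun z => z ^ 4 := by
    have h2 := hf.comp_tendsto hgg.tendsto
    exact h2.trans (hgg.isBigO_id.pow 4)
  -- the Möbius part
  set M : ℂ → ℂ := fun z => m' * z / (1 + c' * z) with hM
  have hMt : Tendsto M (𝓝 0) (𝓝 0) := by
    have : ContinuousAt M 0 := by
      refine ContinuousAt.div (by fun_prop) (by fun_prop) (by simp)
    have h3 := this.tendsto
    simpa [hM] using h3
  have h2 : (fun z => m * g z / (1 + c * g z) - m * M z / (1 + c * M z)) =O[𝓝 0]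
      fun z => z ^ 4 := by
    have h3 : Tendsto (fun z => m * ((1 + c * g z)⁻¹ * (1 + c * M z)⁻¹)) (𝓝 0)
        (𝓝 (m * ((1 + c * 0)⁻¹ * (1 + c * 0)⁻¹))) := by
      refine Tendsto.const_mul _ (Tendsto.mul ?_ ?_)
      · exact (((hgg.tendsto.const_mul c)).const_add 1).inv₀ (by simp)
      · exact (((hMt.const_mul c)).const_add 1).inv₀ (by simp)
    have h4 := (h3.isBigO_one ℂ).mul hg
    simp only [one_mul] at h4
    refine h4.congr' ?_ EventuallyEq.rfl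
    have h5 : ∀ᶠ z in 𝓝 (0 : ℂ), 1 + c * g z ≠ 0 := hgg.tendsto.eventually (eventually_ne_lin c)
    have h6 : ∀ᶠ z in 𝓝 (0 : ℂ), 1 + c * M z ≠ 0 := hMt.eventually (eventually_ne_lin c)
    filter_upwards [h5, h6] with z h7 h8
    rw [mob_alg1 h7 h8 rfl rfl]
  refine (h1.add h2).congr' ?_ EventuallyEq.rfl
  have h6 : ∀ᶠ z in 𝓝 (0 : ℂ), 1 + c * M z ≠ 0 := hMt.eventually (eventually_ne_lin c)
  filter_upwards [h6, eventually_ne_lin c', eventually_ne_lin (c' + c * m')] with z h7 h8 h9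
  have h10 : m * M z / (1 + c * M z) = m * m' * z / (1 + (c' + c * m') * z) :=
    mob_alg2 h8 h9 rfl rfl
  rw [← h10]
  ring

lemma jet_id {f : ℂ → ℂ} (h : ∀ᶠ z in 𝓝 (0 : ℂ), f z = z) : Jet f 1 0 := by
  refine (isBigO_zero _ _).congr' ?_ EventuallyEq.rfl
  filter_upwards [h] with z hz
  rw [hz]
  simp

/-- jets of involutions -/
lemma IsInvol.cases {τ : ℂ → ℂ} (h : IsInvol τ) :
    (∀ᶠ z in 𝓝 (0 : ℂ), τ z = z) ∨ (deriv τ 0 = -1 ∧ ∃ c, Jet τ (-1) c) := by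
  have hm : deriv τ 0 * deriv τ 0 = 1 := by
    rw [← h.germ.deriv_comp h.germ]
    have : (fun z => τ (τ z)) =ᶠ[𝓝 0] fun z => z := h.inv
    rw [this.deriv_eq]
    simp
  rcases mul_self_eq_one_iff.mp hm with h1 | h1
  · left
    have hk : IsGerm (fun z => (z + τ z) / 2) := by
      refine ⟨?_, by simp [h.germ.zero], ?_⟩
      · exact (analyticAt_id.add h.germ.an).div analyticAt_const (by norm_num)
      · have h2 : HasDerivAt (fun z => (z + τ z) / 2) ((1 + deriv τ 0) / 2) 0 :=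
          ((hasDerivAt_id (0:ℂ)).add h.germ.an.differentiableAt.hasDerivAt).div_const 2
        rw [h2.deriv, h1]
        norm_num
    obtain ⟨k', _, _, hk2⟩ := hk.exists_inv
    have h3 : ∀ᶠ z in 𝓝 (0 : ℂ), k' ((τ z + τ (τ z)) / 2) = τ z := h.germ.tendsto.eventually hk2
    filter_upwards [h3, hk2, h.inv] with z h4 h5 h6
    rw [h6] at h4
    rw [← h4, add_comm, h5]
  · right
    refine ⟨h1, ?_⟩
    set a := iteratedDeriv 2 τ 0 / 2 with ha
    set b := iteratedDeriv 3 τ 0 / 6 with hb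
    have ht := h.germ.taylor
    rw [h1, ← ha, ← hb] at ht
    set P : ℂ → ℂ := fun z => -1 * z + a * z ^ 2 + b * z ^ 3 with hP
    have ht' : (fun z => τ z - P z) =O[𝓝 0] fun z => z ^ 4 := ht
    have hPt : Tendsto P (𝓝 0) (𝓝 0) := by
      have : Continuous P := by fun_prop
      simpa [hP] using this.tendsto 0
    have e1 : (fun z => τ (τ z) - P (τ z)) =O[𝓝 0] fun z => z ^ 4 :=
      (ht'.comp_tendsto h.germ.tendsto).trans (h.germ.isBigO_id.pow 4)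
    have e2 : (fun z => P (τ z) - P (P z)) =O[𝓝 0] fun z => z ^ 4 := by
      have h3 : Tendsto (fun z => -1 + a * (τ z + P z) + b * (τ z ^ 2 + τ z * P z + P z ^ 2))
          (𝓝 0) (𝓝 (-1 + a * (0 + 0) + b * (0 ^ 2 + 0 * 0 + 0 ^ 2))) := by
        have ht0 := h.germ.tendsto
        exact ((ht0.add hPt).const_mul a).const_add (-1) |>.add
          ((((ht0.pow 2).add (ht0.mul hPt)).add (hPt.pow 2)).const_mul b)
      have h4 := (h3.isBigO_one ℂ).mul ht'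
      simp only [one_mul] at h4
      refine h4.congr_left fun z => ?_
      simp only [hP]
      ring
    have e3 : (fun z : ℂ => z ^ 4 * ((a ^ 3 + a * b) + (3 * b ^ 2 - a ^ 2 * b) * z +
        (a ^ 3 * b - 5 * a * b ^ 2) * z ^ 2 + (3 * a ^ 2 * b ^ 2 - 3 * b ^ 3) * z ^ 3 +
        3 * a * b ^ 3 * z ^ 4 + b ^ 4 * z ^ 5)) =O[𝓝 0] fun z => z ^ 4 := by
      have h3 : Continuous fun z : ℂ => ((a ^ 3 + a * b) + (3 * b ^ 2 - a ^ 2 * b) * z +
        (a ^ 3 * b - 5 * a * b ^ 2) * z ^ 2 + (3 * a ^ 2 * b ^ 2 - 3 * b ^ 3) * z ^ 3 +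
        3 * a * b ^ 3 * z ^ 4 + b ^ 4 * z ^ 5) := by fun_prop
      have h4 := (isBigO_refl (fun z : ℂ => z ^ 4) (𝓝 0)).mul ((h3.tendsto 0).isBigO_one ℂ)
      simpa only [mul_one] using h4
    have e4 : (fun z : ℂ => 0 * z + 0 * z ^ 2 + (2 * b + 2 * a ^ 2) * z ^ 3) =O[𝓝 0]
        fun z => z ^ 4 := by
      refine ((e1.add e2).add e3).congr' ?_ EventuallyEq.rfl
      filter_upwards [h.inv] with z hz
      rw [hz]
      simp only [hP]
      ring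
    have hd := (poly_O4 e4).2.2
    have hb2 : b = -1 * a ^ 2 := by linear_combination hd / 2
    refine ⟨a, jet_of_poly ?_⟩
    refine ht'.congr_left fun z => ?_
    simp only [hP]
    rw [hb2]
    ring

/-- Necessity: jets of products of involutions. -/
lemma ProdInv.jet : ∀ {n : ℕ} {f : ℂ → ℂ}, ProdInv n f →
    (deriv f 0 = 1 ∨ deriv f 0 = -1) ∧ ∃ c, Jet f (deriv f 0) c
  | 0, f, hf => by
    have h1 : f =ᶠ[𝓝 0] fun z => z := hf
    have h2 : deriv f 0 = 1 := by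
      rw [h1.deriv_eq]
      simp
    exact ⟨Or.inl h2, 0, by rw [h2]; exact jet_id hf⟩
  | n + 1, f, ⟨τ, g, hτ, hg, hf⟩ => by
    obtain ⟨h1, c, hc⟩ := hg.jet
    have h2 : f =ᶠ[𝓝 0] fun z => τ (g z) := hf
    have h3 : deriv f 0 = deriv τ 0 * deriv g 0 := by
      rw [h2.deriv_eq, hτ.germ.deriv_comp hg.isGerm]
    have h4 : (deriv τ 0 = 1 ∨ deriv τ 0 = -1) ∧ ∃ c, Jet τ (deriv τ 0) c := by
      rcases hτ.cases with h5 | ⟨h5, c', hc'⟩
      · have h6 : deriv τ 0 = 1 := by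
          have : τ =ᶠ[𝓝 0] fun z => z := h5
          rw [this.deriv_eq]
          simp
        exact ⟨Or.inl h6, 0, by rw [h6]; exact jet_id h5⟩
      · exact ⟨Or.inr h5, c', by rw [h5]; exact hc'⟩
    obtain ⟨h5, c', hc'⟩ := h4
    refine ⟨?_, c + c' * deriv g 0, ?_⟩
    · rw [h3]
      rcases h1 with h1 | h1 <;> rcases h5 with h5 | h5 <;> rw [h1, h5] <;> norm_num
    · rw [h3]
      have h6 := hc'.comp hc hg.isGerm
      exact h6.congr' (h2.mono fun z hz => by simp only [hz]) EventuallyEq.rfl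

/-- expansion at infinity -/
lemma IsGerm.expand {f : ℂ → ℂ} (hf : IsGerm f) {m c : ℂ} (h : Jet f m c) (hm : m ≠ 0) :
    ∃ R C : ℝ, ∀ ζ : ℂ, R < ‖ζ‖ → DifferentiableAt ℂ (fun ζ => (f ζ⁻¹)⁻¹) ζ ∧
      ‖(f ζ⁻¹)⁻¹ - (m⁻¹ * ζ + c / m)‖ ≤ C / ‖ζ‖ ^ 2 := by
  have hder := (hf.jet_coeffs h).1
  obtain ⟨K, hK⟩ := h.bound
  -- lower bound `‖f z‖ ≥ ‖m‖/2 ‖z‖`
  have hlow : ∀ᶠ z in 𝓝 (0 : ℂ), ‖m‖ / 2 * ‖z‖ ≤ ‖f z‖ := by
    have h1 : (fun z => f z - f 0 - (z - 0) * deriv f 0) =o[𝓝 0] fun z => z - 0 := by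
      have := hf.an.differentiableAt.hasDerivAt.isLittleO
      simpa using this
    have h2 := h1.bound (c := ‖m‖ / 2) (by
      have := norm_pos_iff.mpr hm
      positivity)
    filter_upwards [h2] with z hz
    rw [hf.zero, sub_zero, sub_zero, hder] at hz
    have h3 : ‖z * m‖ ≤ ‖f z‖ + ‖f z - z * m‖ := by
      calc ‖z * m‖ = ‖f z - (f z - z * m)‖ := by rw [sub_sub_cancel]
        _ ≤ _ := norm_sub_le _ _
    rw [norm_mul] at h3
    linarith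
  have hd : ∀ᶠ z in 𝓝 (0 : ℂ), DifferentiableAt ℂ f z :=
    hf.an.eventually_analyticAt.mono fun z hz => hz.differentiableAt
  have hall : ∀ᶠ z in 𝓝 (0 : ℂ), ‖f z - m * z / (1 + c * z)‖ ≤ K * ‖z ^ 4‖ ∧
      ‖m‖ / 2 * ‖z‖ ≤ ‖f z‖ ∧ DifferentiableAt ℂ f z ∧ 1 + c * z ≠ 0 ∧ ‖1 + c * z‖ ≤ 2 := by
    have h5 : ∀ᶠ z in 𝓝 (0 : ℂ), ‖1 + c * z‖ < 2 := by
      have h6 : Continuous fun z : ℂ => ‖1 + c * z‖ := by fun_prop
      have h7 := h6.tendsto 0
      rw [mul_zero, add_zero, norm_one] at h7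
      exact h7.eventually (gt_mem_nhds (by norm_num))
    filter_upwards [hK, hlow, hd, eventually_ne_lin c, h5] with z a1 a2 a3 a4 a5
    exact ⟨a1, a2, a3, a4, a5.le⟩
  rw [Metric.eventually_nhds_iff] at hall
  obtain ⟨ρ, hρ, hall⟩ := hall
  have hm0 := norm_pos_iff.mpr hm
  refine ⟨1 / ρ, |K| * 4 / ‖m‖ ^ 2, fun ζ hζ => ?_⟩
  have hζ0 : 0 < ‖ζ‖ := lt_trans (by positivity) hζ
  have hζne : ζ ≠ 0 := norm_pos_iff.mp hζ0
  have hz : dist ζ⁻¹ 0 < ρ := by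
    rw [dist_zero_right, norm_inv, inv_lt_comm₀ hζ0 hρ, ← one_div]
    exact hζ
  obtain ⟨a1, a2, a3, a4, a5⟩ := hall hz
  have hz0 : 0 < ‖ζ⁻¹‖ := norm_pos_iff.mpr (inv_ne_zero hζne)
  have hf0 : 0 < ‖f ζ⁻¹‖ := lt_of_lt_of_le (by positivity) a2
  have hfne : f ζ⁻¹ ≠ 0 := norm_pos_iff.mp hf0
  refine ⟨?_, ?_⟩
  · have h3 : DifferentiableAt ℂ (fun ζ : ℂ => f ζ⁻¹) ζ :=
      DifferentiableAt.comp (f := fun z : ℂ => z⁻¹) ζ a3 (differentiableAt_inv hζne)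
    exact h3.inv hfne
  · set z := ζ⁻¹ with hzdef
    have hzne : z ≠ 0 := inv_ne_zero hζne
    have hζz : ζ = z⁻¹ := by rw [hzdef, inv_inv]
    have e1 : (f z)⁻¹ - (m⁻¹ * ζ + c / m) =
        -(f z - m * z / (1 + c * z)) * (1 + c * z) / (f z * (m * z)) := by
      rw [hζz]
      exact mob_alg3 a4 hzne hm hfne rfl
    rw [e1, norm_div, norm_mul, norm_neg, norm_mul, norm_mul]
    have hζn : ‖ζ‖ = ‖z‖⁻¹ := by rw [hζz, norm_inv]
    have e2 : |K| * 4 / ‖m‖ ^ 2 / ‖ζ‖ ^ 2 = |K| * ‖z‖ ^ 4 * 2 / (‖m‖ / 2 * ‖z‖ * (‖m‖ * ‖z‖)) := by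
      rw [hζn]
      field_simp
      ring
    rw [e2]
    have h6 : ‖f z - m * z / (1 + c * z)‖ ≤ |K| * ‖z‖ ^ 4 := by
      refine a1.trans ?_
      rw [norm_pow]
      gcongr
      exact le_abs_self K
    gcongr

end Pool.Agent.Lib.MP_40a019_an
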