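import Mathlib
import Pool.Agent.Lib.MP_40a019_an.Core
import Pool.Agent.Lib.MP_40a019_an.Jets

/-!
From the core theorem to germs: every germ with multiplier `±1` and vanishing Schwarzian is a
product of six involutions.
-/

set_option autoImplicit false

namespace Pool.Agent.Lib.MP_40a019_an

open Set Filter Topology Complex

lemma prodInv_core {F : ℂ → ℂ} (hF : AtInf 1 F) {φ υ : ℂ → ℂ} {R₁ : ℝ}
    (h1 : ∀ ζ : ℂ, R₁ < ‖ζ‖ → DifferentiableAt ℂ φ ζ ∧ DifferentiableAt ℂ υ ζ ∧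
        ‖φ ζ - ζ‖ ≤ 1 ∧ ‖υ ζ - ζ‖ ≤ 1)
    (h2 : ∀ η : ℂ, R₁ < ‖η‖ → υ (F (φ (η + 1))) = υ (φ η) + 20 * I) : ProdInv 4 (chart F) := by
  have aφ : AtInf 1 φ := ⟨one_ne_zero, R₁, 1, fun ζ hζ => ⟨(h1 ζ hζ).1, by
    rw [one_mul]; exact (h1 ζ hζ).2.2.1⟩⟩
  have aυ : AtInf 1 υ := ⟨one_ne_zero, R₁, 1, fun ζ hζ => ⟨(h1 ζ hζ).2.1, by
    rw [one_mul]; exact (h1 ζ hζ).2.2.2⟩⟩
  have aS : AtInf 1 (fun ζ : ℂ => 1 * ζ + 1) := atInf_affine one_ne_zero 1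
  have aS' : AtInf 1 (fun ζ : ℂ => 1 * ζ + (-1)) := atInf_affine one_ne_zero (-1)
  have aT : AtInf 1 (fun ζ : ℂ => 1 * ζ + 20 * I) := atInf_affine one_ne_zero _
  -- the relation for germs
  have hrel : ∀ᶠ z in 𝓝 (0 : ℂ), chart υ (chart F (chart φ (chart (fun ζ : ℂ => 1 * ζ + 1) z))) =
      chart (fun ζ : ℂ => 1 * ζ + 20 * I) (chart υ (chart φ z)) := by
    have e1 : ∀ᶠ z in 𝓝 (0 : ℂ), chart (fun ζ => υ (F (φ (1 * ζ + 1)))) z =
        chart (fun ζ => 1 * υ (φ ζ) + 20 * I) z :=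
      chart_congr (R := R₁) fun ζ hζ => by
        rw [one_mul, one_mul]
        exact h2 ζ hζ
    have e2 := chart_comp υ (hF.comp (aφ.comp aS))
    have e3 := chart_comp F (aφ.comp aS)
    have e4 := chart_comp φ aS
    have e5 := chart_comp (fun ζ : ℂ => 1 * ζ + 20 * I) (aυ.comp aφ)
    have e6 := chart_comp υ aφ
    filter_upwards [e1, e2, e3, e4, e5, e6] with z a1 a2 a3 a4 a5 a6
    rw [← a4, ← a3, ← a2, ← a6, ← a5, a1]
  set p := chart φ with hp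
  set u := chart υ with hu
  set f := chart F with hf
  set s := chart (fun ζ : ℂ => 1 * ζ + 1) with hs
  set s' := chart (fun ζ : ℂ => 1 * ζ + (-1)) with hs'
  set t := chart (fun ζ : ℂ => 1 * ζ + 20 * I) with ht
  have gp : IsGerm p := aφ.isGerm
  have gu : IsGerm u := aυ.isGerm
  have gf : IsGerm f := hF.isGerm
  have gs' : IsGerm s' := aS'.isGerm
  obtain ⟨p', gp', hpp', hp'p⟩ := gp.exists_inv
  obtain ⟨u', gu', huu', hu'u⟩ := gu.exists_inv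
  have hss' : ∀ᶠ z in 𝓝 (0 : ℂ), s (s' z) = z := by
    have e1 := chart_comp (fun ζ : ℂ => 1 * ζ + 1) aS'
    have e2 : ∀ᶠ z in 𝓝 (0 : ℂ), chart (fun ζ : ℂ => 1 * (1 * ζ + (-1)) + 1) z = z := by
      refine Eventually.of_forall fun z => ?_
      by_cases hz : z = 0
      · rw [hz, chart_zero]
      · rw [chart_ne _ hz]
        simp
    filter_upwards [e1, e2] with z a1 a2
    exact a1.symm.trans a2
  have ht2 : ProdInv 2 t := prodInv_translation _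
  have hs2 : ProdInv 2 s' := prodInv_translation _
  have c1 : ProdInv 2 (fun z => u' (t (u z))) := ht2.conj gu gu' huu' hu'u
  have c2 : ProdInv 2 (fun z => p (s' (p' z))) := hs2.conj gp' gp hp'p hpp'
  refine (c1.comp c2).congr ?_
  -- `f w = u' (t (u (p (s' (p' w)))))`
  have gk : IsGerm (fun w => s' (p' w)) := gs'.comp gp'
  have r1 := gk.tendsto.eventually hrel
  have r2 : ∀ᶠ w in 𝓝 (0 : ℂ), s (s' (p' w)) = p' w := gp'.tendsto.eventually hss'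
  have r3 : ∀ᶠ w in 𝓝 (0 : ℂ), u' (u (f w)) = f w := gf.tendsto.eventually hu'u
  filter_upwards [r1, r2, r3, hpp'] with w a1 a2 a3 a4
  rw [a2, a4] at a1
  rw [← a1, a3]

/-- Sufficiency with explicit numbers. -/
theorem sufficiency {f : ℂ → ℂ} (hf : IsGerm f) (hm : deriv f 0 = 1 ∨ deriv f 0 = -1)
    (hj : ∃ c, Jet f (deriv f 0) c) :
    (deriv f 0 = -1 → ProdInv 5 f) ∧ ProdInv 6 f := by
  obtain ⟨ε₀, hε₀, hcore⟩ := core
  obtain ⟨c, hc⟩ := hj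
  set m := deriv f 0 with hmdef
  have hm0 : m ≠ 0 := by rcases hm with h | h <;> rw [h] <;> norm_num
  have hmm : m⁻¹ = m := by rcases hm with h | h <;> rw [h] <;> norm_num
  obtain ⟨R, C, hRC⟩ := hf.expand hc hm0
  rw [hmm] at hRC
  set a : ℂ := c / m with ha
  set G : ℂ → ℂ := fun ζ => (f ζ⁻¹)⁻¹ with hG
  have hGf : ∀ z : ℂ, chart G z = f z := fun z => by
    by_cases hz : z = 0
    · rw [hz, chart_zero, hf.zero]
    · rw [chart_ne G hz]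
      simp [hG]
  -- scaling
  obtain ⟨N, hN1, hN2, hN3⟩ : ∃ N : ℝ, 1 ≤ N ∧ R ≤ N ∧ |C| / ε₀ ≤ N := by
    refine ⟨max 1 (max R (|C| / ε₀)), le_max_left _ _, ?_, ?_⟩
    · exact (le_max_left _ _).trans (le_max_right _ _)
    · exact (le_max_right _ _).trans (le_max_right _ _)
  have hN0 : (0:ℝ) < N := by linarith
  have hNc : (N : ℂ) ≠ 0 := by exact_mod_cast hN0.ne'
  have hNn : ‖(N : ℂ)‖ = N := by rw [Complex.norm_real, Real.norm_eq_abs, abs_of_pos hN0]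
  set b : ℂ := -1 + 20 * I - m * a / N with hb
  -- `F ζ = m G(Nζ)/N + b`
  set F : ℂ → ℂ := fun ζ => m * ((N : ℂ)⁻¹ * G (N * ζ + 0) + 0) + b with hFdef
  have hmm' : m * m = 1 := by rcases hm with h | h <;> rw [h] <;> norm_num
  have hmn : ‖m‖ = 1 := by rcases hm with h | h <;> rw [h] <;> simp
  have key : ∀ ζ : ℂ, F ζ - ζ - (-1 + 20 * I) = m * (N : ℂ)⁻¹ * (G (N * ζ) - (m * (N * ζ) + a)) := by
    intro ζ
    simp only [hFdef, hb, add_zero]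
    have : m * (N : ℂ)⁻¹ * (G (N * ζ) - (m * (N * ζ) + a)) =
      m * (N : ℂ)⁻¹ * G (N * ζ) - (m * m) * ((N : ℂ)⁻¹ * N) * ζ - m * (N : ℂ)⁻¹ * a := by ring
    rw [this, hmm', inv_mul_cancel₀ hNc]
    field_simp
    ring
  have hnorm : ∀ ζ : ℂ, ‖(N : ℂ) * ζ‖ = N * ‖ζ‖ := fun ζ => by rw [norm_mul, hNn]
  have hdF : ∀ ζ : ℂ, 10 < ‖ζ‖ → DifferentiableAt ℂ F ζ := by
    intro ζ hζ
    have h1 : R < ‖(N : ℂ) * ζ‖ := by
      rw [hnorm]
      nlinarith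
    have h2 := (hRC _ h1).1
    have h3 : DifferentiableAt ℂ (fun ζ : ℂ => G (N * ζ + 0)) ζ := by
      have h4 : DifferentiableAt ℂ G (N * ζ + 0) := by rw [add_zero]; exact h2
      exact DifferentiableAt.comp (f := fun ζ : ℂ => N * ζ + 0) ζ h4 (by fun_prop)
    exact (((h3.const_mul _).add_const _).const_mul _).add_const _
  have hbF : ∀ ζ : ℂ, 10 < ‖ζ‖ → ‖F ζ - ζ - (-1 + 20 * I)‖ ≤ ε₀ / ‖ζ‖ ^ 2 := by
    intro ζ hζ
    have h1 : R < ‖(N : ℂ) * ζ‖ := by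
      rw [hnorm]
      nlinarith
    have h2 := (hRC _ h1).2
    have hζ0 : 0 < ‖ζ‖ := by linarith
    rw [key, norm_mul, norm_mul, hmn, one_mul, norm_inv, hNn]
    calc N⁻¹ * ‖G (N * ζ) - (m * (N * ζ) + a)‖ ≤ N⁻¹ * (C / ‖(N : ℂ) * ζ‖ ^ 2) := by gcongr
      _ ≤ N⁻¹ * (|C| / ‖(N : ℂ) * ζ‖ ^ 2) := by gcongr; exact le_abs_self C
      _ = (|C| / N ^ 3) / ‖ζ‖ ^ 2 := by
        rw [hnorm]
        field_simp
      _ ≤ ε₀ / ‖ζ‖ ^ 2 := by
        gcongr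
        rw [div_le_iff₀ (by positivity)]
        rw [div_le_iff₀ hε₀] at hN3
        have h5 : N ≤ N ^ 3 := by
          calc N = N ^ 1 := (pow_one N).symm
            _ ≤ N ^ 3 := pow_le_pow_right₀ hN1 (by norm_num)
        nlinarith
  -- all maps at infinity
  have aG : AtInf m G := by
    refine ⟨hm0, max R 1, ‖a‖ + |C|, fun ζ hζ => ?_⟩
    have h1 : R < ‖ζ‖ := (le_max_left _ _).trans_lt hζ
    have h2 : 1 < ‖ζ‖ := (le_max_right _ _).trans_lt hζ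
    obtain ⟨h3, h4⟩ := hRC ζ h1
    refine ⟨h3, ?_⟩
    have h5 : G ζ - m * ζ = a + (G ζ - (m * ζ + a)) := by ring
    rw [h5]
    refine (norm_add_le _ _).trans (add_le_add le_rfl ?_)
    refine h4.trans ?_
    have h6 : (1:ℝ) ≤ ‖ζ‖ ^ 2 := by nlinarith
    calc C / ‖ζ‖ ^ 2 ≤ |C| / ‖ζ‖ ^ 2 := by gcongr; exact le_abs_self C
      _ ≤ |C| / 1 := by gcongr
      _ = _ := by rw [div_one]
  have aA : AtInf (N : ℂ) (fun ζ : ℂ => N * ζ + 0) := atInf_affine hNc 0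
  have aA' : AtInf (N : ℂ)⁻¹ (fun ζ : ℂ => (N : ℂ)⁻¹ * ζ + 0) := atInf_affine (inv_ne_zero hNc) 0
  have aGN : AtInf ((N : ℂ)⁻¹ * (m * N)) (fun ζ : ℂ => (N : ℂ)⁻¹ * G (N * ζ + 0) + 0) :=
    aA'.comp (aG.comp aA)
  have hNm : (N : ℂ)⁻¹ * (m * N) = m := by field_simp
  have aF : AtInf 1 F := by
    have h1 := (atInf_affine hm0 b).comp aGN
    rw [hNm, hmm'] at h1
    exact h1
  obtain ⟨φ, υ, R₁, hφ, hrel⟩ := hcore F hdF hbF
  have h4 : ProdInv 4 (chart F) := prodInv_core aF hφ hrel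
  -- recover the rescaled map
  have gA : IsGerm (chart fun ζ : ℂ => N * ζ + 0) := aA.isGerm
  have gA' : IsGerm (chart fun ζ : ℂ => (N : ℂ)⁻¹ * ζ + 0) := aA'.isGerm
  have id1 : ∀ (k l : ℂ), k * l = 1 → ∀ z : ℂ, chart (fun ζ : ℂ => k * (l * ζ + 0) + 0) z = z := by
    intro k l hkl z
    by_cases hz : z = 0
    · rw [hz, chart_zero]
    · rw [chart_ne _ hz, add_zero, add_zero, ← mul_assoc, hkl, one_mul, inv_inv]
  have e1 : ∀ᶠ z in 𝓝 (0 : ℂ), (chart fun ζ : ℂ => N * ζ + 0)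
      ((chart fun ζ : ℂ => (N : ℂ)⁻¹ * ζ + 0) z) = z := by
    filter_upwards [chart_comp (fun ζ : ℂ => N * ζ + 0) aA'] with z h5
    rw [← h5]
    exact id1 _ _ (mul_inv_cancel₀ hNc) z
  have e2 : ∀ᶠ z in 𝓝 (0 : ℂ), (chart fun ζ : ℂ => (N : ℂ)⁻¹ * ζ + 0)
      ((chart fun ζ : ℂ => N * ζ + 0) z) = z := by
    filter_upwards [chart_comp (fun ζ : ℂ => (N : ℂ)⁻¹ * ζ + 0) aA] with z h5
    rw [← h5]
    exact id1 _ _ (inv_mul_cancel₀ hNc) z
  -- `f` is conjugate to the rescaled map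
  have hconj : ∀ n, ProdInv n (chart fun ζ : ℂ => (N : ℂ)⁻¹ * G (N * ζ + 0) + 0) → ProdInv n f := by
    intro n hn
    refine (hn.conj gA' gA e2 e1).congr ?_
    have h5 := gA'.tendsto.eventually
      (chart_comp (fun ζ : ℂ => (N : ℂ)⁻¹ * ζ + 0) (aG.comp aA))
    have h6 := gA'.tendsto.eventually (chart_comp G aA)
    have h7 : ∀ᶠ z in 𝓝 (0 : ℂ), (chart fun ζ : ℂ => (N : ℂ) * ζ + 0)
        ((chart fun ζ : ℂ => (N : ℂ)⁻¹ * ζ + 0) (f z)) = f z := hf.tendsto.eventually e1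
    filter_upwards [h5, h6, h7, e1] with z h8 h9 h10 h11
    rw [h8, h9, h11, hGf, h10]
  rcases hm with hm1 | hm1
  · -- multiplier 1
    refine ⟨fun h => absurd (hm1.symm.trans h) (by norm_num), hconj 6 ?_⟩
    have h5 := (prodInv_translation (-b)).comp h4
    refine h5.congr ?_
    filter_upwards [chart_comp (fun ζ : ℂ => 1 * ζ + -b) aF] with z h6
    rw [← h6]
    congr 1
    funext ζ
    simp only [hFdef, hm1]
    ring
  · have h5 : ProdInv 5 f := by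
      refine hconj 5 ?_
      have h5 := (isInvol_affine b).prodInv.comp h4
      refine h5.congr ?_
      filter_upwards [chart_comp (fun ζ : ℂ => -1 * ζ + b) aF] with z h6
      rw [← h6]
      congr 1
      funext ζ
      simp only [hFdef, hm1]
      ring
    exact ⟨fun _ => h5, h5.succ⟩

/-- **Main theorem** (six involutions). -/
theorem main6 (f : ℂ → ℂ) (n : ℕ) (hn : 6 ≤ n) : ProdInv n f ↔
    IsGerm f ∧ (deriv f 0 = 1 ∨ deriv f 0 = -1) ∧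
      2 * deriv f 0 * iteratedDeriv 3 f 0 = 3 * iteratedDeriv 2 f 0 ^ 2 := by
  constructor
  · intro h
    exact ⟨h.isGerm, h.jet.1, h.isGerm.jet_iff.mp h.jet.2⟩
  · rintro ⟨h1, h2, h3⟩
    exact (sufficiency h1 h2 (h1.jet_iff.mpr h3)).2.mono hn

end Pool.Agent.Lib.MP_40a019_an
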