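import Mathlib
import Pool.Agent.Lib.MP_40a019_an.Jets

/-!
From the statement `Core3` (three involutions near infinity) to germs at `0`.
-/

set_option autoImplicit false

namespace Pool.Agent.Lib.MP_40a019_an

open Set Filter Topology Complex

/-- The statement of the core theorem with three involutions. -/
def Core3 : Prop := ∃ ε₀ : ℝ, 0 < ε₀ ∧ ∀ F : ℂ → ℂ,
    (∀ w : ℂ, 1 / 2 < ‖w‖ → DifferentiableAt ℂ F w) →
    (∀ w : ℂ, 1 / 2 < ‖w‖ → ‖F w + w + 1 / 4‖ ≤ ε₀ / ‖w‖ ^ 2) →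
    ∃ β₁ β₂ β₃ : ℂ → ℂ,
      (∀ w : ℂ, 10 < ‖w‖ → DifferentiableAt ℂ β₁ w ∧ DifferentiableAt ℂ β₂ w ∧
        DifferentiableAt ℂ β₃ w ∧ ‖β₁ w + w‖ ≤ 1 ∧ ‖β₂ w + w‖ ≤ 1 ∧ ‖β₃ w + w‖ ≤ 1 ∧
        β₁ (β₁ w) = w ∧ β₂ (β₂ w) = w ∧ β₃ (β₃ w) = w) ∧
      ∀ w : ℂ, 10 < ‖w‖ → F w = β₁ (β₂ (β₃ w))

/-- Sufficiency with three involutions. -/
theorem sufficiency3 (hcore3 : Core3) {f : ℂ → ℂ} (hf : IsGerm f) (_hm : deriv f 0 = -1)
    (hj : ∃ c, Jet f (-1) c) : ProdInv 3 f := by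
  obtain ⟨ε₀, hε₀, hcore⟩ := hcore3
  obtain ⟨c, hc⟩ := hj
  have hm0 : (-1 : ℂ) ≠ 0 := by norm_num
  have hmm : (-1 : ℂ)⁻¹ = -1 := by norm_num
  obtain ⟨R, C, hRC⟩ := hf.expand hc hm0
  rw [hmm] at hRC
  set a : ℂ := c / -1 with ha
  set G : ℂ → ℂ := fun ζ => (f ζ⁻¹)⁻¹ with hG
  have hGf : ∀ z : ℂ, chart G z = f z := fun z => by
    by_cases hz : z = 0
    · rw [hz, chart_zero, hf.zero]
    · rw [chart_ne G hz]
      simp [hG]
  -- scaling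
  obtain ⟨N, hN1, hN2, hN3, hN4⟩ : ∃ N : ℝ, 1 ≤ N ∧ 3 * |R| + 1 ≤ N ∧ 3 * |C| / ε₀ ≤ N ∧
      12 * ‖a‖ ≤ N := by
    refine ⟨max (max 1 (12 * ‖a‖)) (max (3 * |R| + 1) (3 * |C| / ε₀)), ?_, ?_, ?_, ?_⟩
    · exact (le_max_left _ _).trans (le_max_left _ _)
    · exact (le_max_left _ _).trans (le_max_right _ _)
    · exact (le_max_right _ _).trans (le_max_right _ _)
    · exact (le_max_right _ _).trans (le_max_left _ _)
  have hN0 : (0:ℝ) < N := by linarith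
  have hNc : (N : ℂ) ≠ 0 := by exact_mod_cast hN0.ne'
  have hNn : ‖(N : ℂ)‖ = N := by rw [Complex.norm_real, Real.norm_eq_abs, abs_of_pos hN0]
  set d : ℂ := (a + N / 4) / 2 with hd
  have hdn : ‖d‖ ≤ N / 6 := by
    have h0 : ‖(N : ℂ) / 4‖ = N / 4 := by rw [norm_div, hNn, Complex.norm_ofNat]
    have h1 : ‖d‖ ≤ (‖a‖ + N / 4) / 2 := by
      rw [hd, norm_div, Complex.norm_ofNat, ← h0]
      gcongr
      exact norm_add_le _ _
    linarith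
  -- `F = A⁻¹ G A`
  set F : ℂ → ℂ := fun ζ => (N : ℂ)⁻¹ * G (N * ζ + d) + (-((N : ℂ)⁻¹ * d)) with hFdef
  have key : ∀ ζ : ℂ, F ζ + ζ + 1 / 4 =
      (N : ℂ)⁻¹ * (G (N * ζ + d) - (-1 * (N * ζ + d) + a)) := by
    intro ζ
    simp only [hFdef]
    have e1 : (N : ℂ)⁻¹ * (G (N * ζ + d) - (-1 * (N * ζ + d) + a)) =
      (N : ℂ)⁻¹ * G (N * ζ + d) + ((N : ℂ)⁻¹ * N) * ζ + (N : ℂ)⁻¹ * d - (N : ℂ)⁻¹ * a := by ring
    have e2 : (N : ℂ)⁻¹ * a = (N : ℂ)⁻¹ * (2 * d) - ((N : ℂ)⁻¹ * N) / 4 := by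
      rw [hd]
      ring
    rw [e1, e2, inv_mul_cancel₀ hNc]
    ring
  have hlow : ∀ ζ : ℂ, 1 / 2 < ‖ζ‖ → 2 / 3 * N * ‖ζ‖ ≤ ‖(N : ℂ) * ζ + d‖ ∧
      R < ‖(N : ℂ) * ζ + d‖ := by
    intro ζ hζ
    have h1 : ‖(N : ℂ) * ζ‖ ≤ ‖(N : ℂ) * ζ + d‖ + ‖d‖ := by
      calc ‖(N : ℂ) * ζ‖ = ‖(N : ℂ) * ζ + d - d‖ := by rw [add_sub_cancel_right]
        _ ≤ _ := norm_sub_le _ _
    rw [norm_mul, hNn] at h1
    have h2 : 2 / 3 * N * ‖ζ‖ ≤ ‖(N : ℂ) * ζ + d‖ := by nlinarith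
    refine ⟨h2, ?_⟩
    have h3 : N / 3 ≤ 2 / 3 * N * ‖ζ‖ := by nlinarith
    linarith [le_abs_self R]
  have hdF : ∀ ζ : ℂ, 1 / 2 < ‖ζ‖ → DifferentiableAt ℂ F ζ := by
    intro ζ hζ
    have h2 := (hRC _ (hlow ζ hζ).2).1
    have h3 : DifferentiableAt ℂ (fun ζ : ℂ => G (N * ζ + d)) ζ :=
      DifferentiableAt.comp (f := fun ζ : ℂ => N * ζ + d) ζ h2 (by fun_prop)
    exact (h3.const_mul _).add_const _
  have hbF : ∀ ζ : ℂ, 1 / 2 < ‖ζ‖ → ‖F ζ + ζ + 1 / 4‖ ≤ ε₀ / ‖ζ‖ ^ 2 := by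
    intro ζ hζ
    obtain ⟨h0, h1⟩ := hlow ζ hζ
    have h2 := (hRC _ h1).2
    have hζ0 : 0 < ‖ζ‖ := by linarith
    have h00 : 0 < 2 / 3 * N * ‖ζ‖ := by positivity
    rw [key, norm_mul, norm_inv, hNn]
    calc N⁻¹ * ‖G (N * ζ + d) - (-1 * (N * ζ + d) + a)‖
        ≤ N⁻¹ * (C / ‖(N : ℂ) * ζ + d‖ ^ 2) := by gcongr
      _ ≤ N⁻¹ * (|C| / ‖(N : ℂ) * ζ + d‖ ^ 2) := by gcongr; exact le_abs_self C
      _ ≤ N⁻¹ * (|C| / (2 / 3 * N * ‖ζ‖) ^ 2) := by gcongr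
      _ = (9 / 4 * |C| / N ^ 3) / ‖ζ‖ ^ 2 := by
        field_simp
        ring
      _ ≤ ε₀ / ‖ζ‖ ^ 2 := by
        gcongr
        rw [div_le_iff₀ (by positivity)]
        rw [div_le_iff₀ hε₀] at hN3
        have h5 : N ≤ N ^ 3 := by
          calc N = N ^ 1 := (pow_one N).symm
            _ ≤ N ^ 3 := pow_le_pow_right₀ hN1 (by norm_num)
        nlinarith [abs_nonneg C]
  -- all maps at infinity
  have aG : AtInf (-1) G := by
    refine ⟨hm0, max R 1, ‖a‖ + |C|, fun ζ hζ => ?_⟩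
    have h1 : R < ‖ζ‖ := (le_max_left _ _).trans_lt hζ
    have h2 : 1 < ‖ζ‖ := (le_max_right _ _).trans_lt hζ
    obtain ⟨h3, h4⟩ := hRC ζ h1
    refine ⟨h3, ?_⟩
    have h5 : G ζ - -1 * ζ = a + (G ζ - (-1 * ζ + a)) := by ring
    rw [h5]
    refine (norm_add_le _ _).trans (add_le_add le_rfl ?_)
    refine h4.trans ?_
    have h6 : (1:ℝ) ≤ ‖ζ‖ ^ 2 := by nlinarith
    calc C / ‖ζ‖ ^ 2 ≤ |C| / ‖ζ‖ ^ 2 := by gcongr; exact le_abs_self C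
      _ ≤ |C| / 1 := by gcongr
      _ = _ := by rw [div_one]
  have aA : AtInf (N : ℂ) (fun ζ : ℂ => N * ζ + d) := atInf_affine hNc d
  have aA' : AtInf (N : ℂ)⁻¹ (fun ζ : ℂ => (N : ℂ)⁻¹ * ζ + (-((N : ℂ)⁻¹ * d))) :=
    atInf_affine (inv_ne_zero hNc) _
  obtain ⟨β₁, β₂, β₃, hβ, hrel⟩ := hcore F hdF hbF
  have ab1 : AtInf (-1) β₁ := ⟨hm0, 10, 1, fun ζ hζ => ⟨(hβ ζ hζ).1, by
    have := (hβ ζ hζ).2.2.2.1
    rwa [neg_one_mul, sub_neg_eq_add]⟩⟩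
  have ab2 : AtInf (-1) β₂ := ⟨hm0, 10, 1, fun ζ hζ => ⟨(hβ ζ hζ).2.1, by
    have := (hβ ζ hζ).2.2.2.2.1
    rwa [neg_one_mul, sub_neg_eq_add]⟩⟩
  have ab3 : AtInf (-1) β₃ := ⟨hm0, 10, 1, fun ζ hζ => ⟨(hβ ζ hζ).2.2.1, by
    have := (hβ ζ hζ).2.2.2.2.2.1
    rwa [neg_one_mul, sub_neg_eq_add]⟩⟩
  have ib1 : IsInvol (chart β₁) := ab1.isInvol (R := 10) fun ζ hζ => (hβ ζ hζ).2.2.2.2.2.2.1
  have ib2 : IsInvol (chart β₂) := ab2.isInvol (R := 10) fun ζ hζ => (hβ ζ hζ).2.2.2.2.2.2.2.1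
  have ib3 : IsInvol (chart β₃) := ab3.isInvol (R := 10) fun ζ hζ => (hβ ζ hζ).2.2.2.2.2.2.2.2
  have h3 : ProdInv 3 (chart F) := by
    refine (ib1.prodInv.comp (ib2.prodInv.comp ib3.prodInv)).congr ?_
    filter_upwards [chart_congr hrel, chart_comp β₁ (ab2.comp ab3), chart_comp β₂ ab3]
      with z e1 e2 e3
    rw [e1, e2, e3]
  -- recover the original map
  have gA : IsGerm (chart fun ζ : ℂ => N * ζ + d) := aA.isGerm
  have gA' : IsGerm (chart fun ζ : ℂ => (N : ℂ)⁻¹ * ζ + (-((N : ℂ)⁻¹ * d))) := aA'.isGerm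
  have e1 : ∀ᶠ z in 𝓝 (0 : ℂ), (chart fun ζ : ℂ => N * ζ + d)
      ((chart fun ζ : ℂ => (N : ℂ)⁻¹ * ζ + (-((N : ℂ)⁻¹ * d))) z) = z := by
    filter_upwards [chart_comp (fun ζ : ℂ => N * ζ + d) aA'] with z h5
    rw [← h5]
    by_cases hz : z = 0
    · rw [hz, chart_zero]
    · have h6 : (N : ℂ) * ((N : ℂ)⁻¹ * z⁻¹ + (-((N : ℂ)⁻¹ * d))) + d = z⁻¹ := by
        have h7 : (N : ℂ) * ((N : ℂ)⁻¹ * z⁻¹ + (-((N : ℂ)⁻¹ * d))) + d =
          ((N : ℂ) * (N : ℂ)⁻¹) * (z⁻¹ - d) + d := by ring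
        rw [h7, mul_inv_cancel₀ hNc]
        ring
      rw [chart_ne _ hz, h6, inv_inv]
  have e2 : ∀ᶠ z in 𝓝 (0 : ℂ), (chart fun ζ : ℂ => (N : ℂ)⁻¹ * ζ + (-((N : ℂ)⁻¹ * d)))
      ((chart fun ζ : ℂ => N * ζ + d) z) = z := by
    filter_upwards [chart_comp (fun ζ : ℂ => (N : ℂ)⁻¹ * ζ + (-((N : ℂ)⁻¹ * d))) aA] with z h5
    rw [← h5]
    by_cases hz : z = 0
    · rw [hz, chart_zero]
    · have h6 : (N : ℂ)⁻¹ * ((N : ℂ) * z⁻¹ + d) + (-((N : ℂ)⁻¹ * d)) = z⁻¹ := by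
        have h7 : (N : ℂ)⁻¹ * ((N : ℂ) * z⁻¹ + d) + (-((N : ℂ)⁻¹ * d)) =
          ((N : ℂ)⁻¹ * (N : ℂ)) * z⁻¹ := by ring
        rw [h7, inv_mul_cancel₀ hNc]
        ring
      rw [chart_ne _ hz, h6, inv_inv]
  refine (h3.conj gA' gA e2 e1).congr ?_
  have h5 := gA'.tendsto.eventually
    (chart_comp (fun ζ : ℂ => (N : ℂ)⁻¹ * ζ + (-((N : ℂ)⁻¹ * d))) (aG.comp aA))
  have h6 := gA'.tendsto.eventually (chart_comp G aA)
  have h7 : ∀ᶠ z in 𝓝 (0 : ℂ), (chart fun ζ : ℂ => (N : ℂ) * ζ + d)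
      ((chart fun ζ : ℂ => (N : ℂ)⁻¹ * ζ + (-((N : ℂ)⁻¹ * d))) (f z)) = f z :=
    hf.tendsto.eventually e1
  filter_upwards [h5, h6, h7, e1] with z h8 h9 h10 h11
  rw [h8, h9, h11, hGf, h10]

/-- Parity: a product of `n + 1` involutions with multiplier `(-1)^n` is a product of `n`. -/
lemma ProdInv.parity : ∀ {n : ℕ} {f : ℂ → ℂ}, ProdInv (n + 1) f → deriv f 0 = (-1) ^ n →
    ProdInv n f
  | 0, f, ⟨τ, g, hτ, hg, hf⟩, hd => by
    have hg' : ∀ᶠ z in 𝓝 (0 : ℂ), g z = z := hg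
    have h1 : ∀ᶠ z in 𝓝 (0 : ℂ), f z = τ z := by
      filter_upwards [hf, hg'] with z h2 h3
      rw [h2, h3]
    rcases hτ.cases with h2 | ⟨h2, _⟩
    · show ∀ᶠ z in 𝓝 (0 : ℂ), f z = z
      filter_upwards [h1, h2] with z h3 h4
      rw [h3, h4]
    · exfalso
      have h3 : f =ᶠ[𝓝 0] τ := h1
      rw [h3.deriv_eq, h2, pow_zero] at hd
      norm_num at hd
  | n + 1, f, ⟨τ, g, hτ, hg, hf⟩, hd => by
    rcases hτ.cases with h2 | ⟨h2, _⟩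
    · refine hg.congr ?_
      have h3 : ∀ᶠ z in 𝓝 (0 : ℂ), τ (g z) = g z := hg.isGerm.tendsto.eventually h2
      filter_upwards [hf, h3] with z h4 h5
      rw [h4, h5]
    · have h3 : f =ᶠ[𝓝 0] fun z => τ (g z) := hf
      rw [h3.deriv_eq, hτ.germ.deriv_comp hg.isGerm, h2, pow_succ] at hd
      have h4 : deriv g 0 = (-1) ^ n := by linear_combination -hd
      exact ⟨τ, g, hτ, hg.parity h4, hf⟩

/-- **Main theorem** (from `Core3`): the sets `I^n` for `n ≥ 3`. -/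
theorem main3 (hcore3 : Core3) (f : ℂ → ℂ) :
    (ProdInv 3 f ↔ ProdInv 2 f ∨ (IsGerm f ∧ deriv f 0 = -1 ∧
      2 * deriv f 0 * iteratedDeriv 3 f 0 = 3 * iteratedDeriv 2 f 0 ^ 2)) ∧
    ∀ n : ℕ, 4 ≤ n → (ProdInv n f ↔ IsGerm f ∧ (deriv f 0 = 1 ∨ deriv f 0 = -1) ∧
      2 * deriv f 0 * iteratedDeriv 3 f 0 = 3 * iteratedDeriv 2 f 0 ^ 2) := by
  have nec : ∀ n : ℕ, ProdInv n f → IsGerm f ∧ (deriv f 0 = 1 ∨ deriv f 0 = -1) ∧
      2 * deriv f 0 * iteratedDeriv 3 f 0 = 3 * iteratedDeriv 2 f 0 ^ 2 := fun n h =>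
    ⟨h.isGerm, h.jet.1, h.isGerm.jet_iff.mp h.jet.2⟩
  have suf : ∀ g : ℂ → ℂ, IsGerm g → deriv g 0 = -1 → (∃ c, Jet g (deriv g 0) c) → ProdInv 3 g :=
    fun g h1 h2 h3 => sufficiency3 hcore3 h1 h2 (by rwa [h2] at h3)
  refine ⟨⟨fun h => ?_, fun h => ?_⟩, fun n hn => ⟨nec n, fun h => ?_⟩⟩
  · obtain ⟨h1, h2, h3⟩ := nec 3 h
    rcases h2 with h2 | h2
    · left
      exact h.parity (by rw [h2]; norm_num)
    · exact Or.inr ⟨h1, h2, h3⟩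
  · rcases h with h | ⟨h1, h2, h3⟩
    · exact h.succ
    · exact suf f h1 h2 (h1.jet_iff.mpr h3)
  · obtain ⟨h1, h2, h3⟩ := h
    have hjet := h1.jet_iff.mpr h3
    rcases h2 with h2 | h2
    · -- multiply by `z ↦ -z`
      have hσ : IsInvol (chart fun ζ => -1 * ζ + 0) := isInvol_affine 0
      obtain ⟨c, hc⟩ := hjet
      have hσd : deriv (chart fun ζ => -1 * ζ + 0) 0 = -1 := by
        rcases hσ.cases with h4 | ⟨h4, _⟩
        · exfalso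
          have h5 : ∀ᶠ z in 𝓝 (0 : ℂ), -z = z := by
            filter_upwards [h4] with z hz
            by_cases hz0 : z = 0
            · rw [hz0]; simp
            · rw [chart_ne _ hz0] at hz
              simpa [neg_mul, inv_neg] using hz
          obtain ⟨ρ, hρ, h6⟩ := Metric.eventually_nhds_iff.mp h5
          have h7 := h6 (y := ((ρ / 2 : ℝ) : ℂ)) (by
            rw [dist_zero_right, Complex.norm_real, Real.norm_eq_abs, abs_of_pos (by linarith)]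
            linarith)
          have h8 : ((ρ / 2 : ℝ) : ℂ) = 0 := by linear_combination (-1 / 2 : ℂ) * h7
          have h9 : ρ / 2 = 0 := by exact_mod_cast h8
          linarith
        · exact h4
      have hσj : ∃ c', Jet (chart fun ζ => -1 * ζ + 0) (-1) c' := by
        have h4 := hσ.prodInv.jet.2
        rwa [hσd] at h4
      obtain ⟨c', hc'⟩ := hσj
      have g1 : IsGerm (fun z => (chart fun ζ => -1 * ζ + 0) (f z)) := hσ.germ.comp h1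
      have g2 : deriv (fun z => (chart fun ζ => -1 * ζ + 0) (f z)) 0 = -1 := by
        rw [hσ.germ.deriv_comp h1, hσd, h2, mul_one]
      have g3 := hc'.comp hc h1
      rw [h2] at g3
      have g4 : ProdInv 3 (fun z => (chart fun ζ => -1 * ζ + 0) (f z)) :=
        suf _ g1 g2 ⟨c + c' * 1, by rw [g2]; simpa using g3⟩
      have g5 : ProdInv 4 f := by
        refine ⟨_, _, hσ, g4, ?_⟩
        filter_upwards [h1.tendsto.eventually hσ.inv] with z hz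
        exact hz.symm
      exact g5.mono hn
    · exact (suf f h1 h2 hjet).mono (by omega)

/-- `z + z^5` is a product of four but not of three involutions. -/
theorem sharp : ¬ ProdInv 3 (fun z : ℂ => z + z ^ 5) := by
  intro h
  have hd : deriv (fun z : ℂ => z + z ^ 5) 0 = 1 := by
    have h1 : HasDerivAt (fun z : ℂ => z + z ^ 5) (1 + ((5 : ℕ) : ℂ) * 0 ^ (5 - 1)) 0 :=
      (hasDerivAt_id' (0:ℂ)).add (hasDerivAt_pow 5 (0:ℂ))
    rw [h1.deriv]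
    norm_num
  have h2 : ProdInv 2 (fun z : ℂ => z + z ^ 5) := h.parity (by rw [hd]; norm_num)
  obtain ⟨τ, g, hτ, hg, hf⟩ := h2
  -- nontriviality of `z + z^5`
  have hne : ∀ᶠ z in 𝓝[≠] (0 : ℂ), z ≠ 0 := eventually_mem_nhdsWithin
  have nontriv : ¬ ∀ᶠ z in 𝓝 (0 : ℂ), z + z ^ 5 = z := by
    intro h3
    obtain ⟨z, hz1, hz2⟩ := (hne.and (h3.filter_mono nhdsWithin_le_nhds)).exists
    have h4 : z ^ 5 = 0 := by linear_combination hz2
    exact hz1 (pow_eq_zero_iff (by norm_num) |>.mp h4)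
  rcases hτ.cases with h3 | ⟨hτd, _⟩
  · -- `τ = id`: then `z + z^5` is in `I^1`
    have h4 : ProdInv 1 (fun z : ℂ => z + z ^ 5) := by
      refine hg.congr ?_
      have h5 : ∀ᶠ z in 𝓝 (0 : ℂ), τ (g z) = g z := hg.isGerm.tendsto.eventually h3
      filter_upwards [hf, h5] with z h6 h7
      rw [h6, h7]
    have h5 : ProdInv 0 (fun z : ℂ => z + z ^ 5) := h4.parity (by rw [hd]; norm_num)
    exact nontriv h5
  · -- `g` is an involution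
    have hginv : ∀ᶠ z in 𝓝 (0 : ℂ), g (g z) = z := by
      obtain ⟨σ, k, hσ, hk, hgk⟩ := hg
      have hk' : ∀ᶠ z in 𝓝 (0 : ℂ), k z = z := hk
      have h5 : ∀ᶠ z in 𝓝 (0 : ℂ), g z = σ z := by
        filter_upwards [hgk, hk'] with z h6 h7
        rw [h6, h7]
      have h6 : ∀ᶠ z in 𝓝 (0 : ℂ), g (σ z) = σ (σ z) := hσ.germ.tendsto.eventually h5
      filter_upwards [h5, h6, hσ.inv] with z h7 h8 h9
      rw [h7, h8, h9]
    have fg : IsGerm (fun z : ℂ => z + z ^ 5) := h.isGerm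
    -- `τ (f z) = g z`
    have hτf : ∀ᶠ z in 𝓝 (0 : ℂ), τ (z + z ^ 5) = g z := by
      have h5 : ∀ᶠ z in 𝓝 (0 : ℂ), τ (τ (g z)) = g z := hg.isGerm.tendsto.eventually hτ.inv
      filter_upwards [hf, h5] with z h6 h7
      rw [h6, h7]
    -- `f (g z) = τ z`
    have hfg : ∀ᶠ z in 𝓝 (0 : ℂ), g z + g z ^ 5 = τ z := by
      have h5 : ∀ᶠ z in 𝓝 (0 : ℂ), g z + g z ^ 5 = τ (g (g z)) := hg.isGerm.tendsto.eventually hf
      filter_upwards [h5, hginv] with z h6 h7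
      rw [h6, h7]
    -- limits
    have hgd : deriv g 0 = -1 := by
      have h5 : (fun z => τ (z + z ^ 5)) =ᶠ[𝓝 0] g := hτf
      rw [← h5.deriv_eq, hτ.germ.deriv_comp fg, hτd, hd, mul_one]
    have hlim1 : Tendsto (fun z : ℂ => g z / z) (𝓝[≠] 0) (𝓝 (-1)) := by
      have h5 := hg.isGerm.an.differentiableAt.hasDerivAt
      rw [hgd, hasDerivAt_iff_tendsto_slope] at h5
      refine h5.congr' ?_
      filter_upwards with z
      rw [slope_def_field, hg.isGerm.zero, sub_zero, sub_zero]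
    have hlim2 : Tendsto (fun z : ℂ => (τ (z + z ^ 5) - τ z) / z ^ 5) (𝓝[≠] 0) (𝓝 (-1)) := by
      have h5 : HasStrictDerivAt τ (-1) 0 := by
        have := hτ.germ.an.hasStrictDerivAt
        rwa [hτd] at this
      have h6 := h5.isLittleO
      have h7 : Tendsto (fun z : ℂ => ((z + z ^ 5, z) : ℂ × ℂ)) (𝓝[≠] 0) (𝓝 (0, 0)) := by
        have : Continuous fun z : ℂ => ((z + z ^ 5, z) : ℂ × ℂ) := by fun_prop
        have h8 := this.tendsto 0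
        simp only [ne_eq, OfNat.ofNat_ne_zero, not_false_eq_true, zero_pow, add_zero] at h8
        exact h8.mono_left nhdsWithin_le_nhds
      have h8 := h6.comp_tendsto h7
      rw [Asymptotics.isLittleO_iff_tendsto'] at h8
      · have h9 := h8.add_const (-1)
        rw [zero_add] at h9
        refine h9.congr' ?_
        filter_upwards [hne] with z hz
        simp only [Function.comp_apply, add_sub_cancel_left]
        have hz5 : z ^ 5 ≠ 0 := pow_ne_zero 5 hz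
        simp
        field_simp
        ring
      · filter_upwards [hne] with z hz h10
        exfalso
        simp only [Function.comp_apply, add_sub_cancel_left] at h10
        exact hz (pow_eq_zero_iff (by norm_num) |>.mp h10)
    have hlim3 : Tendsto (fun z : ℂ => -(g z / z) ^ 5) (𝓝[≠] 0) (𝓝 (-(-1) ^ 5)) :=
      (hlim1.pow 5).neg
    have heq : ∀ᶠ z in 𝓝[≠] (0 : ℂ), (τ (z + z ^ 5) - τ z) / z ^ 5 = -(g z / z) ^ 5 := by
      filter_upwards [hne, hτf.filter_mono nhdsWithin_le_nhds,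
        hfg.filter_mono nhdsWithin_le_nhds] with z hz h5 h6
      rw [h5, ← h6, div_pow]
      ring
    have h10 := tendsto_nhds_unique (hlim2.congr' heq) hlim3
    norm_num at h10

end Pool.Agent.Lib.MP_40a019_an
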